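import Pool.Agent.Lib.MP_391708_nt.XP.U.HTAC
import Pool.Agent.Lib.MP_391708_nt.XP.CEL

/-!
# THEOREM X+ (MP_391708), part U, module HTA: the sum of `HJ` against a character of `U`
-/

set_option autoImplicit false

namespace Pool.Agent.Lib.MP391708.XPU

open Finset Filter Topology Pool.Agent.Lib.MP391708.MR
open Pool.Agent.Lib.MP391708.X (ChiG hk Dist rgh Ix psi ix1 UOK lc)
open Pool.Agent.Lib.MP391708.XP (Par par Box RR S4 S2 I4 I2 eta kap Eta Kap cc)
open Pool.Agent.Lib.MP391708.XU (GG SpecNCD)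
open scoped ComplexConjugate

namespace HTAM

open HJSM

theorem fin_small {C K c : ℝ} (hC : 0 < C) (hc : 0 < c) :
    ∀ᶠ N : ℝ in atTop, C * Real.log N ^ K * N ^ (1 - c) ≤ N ^ (1 - c / 2) := by
  have h := (isLittleO_log_rpow_rpow_atTop K (show 0 < c / 2 by positivity)).bound
    (show 0 < 1 / C by positivity)
  filter_upwards [h, eventually_gt_atTop (1 : ℝ)] with N hN h1
  have hN0 : 0 < N := by linarith
  have hL0 : 0 < Real.log N := Real.log_pos h1
  rw [Real.norm_of_nonneg (by positivity), Real.norm_of_nonneg (by positivity)] at hN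
  have h2 : C * Real.log N ^ K ≤ N ^ (c / 2) := by
    calc C * Real.log N ^ K ≤ C * (1 / C * N ^ (c / 2)) := mul_le_mul_of_nonneg_left hN hC.le
      _ = N ^ (c / 2) := by field_simp
  calc C * Real.log N ^ K * N ^ (1 - c) ≤ N ^ (c / 2) * N ^ (1 - c) :=
        mul_le_mul_of_nonneg_right h2 (by positivity)
    _ = N ^ (1 - c / 2) := by
        rw [← Real.rpow_add hN0]
        congr 1
        ring

theorem log_le {b c : ℝ} (hc : 0 < c) : ∀ᶠ N : ℝ in atTop, Real.log N ^ b ≤ N ^ c := by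
  filter_upwards [(isLittleO_log_rpow_rpow_atTop b hc).bound one_pos,
    eventually_gt_atTop (1 : ℝ)] with N hN h1
  have hL0 : 0 < Real.log N := Real.log_pos h1
  rwa [Real.norm_of_nonneg (by positivity), Real.norm_of_nonneg (by positivity), one_mul] at hN

/-- the size conditions in a box -/
theorem siz {ch cw : ℝ} (hch : 1 ≤ ch) (hcw : 1 ≤ cw) {δ cP cT cB : ℝ} (hδ : δ ≤ 1 / 100)
    (hcP : 1 ≤ cP) (h1 : cw + 1 ≤ cP) (hcT : 1 ≤ cT) : ∀ᶠ N : ℝ in atTop, ∀ T P M B : ℝ,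
    Box δ cP cT cB N T P M B → Siz (par N T P M ch cw) := by
  filter_upwards [log_le (b := cw) (show (0 : ℝ) < 34 / 100 by norm_num),
    (tendsto_rpow_atTop (show (0 : ℝ) < 1 / 100 by norm_num)).eventually_ge_atTop 100,
    eventually_ge_atTop (100 : ℝ), Real.tendsto_log_atTop.eventually_ge_atTop 64] with
    N g1 g2 hN hL T P M B hB
  have hL0 : 0 < Real.log N := by linarith
  have hL1 : 1 ≤ Real.log N := by linarith
  have hN0 : 0 < N := by linarith
  have hN1 : 1 ≤ N := by linarith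
  have pw : ∀ a : ℝ, 1 ≤ a → Real.log N ≤ Real.log N ^ a := fun a ha => by
    calc Real.log N = Real.log N ^ (1 : ℝ) := (Real.rpow_one _).symm
      _ ≤ Real.log N ^ a := Real.rpow_le_rpow_of_exponent_le hL1 ha
  have hP64 : 64 ≤ P := hL.trans ((pw cP hcP).trans hB.P1)
  have hP0 : 0 < P := by linarith
  have e1 : N ^ (35 / 100 : ℝ) = N ^ (34 / 100 : ℝ) * N ^ (1 / 100 : ℝ) := by
    rw [← Real.rpow_add hN0]
    norm_num
  have hq : 1 ≤ N ^ (34 / 100 : ℝ) := Real.one_le_rpow hN1 (by norm_num)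
  have hM100 : 100 ≤ M := by
    refine le_trans ?_ hB.M1
    rw [e1]
    nlinarith
  have hT0 : 0 < T := by
    have : 0 < P * Real.log N ^ cT := by positivity
    exact this.trans_le hB.T1
  refine ⟨hN, hL1.trans (pw ch hch), le_trans (by linarith) (pw cw hcw), by
    show 2 ≤ P
    linarith, ?_, ?_, by
    show 10 ≤ M
    linarith, ?_, ?_, ?_⟩
  · show Real.log N ^ cw < P
    exact (Real.rpow_lt_rpow_of_exponent_lt (by linarith) (by linarith)).trans_le hB.P1
  · show 64 * P ≤ T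
    refine le_trans ?_ hB.T1
    rw [mul_comm]
    exact mul_le_mul_of_nonneg_left (hL.trans (pw cT hcT)) hP0.le
  · show Real.log N ^ cw < M
    refine lt_of_lt_of_le ?_ hB.M1
    rw [e1]
    nlinarith
  · show M ^ 2 ≤ N
    have h3 : M ≤ N ^ (1 / 2 : ℝ) :=
      hB.M2.trans (Real.rpow_le_rpow_of_exponent_le hN1 (by norm_num))
    calc M ^ 2 ≤ (N ^ (1 / 2 : ℝ)) ^ 2 := pow_le_pow_left₀ (by linarith) h3 2
      _ = N := by
        rw [← Real.rpow_natCast, ← Real.rpow_mul hN0.le]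
        norm_num
  · show 100 * T ^ 2 ≤ M
    have h3 : T ≤ N ^ (1 / 100 : ℝ) :=
      hB.T2.trans (Real.rpow_le_rpow_of_exponent_le hN1 hδ)
    have h4 : T ^ 2 ≤ (N ^ (1 / 100 : ℝ)) ^ 2 := pow_le_pow_left₀ hT0.le h3 2
    have h5 : (N ^ (1 / 100 : ℝ)) ^ 2 * N ^ (1 / 100 : ℝ) ≤ N ^ (35 / 100 : ℝ) := by
      rw [← Real.rpow_natCast, ← Real.rpow_mul hN0.le, ← Real.rpow_add hN0]
      apply Real.rpow_le_rpow_of_exponent_le hN1
      norm_num
    refine le_trans ?_ hB.M1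
    refine le_trans ?_ h5
    have h6 : 0 ≤ T ^ 2 := sq_nonneg T
    calc 100 * T ^ 2 = T ^ 2 * 100 := by ring
      _ ≤ (N ^ (1 / 100 : ℝ)) ^ 2 * N ^ (1 / 100 : ℝ) := mul_le_mul h4 g2 (by norm_num) (by positivity)

end HTAM

open HTAM HJSM in
/-- **HTA**: the sum of `HJ` against a character of `U`. -/
theorem specHTA (hRGS : SpecRGS) (hNCD : SpecNCD) (_ : SpecHJS) (hETH : SpecETH)
    (hSUP : SpecSUP) : SpecHTA := by
  classical
  intro cw hcw
  obtain ⟨c0, hc0, hc0', hR⟩ := hRGS cw hcw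
  obtain ⟨r, _, hr, _, hRR⟩ := XP.CE.ce_rrl
  refine ⟨min (c0 / 2) (1 / 100), lt_min (by positivity) (by norm_num),
    (min_le_right _ _).trans (by norm_num), ?_⟩
  intro ch aQ aU hch hQw haQ δ cP cT cB hδ hδc hcP hcwP hcT hcB
  have hδ1 : δ ≤ 1 / 100 := hδc.trans (min_le_right _ _)
  have hδ2 : δ ≤ c0 / 2 := hδc.trans (min_le_left _ _)
  have hCpos : 0 < 104976 * cw / r := by positivity
  filter_upwards [hRR ch cw hch (by linarith), hR,
    hSUP ch cw aQ aU hch hQw hcw haQ δ cP cT cB hδ hδ1 hcP hcwP hcT hcB,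
    siz (cB := cB) hch hcw hδ1 hcP hcwP hcT, log_le (b := aQ) hc0,
    fin_small (K := 3 * ch + aU + 1) hCpos hc0,
    Real.tendsto_log_atTop.eventually_ge_atTop 4] with N g1 g2 g3 g4 g5 g6 g7
  intro T P M B hB F U hF hU i m j hm hi1 hia hχ hu
  obtain ⟨u, hu, hk, hz⟩ := hu
  have S := g4 T P M B hB
  have hN100 : (100 : ℝ) ≤ N := S.N
  have hN0 : (0 : ℝ) < N := by linarith
  have hN1 : (1 : ℝ) ≤ N := by linarith
  set L : ℝ := Real.log N with hLd
  have hL0 : 0 < L := by linarith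
  have hL1 : 1 ≤ L := by linarith
  have hh : 1 ≤ L ^ ch := S.h
  have hw2 : 2 ≤ L ^ cw := S.w
  have hlw : 0 < Real.log (L ^ cw) := Real.log_pos (by linarith)
  have hP2 : 2 ≤ P := S.P
  have hM4 := M4_ge S
  have hM2 := M2_ge' S
  -- sizes
  have hQ : L ^ aQ ≤ L ^ cw := Real.rpow_le_rpow_of_exponent_le hL1 (by linarith)
  have hQ2 : (L ^ aQ) ^ 2 ≤ L ^ cw := by
    rw [← Real.rpow_natCast, ← Real.rpow_mul hL0.le]
    apply Real.rpow_le_rpow_of_exponent_le hL1
    push_cast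
    linarith
  have hsz : (i.1 : ℝ) ^ 2 ≤ (par N T P M ch cw).M4 := by
    have h1 : (i.1 : ℝ) ^ 2 ≤ (N ^ (min (c0 / 2) (1 / 100))) ^ 2 :=
      pow_le_pow_left₀ (Nat.cast_nonneg _) hia 2
    have h2 : (N ^ (min (c0 / 2) (1 / 100))) ^ 2 ≤ N ^ (35 / 100 : ℝ) := by
      rw [← Real.rpow_natCast, ← Real.rpow_mul hN0.le]
      apply Real.rpow_le_rpow_of_exponent_le hN1
      have : min (c0 / 2) (1 / 100) ≤ 1 / 100 := min_le_right _ _
      push_cast
      linarith
    exact h1.trans (h2.trans hB.M1)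
  have hN3 : N ^ (1 / 3 : ℝ) ≤ (par N T P M ch cw).M4 :=
    (Real.rpow_le_rpow_of_exponent_le hN1 (by norm_num)).trans hB.M1
  have hE : ∀ v4 ∈ I4 (par N T P M ch cw), ∀ v2 ∈ I2 (par N T P M ch cw),
      N ^ (1 / 3 : ℝ) ≤ Real.exp (((v4 + v2 : ℕ) : ℝ) / L ^ ch) := by
    intro v4 h4 v2 h2
    have h5 := exp_ge S h4 h2
    refine hN3.trans (le_trans ?_ h5)
    nlinarith
  have hRRl : ∀ v4 ∈ I4 (par N T P M ch cw), ∀ v2 ∈ I2 (par N T P M ch cw),
      r / (L ^ ch * Real.log (L ^ cw)) * Real.exp (((v4 + v2 : ℕ) : ℝ) / L ^ ch) ≤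
        RR (par N T P M ch cw) (v4 + v2) := by
    intro v4 h4 v2 h2
    have h5 := (g1 T P M (v4 + v2) (hE v4 h4 v2 h2)).1
    calc r / (L ^ ch * Real.log (L ^ cw)) * Real.exp (((v4 + v2 : ℕ) : ℝ) / L ^ ch) =
        r * (Real.exp (((v4 + v2 : ℕ) : ℝ) / L ^ ch) / (L ^ ch * Real.log (L ^ cw))) := by ring
      _ ≤ RR (par N T P M ch cw) (v4 + v2) := h5
  have hcpos : 0 < r / (L ^ ch * Real.log (L ^ cw)) := by positivity
  have hT0 : 0 < T := by
    have h1 : 64 * P ≤ T := S.T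
    linarith
  have hMMle : MM' (par N T P M ch cw) ≤ N ^ (1 + c0) := by
    have h5 : T ≤ N ^ c0 :=
      hB.T2.trans (Real.rpow_le_rpow_of_exponent_le hN1 (by linarith))
    have h6 : MM' (par N T P M ch cw) = 2 * N * T / P := rfl
    rw [h6, div_le_iff₀ (by linarith), Real.rpow_add hN0, Real.rpow_one]
    calc 2 * N * T = N * T * 2 := by ring
      _ ≤ N * N ^ c0 * P := by
          apply mul_le_mul (mul_le_mul_of_nonneg_left h5 hN0.le) hP2 (by norm_num)
          positivity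
  have hix : ∀ u ∈ U, 1 ≤ u.1 ∧ (u.1 : ℝ) ≤ N ^ c0 ∧ ChiG (u.1 : Gi) u.2.1 ∧
      |(u.2.2 : ℝ)| ≤ N ^ 2 := by
    intro u hu
    obtain ⟨h5, h6, h7⟩ := hU.ch u hu
    exact ⟨h5, h6.trans g5, h7, (hU.frq u hu).trans hF⟩
  have h0 := core (p := par N T P M ch cw) (Q := L ^ aQ) (F := F) (W := L ^ aU) (i := i) (u := u)
    (D := N ^ (1 - c0)) (Bc := 11664 / (r / (L ^ ch * Real.log (L ^ cw)))) (L := L) (m := m)
    hETH hNCD S hU hQ hQ2 (by positivity) (by positivity) hL0.le ?_ ?_ ?_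
    (fun z => g3 T P M B hB F U hF hU z) hm j hi1 hχ hsz hu hk hz
  · refine h0.trans (add_le_add (le_refl _) ?_)
    have k4 : ((I4 (par N T P M ch cw)).card : ℝ) ≤ 3 * L ^ ch :=
      XP.CE.CELM.card_VV hh (by linarith)
    have k2 : ((I2 (par N T P M ch cw)).card : ℝ) ≤ 3 * L ^ ch :=
      XP.CE.CELM.card_VV hh (by linarith)
    have kU := hU.card
    have hlw2 : Real.log (L ^ cw) ≤ cw * L := by
      rw [Real.log_rpow hL0]
      have h8 := Real.log_le_sub_one_of_pos hL0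
      nlinarith
    have kB : 11664 / (r / (L ^ ch * Real.log (L ^ cw))) ≤ 11664 * cw / r * (L ^ ch * L) := by
      have h8 : 11664 / (r / (L ^ ch * Real.log (L ^ cw))) =
          11664 / r * (L ^ ch * Real.log (L ^ cw)) := by
        field_simp
      rw [h8]
      calc 11664 / r * (L ^ ch * Real.log (L ^ cw)) ≤ 11664 / r * (L ^ ch * (cw * L)) := by
            apply mul_le_mul_of_nonneg_left _ (by positivity)
            apply mul_le_mul_of_nonneg_left hlw2 (by positivity)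
        _ = 11664 * cw / r * (L ^ ch * L) := by ring
    have hD0 : 0 ≤ N ^ (1 - c0) := by positivity
    have hB0 : 0 ≤ 11664 / (r / (L ^ ch * Real.log (L ^ cw))) := by positivity
    calc ((I4 (par N T P M ch cw)).card : ℝ) * ((I2 (par N T P M ch cw)).card *
          (U.card * (11664 / (r / (L ^ ch * Real.log (L ^ cw))) * N ^ (1 - c0)))) ≤
        (3 * L ^ ch) * ((3 * L ^ ch) * (L ^ aU * (11664 * cw / r * (L ^ ch * L) *
          N ^ (1 - c0)))) := by
          apply mul_le_mul k4 _ (by positivity) (by positivity)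
          apply mul_le_mul k2 _ (by positivity) (by positivity)
          apply mul_le_mul kU _ (by positivity) (by positivity)
          exact mul_le_mul_of_nonneg_right kB hD0
      _ = 104976 * cw / r * (L ^ ch * L ^ ch * L ^ ch * L ^ aU * L) * N ^ (1 - c0) := by ring
      _ = 104976 * cw / r * L ^ (3 * ch + aU + 1) * N ^ (1 - c0) := by
          have h9 : L ^ ch * L ^ ch * L ^ ch * L ^ aU * L = L ^ (3 * ch + aU + 1) := by
            rw [Real.rpow_add hL0, Real.rpow_one, Real.rpow_add hL0]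
            congr 2
            rw [← Real.rpow_add hL0, ← Real.rpow_add hL0]
            congr 1
            ring
          rw [h9]
      _ ≤ N ^ (1 - c0 / 2) := g6
      _ ≤ N ^ (1 - min (c0 / 2) (1 / 100)) := by
          apply Real.rpow_le_rpow_of_exponent_le hN1
          have : min (c0 / 2) (1 / 100) ≤ c0 / 2 := min_le_left _ _
          linarith
  · intro u hu u' hu' hne v4 h4 v2 h2
    exact g2 u u' (L ^ ch) (v4 + v2) _ hh ((exp_le S h4 h2).trans hMMle) (hix u hu) (hix u' hu')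
      (hU.dif u hu u' hu' hne) (fun z => by rw [mem_filter]; rfl)
  · intro v4 h4 v2 h2
    exact (lt_of_lt_of_le (mul_pos hcpos (Real.exp_pos _)) (hRRl v4 h4 v2 h2)).ne'
  · intro u hu v4 h4 v2 h2
    exact norm_cc S (hU.ch u hu).2.2 h4 h2 hcpos (hRRl v4 h4 v2 h2)

end Pool.Agent.Lib.MP391708.XPU
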