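import Pool.Agent.Lib.MP_391708_nt.XP.U.Spec
import Pool.Agent.Lib.MP_391708_nt.XP.U.HTA

/-!
# THEOREM X+ (MP_391708), part U: module FIN
-/

set_option autoImplicit false

namespace Pool.Agent.Lib.MP391708.XPU

open Finset Filter Topology Pool.Agent.Lib.MP391708.MR
open Pool.Agent.Lib.MP391708.X (ChiG hk Dist Fam rgh Ix psi ix1 UOK lc On)
open Pool.Agent.Lib.MP391708.XP (Par par Box RR S4 S2 I4 I2 eta kap Eta Kap Var)
open Pool.Agent.Lib.MP391708.XV (md chs ph hat atyp)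
open Pool.Agent.Lib.MP391708.XU (fn ixq GG Eqv SpecBRG SpecCON SpecNCD)
open scoped ComplexConjugate

namespace FINM

/-! ## finite sums -/

lemma sum3 {α : Type*} [DecidableEq α] (A E : Finset α) (US : α → Prop) [DecidablePred US]
    (f g G : α → ℝ) {F0 X1 X2 X3 κ n N' S : ℝ} (hF : 0 ≤ F0) (hX1 : 0 ≤ X1) (hX2 : 0 ≤ X2)
    (hX3 : 0 ≤ X3) (hκ : 0 ≤ κ) (hf : ∀ q ∈ A, 0 ≤ f q ∧ f q ≤ F0) (hG0 : ∀ q ∈ A, 0 ≤ G q)
    (hg : ∀ q ∈ A, g q ≤ (if q ∈ E then X1 else 0) + (if US q then X2 else 0) + (κ * G q + X3))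
    (hU : ((A.filter US).card : ℝ) ≤ n) (hA : (A.card : ℝ) ≤ N') (hG : ∑ q ∈ A, G q ≤ S) :
    ∑ q ∈ A, f q * g q ≤ F0 * (X1 * E.card + X2 * n + κ * S + N' * X3) := by
  have h1 : ∀ q ∈ A, f q * g q ≤
      F0 * ((if q ∈ E then X1 else 0) + (if US q then X2 else 0) + (κ * G q + X3)) := by
    intro q hq
    have h2 : 0 ≤ (if q ∈ E then X1 else 0) + (if US q then X2 else 0) + (κ * G q + X3) := by
      have h3 : 0 ≤ (if q ∈ E then X1 else 0) := by split_ifs <;> simp [hX1]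
      have h4 : 0 ≤ (if US q then X2 else 0) := by split_ifs <;> simp [hX2]
      have h5 : 0 ≤ κ * G q := mul_nonneg hκ (hG0 q hq)
      linarith
    calc f q * g q ≤ f q * ((if q ∈ E then X1 else 0) + (if US q then X2 else 0) + (κ * G q + X3)) :=
          mul_le_mul_of_nonneg_left (hg q hq) (hf q hq).1
      _ ≤ _ := mul_le_mul_of_nonneg_right (hf q hq).2 h2
  refine (Finset.sum_le_sum h1).trans ?_
  rw [← Finset.mul_sum]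
  refine mul_le_mul_of_nonneg_left ?_ hF
  rw [Finset.sum_add_distrib, Finset.sum_add_distrib, Finset.sum_add_distrib, ← Finset.mul_sum,
    ← Finset.sum_filter, ← Finset.sum_filter, Finset.sum_const, Finset.sum_const, Finset.sum_const,
    nsmul_eq_mul, nsmul_eq_mul, nsmul_eq_mul]
  have h6 : ((A.filter (fun q => q ∈ E)).card : ℝ) ≤ E.card := by
    have : (A.filter (fun q => q ∈ E)).card ≤ E.card := by
      refine Finset.card_le_card ?_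
      intro q hq
      exact (Finset.mem_filter.1 hq).2
    exact_mod_cast this
  have h7 : ((A.filter (fun q => q ∈ E)).card : ℝ) * X1 ≤ X1 * E.card := by
    rw [mul_comm]; exact mul_le_mul_of_nonneg_left h6 hX1
  have h8 : ((A.filter US).card : ℝ) * X2 ≤ X2 * n := by
    rw [mul_comm]; exact mul_le_mul_of_nonneg_left hU hX2
  have h9 : κ * ∑ q ∈ A, G q ≤ κ * S := mul_le_mul_of_nonneg_left hG hκ
  have h10 : (A.card : ℝ) * X3 ≤ N' * X3 := mul_le_mul_of_nonneg_right hA hX3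
  linarith

/-! ## the unit `i` -/

lemma nm_I_mul (z : Gi) : nm (⟨0, 1⟩ * z) = nm z := by
  rw [nm_mul, nm_I, one_mul]

lemma I_ne_zero : (⟨0, 1⟩ : Gi) ≠ 0 := by
  intro h
  have := congrArg Zsqrtd.im h
  simp at this

open scoped Classical in
lemma I_mem_SJ {p : Par} {m j : ℕ} {z : Gi} (hz : z ∈ SJ p m j) : ⟨0, 1⟩ * z ∈ SJ p m j := by
  unfold SJ at hz ⊢
  rw [mem_filter, mem_disc] at hz ⊢
  obtain ⟨⟨h1, h2⟩, h3, h4⟩ := hz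
  rw [nm_I_mul]
  refine ⟨⟨mul_ne_zero I_ne_zero h1, h2⟩, ?_, h4⟩
  intro π hπ hd
  rcases hπ.dvd_or_dvd hd with h | h
  · exfalso
    exact hπ.not_isUnit (isUnit_of_dvd_unit h (isUnit_iff_nm.2 nm_I))
  · exact h3 π hπ h

lemma I_pow4 (z : Gi) : (⟨0, 1⟩ : Gi) * (⟨0, 1⟩ * (⟨0, 1⟩ * (⟨0, 1⟩ * z))) = z := by
  ext <;> simp

lemma psi_I_mul {i : Ix} (hmul : ∀ x y, i.2.1 (x * y) = i.2.1 x * i.2.1 y) (z : Gi) :
    psi i (⟨0, 1⟩ * z) = psi i ⟨0, 1⟩ * psi i z := by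
  unfold psi hk
  rw [hmul, xi_mul]
  ring

lemma sum_zero {p : Par} {U : Finset Ix} {m j : ℕ} {i : Ix}
    (hmul : ∀ x y, i.2.1 (x * y) = i.2.1 x * i.2.1 y)
    (hinv : ∀ z, HJ p U m j (⟨0, 1⟩ * z) = HJ p U m j z) (hne : psi i ⟨0, 1⟩ ≠ 1) :
    ∑ z ∈ SJ p m j, HJ p U m j z * psi i z = 0 := by
  have h1 : ∑ z ∈ SJ p m j, HJ p U m j (⟨0, 1⟩ * z) * psi i (⟨0, 1⟩ * z) =
      ∑ z ∈ SJ p m j, HJ p U m j z * psi i z := by
    refine Finset.sum_nbij' (fun z => ⟨0, 1⟩ * z) (fun z => ⟨0, 1⟩ * (⟨0, 1⟩ * (⟨0, 1⟩ * z)))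
      (fun z hz => I_mem_SJ hz) (fun z hz => I_mem_SJ (I_mem_SJ (I_mem_SJ hz)))
      (fun z _ => ?_) (fun z _ => I_pow4 z) (fun z _ => rfl)
    exact I_pow4 z
  have h2 : ∑ z ∈ SJ p m j, HJ p U m j (⟨0, 1⟩ * z) * psi i (⟨0, 1⟩ * z) =
      psi i ⟨0, 1⟩ * ∑ z ∈ SJ p m j, HJ p U m j z * psi i z := by
    rw [Finset.mul_sum]
    refine Finset.sum_congr rfl (fun z _ => ?_)
    rw [hinv, psi_I_mul hmul]
    ring
  rw [h1] at h2
  have h3 : (1 - psi i ⟨0, 1⟩) * ∑ z ∈ SJ p m j, HJ p U m j z * psi i z = 0 := by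
    linear_combination h2
  rcases mul_eq_zero.1 h3 with h | h
  · exact absurd (by linear_combination -h) hne
  · exact h

/-! ## one pair of cells, one modulus -/

open scoped Classical in
lemma card_SJ {p : Par} {m j : ℕ} (hM : 0 ≤ MM' p) : ((SJ p m j).card : ℝ) ≤ 9 * MM' p := by
  have h1 : ((SJ p m j).card : ℝ) ≤ (disc (MM' p)).card := by
    exact_mod_cast Finset.card_le_card (Finset.filter_subset _ _)
  exact h1.trans (card_disc_le hM)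

lemma norm_psi_le {i : Ix} (h : ∀ z, ‖i.2.1 z‖ ≤ 1) {z : Gi} (hz : z ≠ 0) : ‖psi i z‖ ≤ 1 := by
  unfold psi hk
  rw [norm_mul, norm_xi _ hz, mul_one]
  exact h z

lemma hat_eq (hB : SpecBRG) {p : Par} {U : Finset Ix} {m j t : ℕ}
    (q : MulChar (Cls.RR (md t)) ℂ × ℤ) :
    hat t q.1 q.2 (SJ p m j) (HJ p U m j) = ∑ z ∈ SJ p m j, HJ p U m j z * psi (ixq t q) z :=
  hB.2.1 t q.1 q.2 _ _

lemma hat_P (hB : SpecBRG) {t : ℕ} (ht : 1 ≤ t) {P₀ : ℝ} (hP₀ : 0 ≤ P₀) {Pi : Finset Gi}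
    (hPi : Pi ⊆ GP P₀ (2 * P₀)) (q : MulChar (Cls.RR (md t)) ℂ × ℤ) :
    ‖hat t q.1 q.2 Pi (fun _ => 1)‖ ≤ 18 * P₀ := by
  rw [hB.2.1]
  have hχ := hB.2.2.2 _ _ (hB.1 t q.1 ht)
  have h1 : ‖∑ z ∈ Pi, (1 : ℂ) * hk (fn t q.1) q.2 z‖ ≤ ∑ z ∈ Pi, (1 : ℝ) := by
    refine (norm_sum_le _ _).trans (Finset.sum_le_sum (fun z hz => ?_))
    rw [one_mul]
    unfold hk
    rw [norm_mul, norm_xi _ (GP_ne_zero (hPi hz)), mul_one]
    exact (hχ z).1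
  refine h1.trans ?_
  rw [Finset.sum_const, nsmul_eq_mul, mul_one]
  have h2 : (Pi.card : ℝ) ≤ (disc (2 * P₀)).card := by
    exact_mod_cast Finset.card_le_card (hPi.trans (Finset.filter_subset _ _))
  have h3 : ((disc (2 * P₀)).card : ℝ) ≤ 9 * (2 * P₀) := card_disc_le (by linarith)
  linarith

open scoped Classical in
/-- at most one character for each `u` -/
lemma card_US (hB : SpecBRG) {t : ℕ} (ht : 1 ≤ t) (U : Finset Ix)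
    (A : Finset (MulChar (Cls.RR (md t)) ℂ × ℤ)) :
    (A.filter (fun q => ∃ u ∈ U, q.2 = u.2.2 ∧ ∀ z, fn t q.1 z ≠ 0 → u.2.1 z = fn t q.1 z)).card
      ≤ U.card := by
  set W := A.filter (fun q => ∃ u ∈ U, q.2 = u.2.2 ∧ ∀ z, fn t q.1 z ≠ 0 → u.2.1 z = fn t q.1 z)
    with hW
  have h1 : ∀ q ∈ W, ∃ u ∈ U, q.2 = u.2.2 ∧ ∀ z, fn t q.1 z ≠ 0 → u.2.1 z = fn t q.1 z :=
    fun q hq => (Finset.mem_filter.1 hq).2
  choose! φ hφ1 hφ2 using h1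
  refine Finset.card_le_card_of_injOn φ (fun q hq => hφ1 q hq) ?_
  intro q hq q' hq' he
  by_contra hne
  rcases hB.2.2.1 t q q' ht hne with h | ⟨z, h1, h2, h3⟩
  · apply h
    rw [(hφ2 q hq).1, (hφ2 q' hq').1, he]
  · apply h3
    rw [← (hφ2 q hq).2 z h1, ← (hφ2 q' hq').2 z h2, he]

open scoped Classical in
/-- one pair of cells, one modulus -/
lemma inner (hB : SpecBRG) {p : Par} {U : Finset Ix} {m Km t : ℕ} {P₀ : ℝ} {Pi : Finset Gi}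
    {τ l Y4 H2 e n : ℝ} {j : ℕ} {E : Finset (MulChar (Cls.RR (md t)) ℂ × ℤ)}
    (ht : 1 ≤ t) (hP₀ : 0 ≤ P₀) (hPi : Pi ⊆ GP P₀ (2 * P₀)) (hl : 0 ≤ l)
    (hinv : ∀ z, HJ p U m j (⟨0, 1⟩ * z) = HJ p U m j z)
    (hsup : ∀ z, ‖HJ p U m j z‖ ≤ l)
    (hE : ∀ q ∈ atyp t Km τ Pi, psi (ixq t q) ⟨0, 1⟩ = 1 →
      q ∈ E ∨ (∃ u ∈ U, q.2 = u.2.2 ∧ ∀ z, fn t q.1 z ≠ 0 → u.2.1 z = fn t q.1 z) ∨
        ((∀ u ∈ U, Dist (fn t q.1) u.2.1 q.2 u.2.2) ∧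
          ‖G4 p m (ixq t q) (Nat.unpair j).1‖ ≤ Y4))
    (hTA : ∀ q ∈ atyp t Km τ Pi,
      (∃ u ∈ U, q.2 = u.2.2 ∧ ∀ z, fn t q.1 z ≠ 0 → u.2.1 z = fn t q.1 z) →
      ‖∑ z ∈ SJ p m j, HJ p U m j z * psi (ixq t q) z‖ ≤ H2)
    (hTS : ∀ q ∈ atyp t Km τ Pi, psi (ixq t q) ⟨0, 1⟩ = 1 →
      (∀ u ∈ U, Dist (fn t q.1) u.2.1 q.2 u.2.2) →
      ‖∑ z ∈ SJ p m j, HJ p U m j z * psi (ixq t q) z‖ ≤
        4 * ‖G4 p m (ixq t q) (Nat.unpair j).1‖ * ‖G2 p m (ixq t q) (Nat.unpair j).2‖ + e)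
    (hG2 : ∑ q ∈ atyp t Km τ Pi, ‖G2 p m (ixq t q) (Nat.unpair j).2‖ ^ 2 ≤ 200 * p.M2 ^ 2)
    (hat' : ((atyp t Km τ Pi).card : ℝ) ≤ n) (hM : 0 ≤ MM' p) :
    ∑ q ∈ atyp t Km τ Pi, ‖hat t q.1 q.2 Pi (fun _ => 1)‖ ^ 2 *
        ‖hat t q.1 q.2 (SJ p m j) (HJ p U m j)‖ ^ 2 ≤
      (18 * P₀) ^ 2 * ((9 * l * MM' p) ^ 2 * E.card + H2 ^ 2 * U.card + (32 * Y4 ^ 2) * (200 * p.M2 ^ 2)
        + n * (2 * e ^ 2)) := by
  refine sum3 (atyp t Km τ Pi) E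
    (fun q => ∃ u ∈ U, q.2 = u.2.2 ∧ ∀ z, fn t q.1 z ≠ 0 → u.2.1 z = fn t q.1 z)
    (fun q => ‖hat t q.1 q.2 Pi (fun _ => 1)‖ ^ 2)
    (fun q => ‖hat t q.1 q.2 (SJ p m j) (HJ p U m j)‖ ^ 2)
    (fun q => ‖G2 p m (ixq t q) (Nat.unpair j).2‖ ^ 2) (sq_nonneg _) (sq_nonneg _) (sq_nonneg _)
    (by positivity) (by positivity)
    (fun q _ => ⟨sq_nonneg _, pow_le_pow_left₀ (norm_nonneg _) (hat_P hB ht hP₀ hPi q) 2⟩)
    (fun q _ => sq_nonneg _) (fun q hq => ?_)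
    (by exact_mod_cast card_US hB ht U _) hat' hG2
  -- the bound for one character
  have hχ := hB.2.2.2 _ _ (hB.1 t q.1 ht)
  have hmul : ∀ x y, (ixq t q).2.1 (x * y) = (ixq t q).2.1 x * (ixq t q).2.1 y :=
    (hB.1 t q.1 ht).mul
  rw [hat_eq hB]
  have hX1 : 0 ≤ (if q ∈ E then (9 * l * MM' p) ^ 2 else 0) := by split_ifs <;> positivity
  have hX2 : 0 ≤ (if (∃ u ∈ U, q.2 = u.2.2 ∧ ∀ z, fn t q.1 z ≠ 0 → u.2.1 z = fn t q.1 z) then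
      H2 ^ 2 else 0) := by split_ifs <;> positivity
  have hX3 : 0 ≤ 32 * Y4 ^ 2 * ‖G2 p m (ixq t q) (Nat.unpair j).2‖ ^ 2 + 2 * e ^ 2 := by positivity
  by_cases h1 : psi (ixq t q) ⟨0, 1⟩ = 1
  · rcases hE q hq h1 with h2 | h2 | ⟨h2, h3⟩
    · rw [if_pos h2] at hX1 ⊢
      have h4 : ‖∑ z ∈ SJ p m j, HJ p U m j z * psi (ixq t q) z‖ ≤ 9 * l * MM' p := by
        calc ‖∑ z ∈ SJ p m j, HJ p U m j z * psi (ixq t q) z‖
            ≤ ∑ z ∈ SJ p m j, l := by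
              refine (norm_sum_le _ _).trans (Finset.sum_le_sum (fun z hz => ?_))
              have hz0 : z ≠ 0 := (mem_disc.1 (Finset.mem_filter.1 hz).1).1
              rw [norm_mul]
              calc ‖HJ p U m j z‖ * ‖psi (ixq t q) z‖ ≤ l * 1 :=
                    mul_le_mul (hsup z) (norm_psi_le (fun z => (hχ z).1) hz0) (norm_nonneg _) hl
                _ = l := mul_one l
          _ = (SJ p m j).card * l := by rw [Finset.sum_const, nsmul_eq_mul]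
          _ ≤ 9 * MM' p * l := mul_le_mul_of_nonneg_right (card_SJ hM) hl
          _ = 9 * l * MM' p := by ring
      have h5 := pow_le_pow_left₀ (norm_nonneg _) h4 2
      linarith
    · rw [if_pos h2] at hX2 ⊢
      have h5 := pow_le_pow_left₀ (norm_nonneg _) (hTA q hq h2) 2
      linarith
    · have h4 := hTS q hq h1 h2
      have h5 := pow_le_pow_left₀ (norm_nonneg _) h4 2
      have h6 : (4 * ‖G4 p m (ixq t q) (Nat.unpair j).1‖ * ‖G2 p m (ixq t q) (Nat.unpair j).2‖ + e) ^ 2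
          ≤ 32 * Y4 ^ 2 * ‖G2 p m (ixq t q) (Nat.unpair j).2‖ ^ 2 + 2 * e ^ 2 := by
        set a := ‖G4 p m (ixq t q) (Nat.unpair j).1‖ with ha
        set d := ‖G2 p m (ixq t q) (Nat.unpair j).2‖ with hd
        have ha0 : 0 ≤ a := norm_nonneg _
        have h7 : a ^ 2 ≤ Y4 ^ 2 := pow_le_pow_left₀ ha0 h3 2
        have h8 : a ^ 2 * d ^ 2 ≤ Y4 ^ 2 * d ^ 2 := mul_le_mul_of_nonneg_right h7 (sq_nonneg _)
        nlinarith [sq_nonneg (4 * a * d - e)]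
      linarith
  · rw [sum_zero hmul hinv h1, norm_zero]
    have : (0 : ℝ) ^ 2 = 0 := by norm_num
    rw [this]
    linarith

/-! ## numbers of cells -/

lemma floor_half {x : ℝ} (hx : 1 ≤ x) : x / 2 ≤ (⌊x⌋₊ : ℝ) := by
  have h1 : 1 ≤ ⌊x⌋₊ := (Nat.one_le_floor_iff _).2 hx
  have h2 : (1 : ℝ) ≤ (⌊x⌋₊ : ℝ) := by exact_mod_cast h1
  have h3 := Nat.lt_floor_add_one x
  linarith

lemma card_VV {h M : ℝ} (hh : 100 ≤ h) (hM : 1 ≤ M) : ((VV h M (2 * M)).card : ℝ) ≤ h := by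
  unfold VV
  rw [Nat.card_Icc]
  have h0 : 0 ≤ h * Real.log M := mul_nonneg (by linarith) (Real.log_nonneg hM)
  have h1 := Nat.lt_floor_add_one (h * Real.log M)
  have hl : Real.log (2 * M) = Real.log 2 + Real.log M := Real.log_mul (by norm_num) (by linarith)
  have h2 : ((⌊h * Real.log (2 * M)⌋₊ : ℕ) : ℝ) ≤ h * Real.log (2 * M) := by
    refine Nat.floor_le (mul_nonneg (by linarith) (Real.log_nonneg (by linarith)))
  have h3 : ⌊h * Real.log M⌋₊ ≤ ⌊h * Real.log (2 * M)⌋₊ := by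
    refine Nat.floor_le_floor ?_
    refine mul_le_mul_of_nonneg_left ?_ (by linarith)
    exact Real.log_le_log (by linarith) (by linarith)
  rw [Nat.cast_sub (by omega)]
  push_cast
  have h4 : Real.log 2 < 0.7 := lt_trans Real.log_two_lt_d9 (by norm_num)
  have h5 : h * Real.log (2 * M) = h * Real.log 2 + h * Real.log M := by rw [hl]; ring
  have h6 : h * Real.log 2 ≤ h * 0.7 := mul_le_mul_of_nonneg_left h4.le (by linarith)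
  linarith

lemma card_img {h M hc : ℝ} {m : ℕ} (hh : 1 ≤ h) (hM : 1 ≤ M) (hm : 1 ≤ m) (hc1 : 1 ≤ hc)
    (hhm : h / m ≤ 2 * hc) : (((VV h M (2 * M)).image (fun v => v / m)).card : ℝ) ≤ 6 * hc := by
  set a : ℕ := ⌊h * Real.log M⌋₊ with ha
  set b : ℕ := ⌊h * Real.log (2 * M)⌋₊ with hb
  have hm0 : (0 : ℝ) < m := by exact_mod_cast hm
  have hl0 : 0 ≤ Real.log M := Real.log_nonneg hM
  have hl : Real.log (2 * M) = Real.log 2 + Real.log M := Real.log_mul (by norm_num) (by linarith)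
  have hab : a ≤ b := by
    refine Nat.floor_le_floor ?_
    refine mul_le_mul_of_nonneg_left ?_ (by linarith)
    exact Real.log_le_log (by linarith) (by linarith)
  have h1 : (b : ℝ) ≤ a + 2 * h := by
    have h2 := Nat.lt_floor_add_one (h * Real.log M)
    have h3 : (b : ℝ) ≤ h * Real.log (2 * M) :=
      Nat.floor_le (mul_nonneg (by linarith) (Real.log_nonneg (by linarith)))
    have h4 : Real.log 2 < 1 := lt_trans Real.log_two_lt_d9 (by norm_num)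
    have h5 : h * Real.log (2 * M) = h * Real.log 2 + h * Real.log M := by rw [hl]; ring
    have h6 : h * Real.log 2 ≤ h * 1 := mul_le_mul_of_nonneg_left h4.le (by linarith)
    linarith
  have hsub : (VV h M (2 * M)).image (fun v => v / m) ⊆ Icc (a / m) (b / m) := by
    intro x hx
    rw [mem_image] at hx
    obtain ⟨v, hv, rfl⟩ := hx
    unfold VV at hv
    rw [mem_Icc] at hv ⊢
    exact ⟨Nat.div_le_div_right hv.1, Nat.div_le_div_right hv.2⟩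
  have h7 : (((VV h M (2 * M)).image (fun v => v / m)).card : ℝ) ≤ ((b / m + 1 - a / m : ℕ) : ℝ) := by
    have := Finset.card_le_card hsub
    rw [Nat.card_Icc] at this
    exact_mod_cast this
  have h8 : a / m ≤ b / m + 1 := (Nat.div_le_div_right hab).trans (Nat.le_succ _)
  rw [Nat.cast_sub h8] at h7
  push_cast at h7
  have h9 : ((b / m : ℕ) : ℝ) ≤ (b : ℝ) / m := Nat.cast_div_le
  have h10 : (a : ℝ) / m - 1 ≤ ((a / m : ℕ) : ℝ) := by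
    have h11 : a < (a / m + 1) * m := by
      have := Nat.lt_div_mul_add (a := a) (b := m) (by omega)
      linarith
    have h12 : (a : ℝ) < ((a / m : ℕ) + 1 : ℝ) * m := by exact_mod_cast h11
    have h13 : (a : ℝ) / m < ((a / m : ℕ) + 1 : ℝ) := by
      rw [div_lt_iff₀ hm0]; exact h12
    linarith
  have h14 : (b : ℝ) / m ≤ (a : ℝ) / m + 2 * (h / m) := by
    rw [← mul_div_assoc, ← add_div]
    exact div_le_div_of_nonneg_right h1 hm0.le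
  linarith

lemma card_JJ {p : Par} {m : ℕ} {hc : ℝ} (hh : 1 ≤ p.h) (h4 : 1 ≤ p.M4) (h2 : 1 ≤ p.M2)
    (hm : 1 ≤ m) (hc1 : 1 ≤ hc) (hhm : p.h / m ≤ 2 * hc) : ((JJ p m).card : ℝ) ≤ 36 * hc ^ 2 := by
  have h1 : ((JJ p m).card : ℝ) ≤
      (((XP.I4 p).image (fun v => v / m)).card : ℝ) * (((I2 p).image (fun v => v / m)).card : ℝ) := by
    have := Finset.card_image_le
      (s := ((XP.I4 p).image (fun v => v / m)) ×ˢ ((I2 p).image (fun v => v / m)))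
      (f := fun q : ℕ × ℕ => Nat.pair q.1 q.2)
    rw [Finset.card_product] at this
    exact_mod_cast this
  have h3 := card_img hh h4 hm hc1 hhm
  have h5 := card_img hh h2 hm hc1 hhm
  calc ((JJ p m).card : ℝ) ≤ _ := h1
    _ ≤ (6 * hc) * (6 * hc) := mul_le_mul h3 h5 (Nat.cast_nonneg _) (by linarith)
    _ = 36 * hc ^ 2 := by ring

/-! ## the first part -/

section first

variable {L N T P B : ℝ}

lemma b1 {a0 : ℝ} {T0 : ℕ} (hL : 1 ≤ L) (hN : 0 < N) (hT : 0 < T) (h0 : (T0 : ℝ) ≤ T / L ^ a0) :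
    T0 * Real.sqrt (N / T / (2 * N * T)) ≤ L ^ (-a0) := by
  have hL0 : 0 < L := by linarith
  have h1 : Real.sqrt (N / T / (2 * N * T)) ≤ 1 / T := by
    refine Real.sqrt_le_iff.2 ⟨by positivity, ?_⟩
    have h2 : N / T / (2 * N * T) = 1 / (2 * T ^ 2) := by field_simp
    rw [h2, div_pow, one_pow]
    refine one_div_le_one_div_of_le (by positivity) ?_
    nlinarith [sq_nonneg T]
  have hp : 0 < L ^ a0 := Real.rpow_pos_of_pos hL0 _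
  calc (T0 : ℝ) * Real.sqrt (N / T / (2 * N * T)) ≤ (T / L ^ a0) * (1 / T) :=
        mul_le_mul h0 h1 (Real.sqrt_nonneg _) (by positivity)
    _ = L ^ (-a0) := by
        rw [Real.rpow_neg hL0.le]
        field_simp

lemma b2 {a0 ch0 : ℝ} {T0 : ℕ} (hL : 1 ≤ L) (hN : 0 < N) (hT : 0 < T) (ha : 0 ≤ a0)
    (h0 : T / L ^ a0 / 2 ≤ (T0 : ℝ)) :
    3 / L ^ ch0 * (2 * N * T / ((T0 : ℝ) ^ 2 * (N / T)) + 1) ≤ 27 * L ^ (2 * a0 - ch0) := by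
  have hL0 : 0 < L := by linarith
  have hp : 0 < L ^ a0 := Real.rpow_pos_of_pos hL0 _
  have hq : 0 < L ^ ch0 := Real.rpow_pos_of_pos hL0 _
  have h00 : 0 < T / L ^ a0 / 2 := by positivity
  have h1 : 2 * N * T / ((T0 : ℝ) ^ 2 * (N / T)) ≤ 8 * (L ^ a0) ^ 2 := by
    have h2 : (T / L ^ a0 / 2) ^ 2 * (N / T) ≤ (T0 : ℝ) ^ 2 * (N / T) :=
      mul_le_mul_of_nonneg_right (pow_le_pow_left₀ h00.le h0 2) (by positivity)
    calc 2 * N * T / ((T0 : ℝ) ^ 2 * (N / T)) ≤ 2 * N * T / ((T / L ^ a0 / 2) ^ 2 * (N / T)) :=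
          div_le_div_of_nonneg_left (by positivity) (by positivity) h2
      _ = 8 * (L ^ a0) ^ 2 := by field_simp; ring
  have h3 : 1 ≤ (L ^ a0) ^ 2 := one_le_pow₀ (Real.one_le_rpow hL ha)
  have h4 : L ^ (2 * a0 - ch0) = (L ^ a0) ^ 2 / L ^ ch0 := by
    rw [Real.rpow_sub hL0, ← Real.rpow_natCast, ← Real.rpow_mul hL0.le]
    congr 2
    push_cast; ring
  rw [h4]
  calc 3 / L ^ ch0 * (2 * N * T / ((T0 : ℝ) ^ 2 * (N / T)) + 1)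
      ≤ 3 / L ^ ch0 * (9 * (L ^ a0) ^ 2) :=
        mul_le_mul_of_nonneg_left (by linarith) (by positivity)
    _ = 27 * ((L ^ a0) ^ 2 / L ^ ch0) := by ring

lemma b3 {D : ℝ} (hN : 0 < N) (hT : 0 < T) (hB : B ^ 2 ≤ 2 * N) (hD : 1 / N ≤ D) :
    B ^ 2 / (N / T * (2 * N * T)) ≤ D := by
  have h1 : N / T * (2 * N * T) = 2 * N * N := by field_simp
  rw [h1]
  calc B ^ 2 / (2 * N * N) ≤ (2 * N) / (2 * N * N) := div_le_div_of_nonneg_right hB (by positivity)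
    _ = 1 / N := by field_simp
    _ ≤ D := hD

lemma b5 {cB D : ℝ} (hL : 1 ≤ L) (hB : L ^ cB ≤ B) (hD : L ^ (-cB) ≤ D) : 1 / B ≤ D := by
  have hL0 : 0 < L := by linarith
  have hp : 0 < L ^ cB := Real.rpow_pos_of_pos hL0 _
  calc 1 / B ≤ 1 / L ^ cB := one_div_le_one_div_of_le hp hB
    _ = L ^ (-cB) := by rw [Real.rpow_neg hL0.le, one_div]
    _ ≤ D := hD

lemma tau_sq {c : ℝ} (hP : 1 ≤ P) : (P ^ (1 - c / 8)) ^ 2 = P ^ 2 * P ^ (-(c / 4)) := by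
  have hP0 : 0 < P := by linarith
  rw [← Real.rpow_natCast, ← Real.rpow_mul hP0.le, ← Real.rpow_natCast P 2, ← Real.rpow_add hP0]
  congr 1
  push_cast
  ring

lemma b6 {c cB cP n q : ℝ} {T1 : ℕ} (hL : 1 ≤ L) (hN : 0 < N) (hT : 0 < T) (hP : 1 ≤ P)
    (hc : 0 ≤ c) (hB0 : 0 < B) (hT1 : (T1 : ℝ) ≤ 5 * T) (hB : T * P * L ^ cB ≤ B)
    (hPL : L ^ cP ≤ P) (hq0 : 0 ≤ q) (hq : q ≤ L ^ n) :
    q ^ 2 * ((P ^ (1 - c / 8)) ^ 2 * (T1 * (2 * N * T / P) / (B * (2 * N * T)) +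
      (2 * N * T / P / (2 * N * T)) ^ 2)) ≤ 5 * L ^ (2 * n - cB) + L ^ (2 * n - cP * (c / 4)) := by
  have hL0 : 0 < L := by linarith
  have hP0 : 0 < P := by linarith
  rw [tau_sq hP]
  have h1 : P ^ (-(c / 4)) ≤ 1 := Real.rpow_le_one_of_one_le_of_nonpos hP (by linarith)
  have h1' : 0 < P ^ (-(c / 4)) := Real.rpow_pos_of_pos hP0 _
  have hqq : q ^ 2 ≤ L ^ (2 * n) := by
    calc q ^ 2 ≤ (L ^ n) ^ 2 := pow_le_pow_left₀ hq0 hq 2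
      _ = L ^ (2 * n) := by
          rw [← Real.rpow_natCast, ← Real.rpow_mul hL0.le]
          congr 1; push_cast; ring
  have e1 : P ^ 2 * P ^ (-(c / 4)) * (T1 * (2 * N * T / P) / (B * (2 * N * T)) +
      (2 * N * T / P / (2 * N * T)) ^ 2) = P ^ (-(c / 4)) * (P * T1 / B) + P ^ (-(c / 4)) := by
    field_simp
  rw [e1]
  have hcB : 0 < L ^ cB := Real.rpow_pos_of_pos hL0 _
  have h2 : P * T1 / B ≤ 5 * L ^ (-cB) := by
    rw [Real.rpow_neg hL0.le, div_le_iff₀ hB0]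
    have h3 : P * T1 ≤ P * (5 * T) := mul_le_mul_of_nonneg_left hT1 hP0.le
    have h4 : P * (5 * T) = 5 * (L ^ cB)⁻¹ * (T * P * L ^ cB) := by field_simp
    calc P * T1 ≤ 5 * (L ^ cB)⁻¹ * (T * P * L ^ cB) := by rw [← h4]; exact h3
      _ ≤ 5 * (L ^ cB)⁻¹ * B := mul_le_mul_of_nonneg_left hB (by positivity)
  have h5 : P ^ (-(c / 4)) ≤ L ^ (-(cP * (c / 4))) := by
    have h6 : 0 < L ^ cP := Real.rpow_pos_of_pos hL0 _
    calc P ^ (-(c / 4)) ≤ (L ^ cP) ^ (-(c / 4)) :=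
          Real.rpow_le_rpow_of_nonpos h6 hPL (by linarith)
      _ = L ^ (-(cP * (c / 4))) := by
          rw [← Real.rpow_mul hL0.le]; congr 1; ring
  have h7 : P ^ (-(c / 4)) * (P * T1 / B) ≤ 1 * (5 * L ^ (-cB)) :=
    mul_le_mul h1 h2 (by positivity) (by norm_num)
  have h8 : 0 < L ^ (2 * n) := Real.rpow_pos_of_pos hL0 _
  calc q ^ 2 * (P ^ (-(c / 4)) * (P * T1 / B) + P ^ (-(c / 4)))
      ≤ L ^ (2 * n) * (1 * (5 * L ^ (-cB)) + L ^ (-(cP * (c / 4)))) :=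
        mul_le_mul hqq (add_le_add h7 h5) (by positivity) h8.le
    _ = 5 * (L ^ (2 * n) * L ^ (-cB)) + L ^ (2 * n) * L ^ (-(cP * (c / 4))) := by ring
    _ = 5 * L ^ (2 * n - cB) + L ^ (2 * n - cP * (c / 4)) := by
        rw [← Real.rpow_add hL0, ← Real.rpow_add hL0]
        rfl

lemma b7 {a0 aF n q : ℝ} {T0 Km : ℕ} (hL : 1 ≤ L) (hN : 0 < N) (hT : 0 < T) (ha : 0 ≤ a0)
    (hB0 : 0 < B) (hTB : T ≤ B) (hKm : L ^ aF * (N / B) / 2 ≤ Km)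
    (h0 : T / L ^ a0 / 2 ≤ (T0 : ℝ)) (hq0 : 0 ≤ q) (hq : q ≤ L ^ n) :
    q ^ 2 * (2 * N * T / (B * Km) * (1 / B + 1 / T0)) ≤ 12 * L ^ (2 * n + a0 - aF) := by
  have hL0 : 0 < L := by linarith
  have hp : 0 < L ^ a0 := Real.rpow_pos_of_pos hL0 _
  have hf : 0 < L ^ aF := Real.rpow_pos_of_pos hL0 _
  have hqq : q ^ 2 ≤ L ^ (2 * n) := by
    calc q ^ 2 ≤ (L ^ n) ^ 2 := pow_le_pow_left₀ hq0 hq 2
      _ = L ^ (2 * n) := by
          rw [← Real.rpow_natCast, ← Real.rpow_mul hL0.le]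
          congr 1; push_cast; ring
  have hKm0 : 0 < L ^ aF * (N / B) / 2 := by positivity
  have hK : (0 : ℝ) < Km := by linarith
  have h00 : 0 < T / L ^ a0 / 2 := by positivity
  have hT0 : (0 : ℝ) < T0 := by linarith
  have h1 : 2 * N * T / (B * Km) ≤ 4 * T / L ^ aF := by
    rw [div_le_div_iff₀ (by positivity) hf]
    have h2 : B * (L ^ aF * (N / B) / 2) ≤ B * Km := mul_le_mul_of_nonneg_left hKm hB0.le
    have h3 : B * (L ^ aF * (N / B) / 2) = L ^ aF * N / 2 := by field_simp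
    rw [h3] at h2
    calc 2 * N * T * L ^ aF = 4 * T * (L ^ aF * N / 2) := by ring
      _ ≤ 4 * T * (B * Km) := mul_le_mul_of_nonneg_left h2 (by positivity)
  have h4 : T * (1 / B + 1 / T0) ≤ 3 * L ^ a0 := by
    have h5 : T * (1 / B) ≤ 1 := by
      rw [mul_one_div, div_le_one hB0]; exact hTB
    have h6 : T * (1 / T0) ≤ 2 * L ^ a0 := by
      rw [mul_one_div, div_le_iff₀ hT0]
      calc T = 2 * L ^ a0 * (T / L ^ a0 / 2) := by field_simp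
        _ ≤ 2 * L ^ a0 * T0 := mul_le_mul_of_nonneg_left h0 (by positivity)
    have h7 : 1 ≤ L ^ a0 := Real.one_le_rpow hL ha
    calc T * (1 / B + 1 / T0) = T * (1 / B) + T * (1 / T0) := by ring
      _ ≤ 3 * L ^ a0 := by linarith
  have h8 : 0 < L ^ (2 * n) := Real.rpow_pos_of_pos hL0 _
  have h9 : 2 * N * T / (B * Km) * (1 / B + 1 / T0) ≤ 12 * L ^ a0 / L ^ aF := by
    calc 2 * N * T / (B * Km) * (1 / B + 1 / T0) ≤ 4 * T / L ^ aF * (1 / B + 1 / T0) :=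
          mul_le_mul_of_nonneg_right h1 (by positivity)
      _ = 4 / L ^ aF * (T * (1 / B + 1 / T0)) := by ring
      _ ≤ 4 / L ^ aF * (3 * L ^ a0) := mul_le_mul_of_nonneg_left h4 (by positivity)
      _ = _ := by ring
  calc q ^ 2 * (2 * N * T / (B * Km) * (1 / B + 1 / T0)) ≤ L ^ (2 * n) * (12 * L ^ a0 / L ^ aF) :=
        mul_le_mul hqq h9 (by positivity) h8.le
    _ = 12 * (L ^ (2 * n) * L ^ a0 / L ^ aF) := by ring
    _ = 12 * L ^ (2 * n + a0 - aF) := by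
        rw [← Real.rpow_add hL0, ← Real.rpow_sub hL0]

end first

/-! ## the second part -/

lemma phi_bound (hPHI : XV.SpecPHI) {t : ℕ} {L : ℝ} (ht : 1 ≤ t) (hL : 1 + 2 * Real.log t ≤ L) :
    (t : ℝ) / ph t ≤ L ^ 2 / t := by
  have h1 := (hPHI t ht).2.1
  have ht0 : (0 : ℝ) < t := by exact_mod_cast ht
  have hlt : 0 ≤ Real.log t := Real.log_nonneg (by exact_mod_cast ht)
  have h2 : 0 < 1 + 2 * Real.log t := by linarith
  have h3 : (t : ℝ) ^ 2 / L ^ 2 ≤ ph t := by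
    refine le_trans ?_ h1
    refine div_le_div_of_nonneg_left (by positivity) (by positivity) ?_
    exact pow_le_pow_left₀ h2.le hL 2
  have hL0 : 0 < L := by linarith
  have h4 : 0 < (t : ℝ) ^ 2 / L ^ 2 := by positivity
  calc (t : ℝ) / ph t ≤ t / ((t : ℝ) ^ 2 / L ^ 2) := div_le_div_of_nonneg_left ht0.le h4 h3
    _ = L ^ 2 / t := by field_simp

lemma harm (T1 : ℕ) : ∑ t ∈ Icc 1 T1, 1 / (t : ℝ) ≤ 1 + Real.log T1 := by
  have h1 := harmonic_le_one_add_log T1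
  have h2 : ((harmonic T1 : ℚ) : ℝ) = ∑ n ∈ Icc 1 T1, 1 / (n : ℝ) := by
    rw [harmonic_eq_sum_Icc]
    push_cast
    simp
  rw [← h2]
  exact h1

lemma sum_t {T0 T1 : ℕ} {r S e : ℕ → ℝ} {D1 D2 q L EE : ℝ} (hD1 : 0 ≤ D1) (hD2 : 0 ≤ D2)
    (hq : 0 ≤ q) (he : ∀ t, 0 ≤ e t)
    (hr : ∀ t ∈ Ioc T0 T1, 0 ≤ r t ∧ r t ≤ L ^ 2 / t)
    (hS : ∀ t ∈ Ioc T0 T1, S t ≤ q * (D1 * e t + D2))
    (hEE : ∑ t ∈ Icc 1 T1, e t / (t : ℝ) ≤ EE) (hT : 1 + Real.log T1 ≤ L) :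
    ∑ t ∈ Ioc T0 T1, r t * S t ≤ q * L ^ 2 * (D1 * EE + D2 * L) := by
  have h1 : ∀ t ∈ Ioc T0 T1, r t * S t ≤ q * L ^ 2 * (D1 * (e t / t) + D2 * (1 / t)) := by
    intro t ht
    have h2 : 0 ≤ q * (D1 * e t + D2) := by
      have := mul_nonneg hD1 (he t)
      positivity
    calc r t * S t ≤ r t * (q * (D1 * e t + D2)) := mul_le_mul_of_nonneg_left (hS t ht) (hr t ht).1
      _ ≤ L ^ 2 / t * (q * (D1 * e t + D2)) := mul_le_mul_of_nonneg_right (hr t ht).2 h2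
      _ = _ := by ring
  refine (Finset.sum_le_sum h1).trans ?_
  rw [← Finset.mul_sum]
  refine mul_le_mul_of_nonneg_left ?_ (by positivity)
  have h3 : ∑ t ∈ Ioc T0 T1, (D1 * (e t / t) + D2 * (1 / t)) ≤
      ∑ t ∈ Icc 1 T1, (D1 * (e t / (t : ℝ)) + D2 * (1 / (t : ℝ))) := by
    refine Finset.sum_le_sum_of_subset_of_nonneg ?_ (fun t _ _ => ?_)
    · intro t ht
      rw [mem_Ioc] at ht
      rw [mem_Icc]
      omega
    · have := he t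
      positivity
  refine h3.trans ?_
  rw [Finset.sum_add_distrib, ← Finset.mul_sum, ← Finset.mul_sum]
  exact add_le_add (mul_le_mul_of_nonneg_left hEE hD1)
    (mul_le_mul_of_nonneg_left ((harm T1).trans hT) hD2)

lemma d2_bound {L N T P M c cw aU cP A₁ s : ℝ} (hL : 1 ≤ L) (hN : 1 ≤ N) (hT : 1 ≤ T) (hP : 1 ≤ P)
    (hM : 0 < M) (hc : 0 ≤ c) (haU : 0 ≤ aU) (hPL : P ≤ L ^ (2 * cP)) (h1 : s + aU + 4 ≤ 2 * cw)
    (h2 : s ≤ 2 * A₁) (h3 : L ^ (4 * cP + aU + s) ≤ N ^ (7 * c)) :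
    (18 * P) ^ 2 * ((80 * L ^ 2 * (2 * N * T / P) / L ^ cw + N ^ (1 - 4 * c)) ^ 2 * L ^ aU +
      (32 * (M * L ^ (-A₁)) ^ 2) * (200 * (N * T / (16 * P * M)) ^ 2) +
      N ^ c * (2 * (N ^ (1 - 4 * c)) ^ 2)) ≤ 10000000 * (2 * N * T) ^ 2 * L ^ (-s) := by
  have hL0 : 0 < L := by linarith
  have hN0 : 0 < N := by linarith
  have hP0 : 0 < P := by linarith
  have hT0 : 0 < T := by linarith
  have hU0 : 0 < L ^ aU := Real.rpow_pos_of_pos hL0 _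
  have hU1 : 1 ≤ L ^ aU := Real.one_le_rpow hL haU
  have hw0 : 0 < L ^ cw := Real.rpow_pos_of_pos hL0 _
  have hs0 : 0 < L ^ (-s) := Real.rpow_pos_of_pos hL0 _
  set Y : ℝ := 2 * N * T with hY
  have hY0 : 0 < Y := by positivity
  set e : ℝ := N ^ (1 - 4 * c) with he
  have he0 : 0 < e := Real.rpow_pos_of_pos hN0 _
  have hNc1 : 1 ≤ N ^ c := Real.one_le_rpow hN hc
  -- powers of N
  have hee : N ^ c * e ^ 2 = N ^ 2 * (N ^ (7 * c))⁻¹ := by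
    rw [he, ← Real.rpow_natCast (N ^ (1 - 4 * c)), ← Real.rpow_mul hN0.le, ← Real.rpow_add hN0,
      ← Real.rpow_neg hN0.le, ← Real.rpow_natCast N 2, ← Real.rpow_add hN0]
    congr 1
    push_cast
    ring
  have hPP : P ^ 2 ≤ L ^ (4 * cP) := by
    calc P ^ 2 ≤ (L ^ (2 * cP)) ^ 2 := pow_le_pow_left₀ hP0.le hPL 2
      _ = L ^ (4 * cP) := by
          rw [← Real.rpow_natCast, ← Real.rpow_mul hL0.le]
          congr 1; push_cast; ring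
  have hsmall : P ^ 2 * (N ^ c * e ^ 2) * L ^ aU ≤ Y ^ 2 * L ^ (-s) := by
    rw [hee]
    have h4 : L ^ (4 * cP + aU) * (N ^ (7 * c))⁻¹ ≤ L ^ (-s) := by
      have h5 : 0 < N ^ (7 * c) := Real.rpow_pos_of_pos hN0 _
      rw [← div_eq_mul_inv, div_le_iff₀ h5]
      calc L ^ (4 * cP + aU) = L ^ (-s) * L ^ (4 * cP + aU + s) := by
            rw [← Real.rpow_add hL0]; congr 1; ring
        _ ≤ L ^ (-s) * N ^ (7 * c) := mul_le_mul_of_nonneg_left h3 hs0.le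
    have h6 : N ^ 2 ≤ Y ^ 2 := by
      refine pow_le_pow_left₀ hN0.le ?_ 2
      rw [hY]; nlinarith
    have h7 : 0 < (N ^ (7 * c))⁻¹ := inv_pos.2 (Real.rpow_pos_of_pos hN0 _)
    calc P ^ 2 * (N ^ 2 * (N ^ (7 * c))⁻¹) * L ^ aU
        ≤ L ^ (4 * cP) * (N ^ 2 * (N ^ (7 * c))⁻¹) * L ^ aU := by
          refine mul_le_mul_of_nonneg_right ?_ hU0.le
          exact mul_le_mul_of_nonneg_right hPP (by positivity)
      _ = N ^ 2 * ((L ^ (4 * cP) * L ^ aU) * (N ^ (7 * c))⁻¹) := by ring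
      _ = N ^ 2 * (L ^ (4 * cP + aU) * (N ^ (7 * c))⁻¹) := by rw [← Real.rpow_add hL0]
      _ ≤ Y ^ 2 * L ^ (-s) := mul_le_mul h6 h4 (by positivity) (by positivity)
  -- (i)
  have hi1 : P ^ 2 * (80 * L ^ 2 * (Y / P) / L ^ cw) ^ 2 * L ^ aU ≤ 6400 * (Y ^ 2 * L ^ (-s)) := by
    have h4 : P ^ 2 * (80 * L ^ 2 * (Y / P) / L ^ cw) ^ 2 * L ^ aU
        = 6400 * Y ^ 2 * (L ^ (4 : ℝ) * L ^ aU * (L ^ cw)⁻¹ ^ 2) := by
      have : L ^ (4 : ℝ) = L ^ 4 := by norm_cast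
      rw [this]
      field_simp
      ring
    rw [h4]
    have h5 : L ^ (4 : ℝ) * L ^ aU * (L ^ cw)⁻¹ ^ 2 ≤ L ^ (-s) := by
      rw [← Real.rpow_neg hL0.le, ← Real.rpow_natCast, ← Real.rpow_mul hL0.le, ← Real.rpow_add hL0,
        ← Real.rpow_add hL0]
      refine Real.rpow_le_rpow_of_exponent_le hL ?_
      push_cast
      linarith
    calc 6400 * Y ^ 2 * (L ^ (4 : ℝ) * L ^ aU * (L ^ cw)⁻¹ ^ 2) ≤ 6400 * Y ^ 2 * L ^ (-s) :=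
          mul_le_mul_of_nonneg_left h5 (by positivity)
      _ = _ := by ring
  have hi2 : P ^ 2 * e ^ 2 * L ^ aU ≤ Y ^ 2 * L ^ (-s) := by
    refine le_trans ?_ hsmall
    refine mul_le_mul_of_nonneg_right ?_ hU0.le
    refine mul_le_mul_of_nonneg_left ?_ (by positivity)
    calc e ^ 2 = 1 * e ^ 2 := (one_mul _).symm
      _ ≤ N ^ c * e ^ 2 := mul_le_mul_of_nonneg_right hNc1 (by positivity)
  have hi : P ^ 2 * ((80 * L ^ 2 * (Y / P) / L ^ cw + e) ^ 2 * L ^ aU) ≤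
      12802 * (Y ^ 2 * L ^ (-s)) := by
    have h4 : (80 * L ^ 2 * (Y / P) / L ^ cw + e) ^ 2 ≤
        2 * (80 * L ^ 2 * (Y / P) / L ^ cw) ^ 2 + 2 * e ^ 2 := by
      nlinarith [sq_nonneg (80 * L ^ 2 * (Y / P) / L ^ cw - e)]
    calc P ^ 2 * ((80 * L ^ 2 * (Y / P) / L ^ cw + e) ^ 2 * L ^ aU)
        ≤ P ^ 2 * ((2 * (80 * L ^ 2 * (Y / P) / L ^ cw) ^ 2 + 2 * e ^ 2) * L ^ aU) := by
          refine mul_le_mul_of_nonneg_left ?_ (by positivity)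
          exact mul_le_mul_of_nonneg_right h4 hU0.le
      _ = 2 * (P ^ 2 * (80 * L ^ 2 * (Y / P) / L ^ cw) ^ 2 * L ^ aU) +
          2 * (P ^ 2 * e ^ 2 * L ^ aU) := by ring
      _ ≤ 2 * (6400 * (Y ^ 2 * L ^ (-s))) + 2 * (Y ^ 2 * L ^ (-s)) := by linarith
      _ = _ := by ring
  -- (iii)
  have hiii : P ^ 2 * ((32 * (M * L ^ (-A₁)) ^ 2) * (200 * (N * T / (16 * P * M)) ^ 2)) ≤
      7 * (Y ^ 2 * L ^ (-s)) := by
    have h4 : P ^ 2 * ((32 * (M * L ^ (-A₁)) ^ 2) * (200 * (N * T / (16 * P * M)) ^ 2))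
        = 6400 / 1024 * Y ^ 2 * (L ^ (-A₁)) ^ 2 := by
      rw [hY]
      field_simp
      ring
    rw [h4]
    have h5 : (L ^ (-A₁)) ^ 2 ≤ L ^ (-s) := by
      rw [← Real.rpow_natCast, ← Real.rpow_mul hL0.le]
      refine Real.rpow_le_rpow_of_exponent_le hL ?_
      push_cast
      linarith
    have h6 : 6400 / 1024 * Y ^ 2 * (L ^ (-A₁)) ^ 2 ≤ 6400 / 1024 * Y ^ 2 * L ^ (-s) :=
      mul_le_mul_of_nonneg_left h5 (by positivity)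
    have h7 : 0 ≤ Y ^ 2 * L ^ (-s) := by positivity
    linarith
  -- (iv)
  have hiv : P ^ 2 * (N ^ c * (2 * e ^ 2)) ≤ 2 * (Y ^ 2 * L ^ (-s)) := by
    have h4 : P ^ 2 * (N ^ c * e ^ 2) ≤ P ^ 2 * (N ^ c * e ^ 2) * L ^ aU := by
      have h5 : 0 ≤ P ^ 2 * (N ^ c * e ^ 2) := by positivity
      nlinarith
    calc P ^ 2 * (N ^ c * (2 * e ^ 2)) = 2 * (P ^ 2 * (N ^ c * e ^ 2)) := by ring
      _ ≤ _ := by linarith
  have h7 : 0 ≤ Y ^ 2 * L ^ (-s) := by positivity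
  calc (18 * P) ^ 2 * ((80 * L ^ 2 * (Y / P) / L ^ cw + e) ^ 2 * L ^ aU +
      (32 * (M * L ^ (-A₁)) ^ 2) * (200 * (N * T / (16 * P * M)) ^ 2) + N ^ c * (2 * e ^ 2))
      = 324 * (P ^ 2 * ((80 * L ^ 2 * (Y / P) / L ^ cw + e) ^ 2 * L ^ aU)) +
        324 * (P ^ 2 * ((32 * (M * L ^ (-A₁)) ^ 2) * (200 * (N * T / (16 * P * M)) ^ 2))) +
        324 * (P ^ 2 * (N ^ c * (2 * e ^ 2))) := by ring
    _ ≤ 324 * (12802 * (Y ^ 2 * L ^ (-s))) + 324 * (7 * (Y ^ 2 * L ^ (-s))) +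
        324 * (2 * (Y ^ 2 * L ^ (-s))) := by linarith
    _ ≤ 10000000 * Y ^ 2 * L ^ (-s) := by linarith

lemma ev_pow (a c δ : ℝ) (hc : 0 < c) (hδ : 0 < δ) :
    ∀ᶠ N : ℝ in atTop, Real.log N ^ a ≤ δ * N ^ c := by
  have h := (isLittleO_log_rpow_rpow_atTop a hc).def hδ
  filter_upwards [h, eventually_ge_atTop 1] with N hN hN1
  rw [Real.norm_eq_abs, Real.norm_eq_abs, abs_of_nonneg (Real.rpow_nonneg (Real.log_nonneg hN1) _),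
    abs_of_nonneg (Real.rpow_nonneg (by linarith) _)] at hN
  exact hN

/-- the last computation -/
lemma combine {C L A B N T nIJ s q Z Br EE D1 D2 St : ℝ} (hC : 0 < C) (hL : 24000000 * C + 1000 ≤ L)
    (hB : 0 < B) (hN : 0 < N) (hT : 0 < T) (hZ0 : 0 ≤ Z) (hZ : Z ≤ 3 * L) (hBr : Br ≤ 100 * L ^ (-(A + 9)))
    (hq0 : 0 ≤ q) (hq : q ≤ L ^ nIJ) (hs : s = A + 2 * nIJ + 6)
    (hD1 : D1 = 26244 * L ^ 2 * (2 * N * T) ^ 2) (hEE : EE ≤ L ^ (-1 - s))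
    (hD2 : D2 ≤ 10000000 * (2 * N * T) ^ 2 * L ^ (-s))
    (hSt : St ≤ q * L ^ 2 * (D1 * EE + D2 * L)) :
    C * L ^ 2 * Z ^ 5 * (B * (2 * N * T)) * Br + C * q * (B / (2 * N * T)) * St ≤
      L ^ (-A) * (B * (N / T) * T ^ 2) := by
  have hL1 : 1 ≤ L := by linarith
  have hL0 : 0 < L := by linarith
  set Y : ℝ := 2 * N * T with hY
  have hY0 : 0 < Y := by positivity
  have hA0 : 0 < L ^ (-A) := Real.rpow_pos_of_pos hL0 _
  have e9 : L ^ (-(A + 9)) = L ^ (-A) * (L ^ 9)⁻¹ := by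
    rw [← Real.rpow_natCast L 9, ← Real.rpow_neg hL0.le, ← Real.rpow_add hL0]
    congr 1; push_cast; ring
  -- first part
  have h1 : C * L ^ 2 * Z ^ 5 * (B * Y) * Br ≤ 24300 * C * (B * Y) * (L ^ (-A) * (L ^ 2)⁻¹) := by
    have h2 : Z ^ 5 ≤ (3 * L) ^ 5 := pow_le_pow_left₀ hZ0 hZ 5
    have h3 : C * L ^ 2 * Z ^ 5 * (B * Y) ≤ C * L ^ 2 * (3 * L) ^ 5 * (B * Y) := by
      refine mul_le_mul_of_nonneg_right ?_ (by positivity)
      exact mul_le_mul_of_nonneg_left h2 (by positivity)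
    calc C * L ^ 2 * Z ^ 5 * (B * Y) * Br
        ≤ C * L ^ 2 * Z ^ 5 * (B * Y) * (100 * L ^ (-(A + 9))) :=
          mul_le_mul_of_nonneg_left hBr (by positivity)
      _ ≤ C * L ^ 2 * (3 * L) ^ 5 * (B * Y) * (100 * L ^ (-(A + 9))) := by
          refine mul_le_mul_of_nonneg_right h3 ?_
          rw [e9]; positivity
      _ = 24300 * C * (B * Y) * (L ^ (-A) * (L ^ 2)⁻¹) := by
          rw [e9]
          field_simp
          ring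
  -- second part
  have hqq : q ^ 2 ≤ L ^ (2 * nIJ) := by
    calc q ^ 2 ≤ (L ^ nIJ) ^ 2 := pow_le_pow_left₀ hq0 hq 2
      _ = L ^ (2 * nIJ) := by
          rw [← Real.rpow_natCast, ← Real.rpow_mul hL0.le]
          congr 1; push_cast; ring
  have hs0 : 0 < L ^ (-s) := Real.rpow_pos_of_pos hL0 _
  have hD10 : 0 ≤ D1 := by rw [hD1]; positivity
  have h4 : D1 * EE + D2 * L ≤ 10030000 * Y ^ 2 * (L ^ (-s) * L) := by
    have h5 : D1 * EE ≤ 26244 * Y ^ 2 * (L ^ (-s) * L) := by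
      have h6 : L ^ (-1 - s) = L ^ (-s) * L⁻¹ := by
        rw [← Real.rpow_neg_one L, ← Real.rpow_add hL0]; congr 1; ring
      rw [h6] at hEE
      calc D1 * EE ≤ D1 * (L ^ (-s) * L⁻¹) := mul_le_mul_of_nonneg_left hEE hD10
        _ = 26244 * Y ^ 2 * (L ^ (-s) * L) := by
            rw [hD1]; field_simp
    have h7 : D2 * L ≤ 10000000 * Y ^ 2 * (L ^ (-s) * L) := by
      calc D2 * L ≤ (10000000 * Y ^ 2 * L ^ (-s)) * L := mul_le_mul_of_nonneg_right hD2 hL0.le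
        _ = _ := by ring
    have h8 : 0 ≤ Y ^ 2 * (L ^ (-s) * L) := by positivity
    linarith
  have h9 : C * q * (B / Y) * St ≤ 10030000 * C * (B * Y) * (L ^ (-A) * (L ^ 3)⁻¹) := by
    have h10 : L ^ (2 * nIJ) * (L ^ 2 * (L ^ (-s) * L)) = L ^ (-A) * (L ^ 3)⁻¹ := by
      have e1 : L ^ 2 * (L ^ (-s) * L) = L ^ (3 - s) := by
        rw [← Real.rpow_natCast L 2, mul_comm (L ^ (-s)) L]
        nth_rewrite 2 [← Real.rpow_one L]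
        rw [← Real.rpow_add hL0, ← Real.rpow_add hL0]
        congr 1; push_cast; ring
      rw [e1, ← Real.rpow_natCast L 3, ← Real.rpow_neg hL0.le, ← Real.rpow_add hL0,
        ← Real.rpow_add hL0]
      congr 1
      rw [hs]; push_cast; ring
    have h11 : 0 ≤ L ^ 2 * (10030000 * Y ^ 2 * (L ^ (-s) * L)) := by positivity
    calc C * q * (B / Y) * St ≤ C * q * (B / Y) * (q * L ^ 2 * (D1 * EE + D2 * L)) :=
          mul_le_mul_of_nonneg_left hSt (by positivity)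
      _ ≤ C * q * (B / Y) * (q * L ^ 2 * (10030000 * Y ^ 2 * (L ^ (-s) * L))) := by
          refine mul_le_mul_of_nonneg_left ?_ (by positivity)
          exact mul_le_mul_of_nonneg_left h4 (by positivity)
      _ = C * (B / Y) * (q ^ 2 * (L ^ 2 * (10030000 * Y ^ 2 * (L ^ (-s) * L)))) := by ring
      _ ≤ C * (B / Y) * (L ^ (2 * nIJ) * (L ^ 2 * (10030000 * Y ^ 2 * (L ^ (-s) * L)))) := by
          refine mul_le_mul_of_nonneg_left ?_ (by positivity)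
          exact mul_le_mul_of_nonneg_right hqq h11
      _ = 10030000 * C * (B / Y * Y ^ 2) * (L ^ (2 * nIJ) * (L ^ 2 * (L ^ (-s) * L))) := by ring
      _ = 10030000 * C * (B * Y) * (L ^ (-A) * (L ^ 3)⁻¹) := by
          rw [h10]
          have : B / Y * Y ^ 2 = B * Y := by field_simp
          rw [this]
  have h12 : (L ^ 3)⁻¹ ≤ (L ^ 2)⁻¹ := by
    refine inv_anti₀ (by positivity) ?_
    exact pow_le_pow_right₀ hL1 (by norm_num)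
  have h13 : 10030000 * C * (B * Y) * (L ^ (-A) * (L ^ 3)⁻¹) ≤
      10030000 * C * (B * Y) * (L ^ (-A) * (L ^ 2)⁻¹) := by
    refine mul_le_mul_of_nonneg_left ?_ (by positivity)
    exact mul_le_mul_of_nonneg_left h12 hA0.le
  have h14 : 12000000 * C * (B * Y) * (L ^ (-A) * (L ^ 2)⁻¹) ≤ L ^ (-A) * (B * (N / T) * T ^ 2) := by
    have e2 : B * (N / T) * T ^ 2 = B * Y / 2 := by rw [hY]; field_simp
    rw [e2]
    have h15 : 24000000 * C * (L ^ 2)⁻¹ ≤ 1 := by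
      rw [← div_eq_mul_inv, div_le_one (by positivity)]
      nlinarith
    have h16 : 0 ≤ L ^ (-A) * (B * Y / 2) := by positivity
    calc 12000000 * C * (B * Y) * (L ^ (-A) * (L ^ 2)⁻¹)
        = (24000000 * C * (L ^ 2)⁻¹) * (L ^ (-A) * (B * Y / 2)) := by ring
      _ ≤ 1 * (L ^ (-A) * (B * Y / 2)) := mul_le_mul_of_nonneg_right h15 h16
      _ = _ := one_mul _
  have h17 : 0 ≤ C * (B * Y) * (L ^ (-A) * (L ^ 2)⁻¹) := by positivity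
  linarith

/-! ## one modulus -/

lemma unpair_mem {p : Par} {m j : ℕ} (hj : j ∈ JJ p m) :
    (Nat.unpair j).1 ∈ (I4 p).image (fun v => v / m) := by
  unfold JJ at hj
  rw [mem_image] at hj
  obtain ⟨⟨a, b⟩, hab, rfl⟩ := hj
  rw [Nat.unpair_pair]
  exact (mem_product.1 hab).1

open scoped Classical in
lemma one_t (hB : SpecBRG) {p : Par} {U : Finset Ix} {m Km t : ℕ} {P₀ hc τ l Y4 H2 e n : ℝ}
    {E : Finset (MulChar (Cls.RR (md t)) ℂ × ℤ)}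
    (ht : 1 ≤ t) (hP₀ : 0 ≤ P₀) (hl : 0 ≤ l)
    (hinv : ∀ j z, HJ p U m j (⟨0, 1⟩ * z) = HJ p U m j z)
    (hsup : ∀ j ∈ JJ p m, ∀ z, ‖HJ p U m j z‖ ≤ l)
    (hE : ∀ q : MulChar (Cls.RR (md t)) ℂ × ℤ, q.1 ∈ chs t → q.2 ∈ IK Km →
      psi (ixq t q) ⟨0, 1⟩ = 1 →
      q ∈ E ∨ (∃ u ∈ U, q.2 = u.2.2 ∧ ∀ z, fn t q.1 z ≠ 0 → u.2.1 z = fn t q.1 z) ∨
        ((∀ u ∈ U, Dist (fn t q.1) u.2.1 q.2 u.2.2) ∧
          ∀ a ∈ (I4 p).image (fun v => v / m), ‖G4 p m (ixq t q) a‖ ≤ Y4))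
    (hTA : ∀ q : MulChar (Cls.RR (md t)) ℂ × ℤ, ∀ j,
      (∃ u ∈ U, q.2 = u.2.2 ∧ ∀ z, fn t q.1 z ≠ 0 → u.2.1 z = fn t q.1 z) →
      ‖∑ z ∈ SJ p m j, HJ p U m j z * psi (ixq t q) z‖ ≤ H2)
    (hTS : ∀ q : MulChar (Cls.RR (md t)) ℂ × ℤ, q.2 ∈ IK Km → ∀ j, psi (ixq t q) ⟨0, 1⟩ = 1 →
      (∀ u ∈ U, Dist (fn t q.1) u.2.1 q.2 u.2.2) →
      ‖∑ z ∈ SJ p m j, HJ p U m j z * psi (ixq t q) z‖ ≤
        4 * ‖G4 p m (ixq t q) (Nat.unpair j).1‖ * ‖G2 p m (ixq t q) (Nat.unpair j).2‖ + e)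
    (hG2 : ∀ (W : Finset (MulChar (Cls.RR (md t)) ℂ × ℤ)) (b : ℕ), (∀ q ∈ W, q.2 ∈ IK Km) →
      (W.card : ℝ) ≤ n → ∑ q ∈ W, ‖G2 p m (ixq t q) b‖ ^ 2 ≤ 200 * p.M2 ^ 2)
    (hat' : ∀ i, ((atyp t Km τ (cell hc P₀ (2 * P₀) i)).card : ℝ) ≤ n) (hM : 0 ≤ MM' p) :
    ∑ i ∈ VV hc P₀ (2 * P₀), ∑ j ∈ JJ p m, ∑ q ∈ atyp t Km τ (cell hc P₀ (2 * P₀) i),
      ‖hat t q.1 q.2 (cell hc P₀ (2 * P₀) i) (fun _ => 1)‖ ^ 2 *
        ‖hat t q.1 q.2 (SJ p m j) (HJ p U m j)‖ ^ 2 ≤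
    (((VV hc P₀ (2 * P₀)).card : ℝ) * (JJ p m).card) *
      ((18 * P₀) ^ 2 * (9 * l * MM' p) ^ 2 * E.card +
       (18 * P₀) ^ 2 * (H2 ^ 2 * U.card + (32 * Y4 ^ 2) * (200 * p.M2 ^ 2) + n * (2 * e ^ 2))) := by
  have h1 : ∀ i ∈ VV hc P₀ (2 * P₀), ∀ j ∈ JJ p m,
      ∑ q ∈ atyp t Km τ (cell hc P₀ (2 * P₀) i),
        ‖hat t q.1 q.2 (cell hc P₀ (2 * P₀) i) (fun _ => 1)‖ ^ 2 *
          ‖hat t q.1 q.2 (SJ p m j) (HJ p U m j)‖ ^ 2 ≤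
      (18 * P₀) ^ 2 * (9 * l * MM' p) ^ 2 * E.card +
       (18 * P₀) ^ 2 * (H2 ^ 2 * U.card + (32 * Y4 ^ 2) * (200 * p.M2 ^ 2) + n * (2 * e ^ 2)) := by
    intro i _ j hj
    have hmem : ∀ q ∈ atyp t Km τ (cell hc P₀ (2 * P₀) i), q.1 ∈ chs t ∧ q.2 ∈ IK Km := by
      intro q hq
      unfold atyp at hq
      exact mem_product.1 (mem_filter.1 hq).1
    have h2 := inner hB (p := p) (U := U) (m := m) (Km := Km) (t := t) (P₀ := P₀)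
      (Pi := cell hc P₀ (2 * P₀) i) (τ := τ) (l := l) (Y4 := Y4) (H2 := H2) (e := e) (n := n)
      (j := j) (E := E) ht hP₀ (Finset.filter_subset _ _) hl (hinv j) (hsup j hj)
      (fun q hq h3 => by
        rcases hE q (hmem q hq).1 (hmem q hq).2 h3 with h4 | h4 | h4
        · exact Or.inl h4
        · exact Or.inr (Or.inl h4)
        · exact Or.inr (Or.inr ⟨h4.1, h4.2 _ (unpair_mem hj)⟩))
      (fun q _ h3 => hTA q j h3)
      (fun q hq h3 h4 => hTS q (hmem q hq).2 j h3 h4)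
      (hG2 _ _ (fun q hq => (hmem q hq).2) (hat' i)) (hat' i) hM
    refine h2.trans (le_of_eq ?_)
    ring
  calc ∑ i ∈ VV hc P₀ (2 * P₀), ∑ j ∈ JJ p m, ∑ q ∈ atyp t Km τ (cell hc P₀ (2 * P₀) i),
      ‖hat t q.1 q.2 (cell hc P₀ (2 * P₀) i) (fun _ => 1)‖ ^ 2 *
        ‖hat t q.1 q.2 (SJ p m j) (HJ p U m j)‖ ^ 2
      ≤ ∑ i ∈ VV hc P₀ (2 * P₀), ∑ j ∈ JJ p m, ((18 * P₀) ^ 2 * (9 * l * MM' p) ^ 2 * E.card +
       (18 * P₀) ^ 2 * (H2 ^ 2 * U.card + (32 * Y4 ^ 2) * (200 * p.M2 ^ 2) + n * (2 * e ^ 2))) :=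
        Finset.sum_le_sum (fun i hi => Finset.sum_le_sum (fun j hj => h1 i hi j hj))
    _ = _ := by
        rw [Finset.sum_const, Finset.sum_const, nsmul_eq_mul, nsmul_eq_mul]
        ring

open scoped Classical in
lemma second (hPHI : XV.SpecPHI) (hB : SpecBRG) {p : Par} {U : Finset Ix} {m Km T0 T1 : ℕ}
    {P₀ hc τ L Y4 H2 e n EE : ℝ} {E : (t : ℕ) → Finset (MulChar (Cls.RR (md t)) ℂ × ℤ)}
    (hP₀ : 0 ≤ P₀) (hL : 0 ≤ L) (hT0 : 1 ≤ T0) (hlog : 1 + 2 * Real.log T1 ≤ L) (hn : 0 ≤ n)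
    (hinv : ∀ j z, HJ p U m j (⟨0, 1⟩ * z) = HJ p U m j z)
    (hsup : ∀ j ∈ JJ p m, ∀ z, ‖HJ p U m j z‖ ≤ L)
    (hE : ∀ t, 1 ≤ t → t ≤ T1 → ∀ q : MulChar (Cls.RR (md t)) ℂ × ℤ, q.1 ∈ chs t → q.2 ∈ IK Km →
      psi (ixq t q) ⟨0, 1⟩ = 1 →
      q ∈ E t ∨ (∃ u ∈ U, q.2 = u.2.2 ∧ ∀ z, fn t q.1 z ≠ 0 → u.2.1 z = fn t q.1 z) ∨
        ((∀ u ∈ U, Dist (fn t q.1) u.2.1 q.2 u.2.2) ∧
          ∀ a ∈ (I4 p).image (fun v => v / m), ‖G4 p m (ixq t q) a‖ ≤ Y4))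
    (hTA : ∀ t, 1 ≤ t → t ≤ T1 → ∀ q : MulChar (Cls.RR (md t)) ℂ × ℤ, ∀ j,
      (∃ u ∈ U, q.2 = u.2.2 ∧ ∀ z, fn t q.1 z ≠ 0 → u.2.1 z = fn t q.1 z) →
      ‖∑ z ∈ SJ p m j, HJ p U m j z * psi (ixq t q) z‖ ≤ H2)
    (hTS : ∀ t, 1 ≤ t → t ≤ T1 → ∀ q : MulChar (Cls.RR (md t)) ℂ × ℤ, q.2 ∈ IK Km → ∀ j,
      psi (ixq t q) ⟨0, 1⟩ = 1 →
      (∀ u ∈ U, Dist (fn t q.1) u.2.1 q.2 u.2.2) →
      ‖∑ z ∈ SJ p m j, HJ p U m j z * psi (ixq t q) z‖ ≤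
        4 * ‖G4 p m (ixq t q) (Nat.unpair j).1‖ * ‖G2 p m (ixq t q) (Nat.unpair j).2‖ + e)
    (hG2 : ∀ t, 1 ≤ t → t ≤ T1 → ∀ (W : Finset (MulChar (Cls.RR (md t)) ℂ × ℤ)) (b : ℕ),
      (∀ q ∈ W, q.2 ∈ IK Km) →
      (W.card : ℝ) ≤ n → ∑ q ∈ W, ‖G2 p m (ixq t q) b‖ ^ 2 ≤ 200 * p.M2 ^ 2)
    (hat' : ∀ t, 2 ≤ t → t ≤ T1 → ∀ i, ((atyp t Km τ (cell hc P₀ (2 * P₀) i)).card : ℝ) ≤ n)
    (hM : 0 ≤ MM' p)
    (hEE : ∑ t ∈ Icc 1 T1, ((E t).card : ℝ) / t ≤ EE) :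
    ∑ t ∈ Ioc T0 T1, ((t : ℝ) / ph t) *
      ∑ i ∈ VV hc P₀ (2 * P₀), ∑ j ∈ JJ p m, ∑ q ∈ atyp t Km τ (cell hc P₀ (2 * P₀) i),
        ‖hat t q.1 q.2 (cell hc P₀ (2 * P₀) i) (fun _ => 1)‖ ^ 2 *
          ‖hat t q.1 q.2 (SJ p m j) (HJ p U m j)‖ ^ 2 ≤
    (((VV hc P₀ (2 * P₀)).card : ℝ) * (JJ p m).card) * L ^ 2 *
      (((18 * P₀) ^ 2 * (9 * L * MM' p) ^ 2) * EE +
       ((18 * P₀) ^ 2 * (H2 ^ 2 * U.card + (32 * Y4 ^ 2) * (200 * p.M2 ^ 2) + n * (2 * e ^ 2))) * L) := by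
  refine sum_t (r := fun t => (t : ℝ) / ph t)
    (S := fun t => ∑ i ∈ VV hc P₀ (2 * P₀), ∑ j ∈ JJ p m,
      ∑ q ∈ atyp t Km τ (cell hc P₀ (2 * P₀) i),
        ‖hat t q.1 q.2 (cell hc P₀ (2 * P₀) i) (fun _ => 1)‖ ^ 2 *
          ‖hat t q.1 q.2 (SJ p m j) (HJ p U m j)‖ ^ 2)
    (e := fun t => ((E t).card : ℝ)) (by positivity) (by positivity) (by positivity)
    (fun t => Nat.cast_nonneg _) (fun t ht => ?_) (fun t ht => ?_) hEE ?_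
  · rw [mem_Ioc] at ht
    have h1 : 1 ≤ t := by omega
    refine ⟨by positivity, phi_bound hPHI h1 ?_⟩
    have h2 : Real.log t ≤ Real.log T1 :=
      Real.log_le_log (by exact_mod_cast h1) (by exact_mod_cast ht.2)
    linarith
  · rw [mem_Ioc] at ht
    have h1 : 1 ≤ t := by omega
    exact one_t hB h1 hP₀ hL hinv hsup (hE t h1 ht.2) (hTA t h1 ht.2) (hTS t h1 ht.2)
      (hG2 t h1 ht.2) (hat' t (by omega) ht.2) hM
  · have h3 : 0 ≤ Real.log (T1 : ℝ) := Real.log_natCast_nonneg T1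
    linarith

/-- the bracket -/
lemma bracket {L N T P B A a0 ch0 nIJ aF cw cP cB c q : ℝ} {T0 T1 Km : ℕ} (hL : 1 ≤ L) (hN : 0 < N)
    (hT : 1 ≤ T) (hP : 1 ≤ P) (hA : 0 < A) (ha0 : a0 = A + 9) (hch0 : ch0 = A + 2 * a0 + 10)
    (hn : 0 ≤ nIJ) (haF : aF = A + 2 * nIJ + a0 + 10) (hcw : A + 9 ≤ cw)
    (hcB : A + 2 * nIJ + 20 ≤ cB) (hcP : 2 * nIJ + A + 9 ≤ cP * (c / 4)) (hc : 0 ≤ c)
    (hT0 : T / L ^ a0 / 2 ≤ (T0 : ℝ)) (hT0' : (T0 : ℝ) ≤ T / L ^ a0) (hT1 : (T1 : ℝ) ≤ 5 * T)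
    (hKm : L ^ aF * (N / B) / 2 ≤ (Km : ℝ)) (hB0 : 0 < B) (hB2 : B ^ 2 ≤ 2 * N)
    (hB1 : T * P * L ^ cB ≤ B) (hP1 : L ^ cP ≤ P) (hq0 : 0 ≤ q) (hq : q ≤ L ^ nIJ)
    (hND : 1 / N ≤ L ^ (-(A + 9))) :
    T0 * Real.sqrt (N / T / (2 * N * T)) + 3 / L ^ ch0 * (2 * N * T / ((T0 : ℝ) ^ 2 * (N / T)) + 1) +
      B ^ 2 / (N / T * (2 * N * T)) + 1 / L ^ cw + 1 / B +
      q ^ 2 * ((P ^ (1 - c / 8)) ^ 2 * (T1 * (2 * N * T / P) / (B * (2 * N * T)) +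
        (2 * N * T / P / (2 * N * T)) ^ 2) + 2 * N * T / (B * Km) * (1 / B + 1 / T0)) ≤
      100 * L ^ (-(A + 9)) := by
  have hL0 : 0 < L := by linarith
  have hT' : 0 < T := by linarith
  have hP' : 0 < P := by linarith
  have mono : ∀ {x : ℝ}, x ≤ -(A + 9) → L ^ x ≤ L ^ (-(A + 9)) := fun hx =>
    Real.rpow_le_rpow_of_exponent_le hL hx
  have hD0 : 0 < L ^ (-(A + 9)) := Real.rpow_pos_of_pos hL0 _
  have hcB1 : 1 ≤ L ^ cB := Real.one_le_rpow hL (by linarith)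
  have hTP : 1 ≤ T * P := by nlinarith
  have hLB : L ^ cB ≤ B := by
    refine le_trans ?_ hB1
    have h0 : 0 < L ^ cB := by linarith
    nlinarith
  have hTB : T ≤ B := by
    refine le_trans ?_ hB1
    have h1 : T * 1 ≤ T * P := mul_le_mul_of_nonneg_left hP hT'.le
    have h2 : T * P * 1 ≤ T * P * L ^ cB := mul_le_mul_of_nonneg_left hcB1 (by positivity)
    linarith
  have e1 : T0 * Real.sqrt (N / T / (2 * N * T)) ≤ L ^ (-(A + 9)) :=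
    (b1 hL hN hT' hT0').trans (mono (by linarith))
  have e2 : 3 / L ^ ch0 * (2 * N * T / ((T0 : ℝ) ^ 2 * (N / T)) + 1) ≤ 27 * L ^ (-(A + 9)) :=
    (b2 hL hN hT' (by linarith) hT0).trans
      (mul_le_mul_of_nonneg_left (mono (by linarith)) (by norm_num))
  have e3 : B ^ 2 / (N / T * (2 * N * T)) ≤ L ^ (-(A + 9)) := b3 hN hT' hB2 hND
  have e4 : 1 / L ^ cw ≤ L ^ (-(A + 9)) := by
    have h1 : 1 / L ^ cw = L ^ (-cw) := by rw [Real.rpow_neg hL0.le, one_div]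
    rw [h1]
    exact mono (by linarith)
  have e5 : 1 / B ≤ L ^ (-(A + 9)) := b5 hL hLB (mono (by linarith))
  have e6 := b6 (n := nIJ) (q := q) hL hN hT' hP hc hB0 hT1 hB1 hP1 hq0 hq
  have e6' : 5 * L ^ (2 * nIJ - cB) + L ^ (2 * nIJ - cP * (c / 4)) ≤ 6 * L ^ (-(A + 9)) := by
    have h1 : L ^ (2 * nIJ - cB) ≤ L ^ (-(A + 9)) := mono (by linarith)
    have h2 : L ^ (2 * nIJ - cP * (c / 4)) ≤ L ^ (-(A + 9)) := mono (by linarith)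
    linarith
  have e7 := b7 (n := nIJ) (q := q) hL hN hT' (by linarith : 0 ≤ a0) hB0 hTB hKm hT0 hq0 hq
  have e7' : 12 * L ^ (2 * nIJ + a0 - aF) ≤ 12 * L ^ (-(A + 9)) :=
    mul_le_mul_of_nonneg_left (mono (by linarith)) (by norm_num)
  rw [mul_add (q ^ 2)]
  linarith

/-- the sizes in a box -/
lemma sizes {N T P M B L δ cP cT cB c cw ch a0 aF : ℝ} (hL : L = Real.log N) (hL1 : 1000 ≤ L)
    (hbox : Box δ cP cT cB N T P M B) (hsiz : Siz (par N T P M ch cw)) (hc : 0 < c) (hc80 : c ≤ 1 / 80)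
    (hδ : δ ≤ c / 2) (hLN : L ^ (1 : ℝ) ≤ 1 * N ^ (c / 2)) (ha0 : 1 ≤ a0) (haF : 1 ≤ aF)
    (hcT : a0 + aF + 10 ≤ cT) (hcB : 1 ≤ cB) :
    1 ≤ T ∧ 1 ≤ P ∧ 1 ≤ M ∧ 0 < B ∧ B ≤ N ∧ L ^ aF ≤ B ∧ L ^ a0 ≤ T ∧ (⌈4 * T⌉₊ : ℝ) ≤ 5 * T ∧
    (⌈4 * T⌉₊ : ℝ) ≤ N ^ c ∧ 1 + Real.log (2 * N * T) ≤ 3 * L ∧
    1 + 2 * Real.log (⌈4 * T⌉₊ : ℝ) ≤ L ∧ N ^ (1 / 4 : ℝ) ≤ N * T / (16 * P * M) ∧
    N * T / (16 * P * M) ≤ N := by
  have hN100 : (100 : ℝ) ≤ N := hsiz.N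
  have hN0 : 0 < N := by linarith
  have hN1 : 1 ≤ N := by linarith
  have hL0 : 0 < L := by linarith
  have hLL : 1 ≤ L := by linarith
  have hP2 : 2 ≤ P := hsiz.P
  have hTP : 64 * P ≤ T := hsiz.T
  have hM10 : 10 ≤ M := hsiz.M
  have hMN : M ^ 2 ≤ N := hsiz.MN
  have hTM : 100 * T ^ 2 ≤ M := hsiz.TM
  have hT1 : 1 ≤ T := by linarith
  have hB1 := hbox.B1
  rw [← hL] at hB1
  have hcB1 : 1 ≤ L ^ cB := Real.one_le_rpow hLL (by linarith)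
  have hTB : T ≤ B := by
    refine le_trans ?_ hB1
    have h1 : T * 1 ≤ T * P := mul_le_mul_of_nonneg_left (by linarith) (by linarith)
    have h2 : T * P * 1 ≤ T * P * L ^ cB := mul_le_mul_of_nonneg_left hcB1 (by positivity)
    linarith
  have hB0 : 0 < B := by linarith
  have hBN : B ≤ N := by
    have h1 := hbox.B2
    by_contra h2
    rw [not_le] at h2
    nlinarith
  have hTT1 := hbox.T1
  rw [← hL] at hTT1
  have hcTT : L ^ cT ≤ T := by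
    refine le_trans ?_ hTT1
    have h1 : 0 < L ^ cT := Real.rpow_pos_of_pos hL0 _
    nlinarith
  have e1 : L ^ aF ≤ B :=
    (Real.rpow_le_rpow_of_exponent_le hLL (by linarith)).trans (hcTT.trans hTB)
  have e2 : L ^ a0 ≤ T :=
    (Real.rpow_le_rpow_of_exponent_le hLL (by linarith)).trans hcTT
  have e3 : (⌈4 * T⌉₊ : ℝ) ≤ 5 * T := by
    have := Nat.ceil_lt_add_one (show 0 ≤ 4 * T by linarith)
    linarith
  have e4 : (⌈4 * T⌉₊ : ℝ) ≤ N ^ c := by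
    have h1 : T ≤ N ^ (c / 2) :=
      hbox.T2.trans (Real.rpow_le_rpow_of_exponent_le hN1 hδ)
    rw [Real.rpow_one, one_mul] at hLN
    have h2 : N ^ c = N ^ (c / 2) * N ^ (c / 2) := by
      rw [← Real.rpow_add hN0]; congr 1; ring
    rw [h2]
    have h3 : 0 < N ^ (c / 2) := Real.rpow_pos_of_pos hN0 _
    calc (⌈4 * T⌉₊ : ℝ) ≤ 5 * T := e3
      _ ≤ L * T := by nlinarith
      _ ≤ N ^ (c / 2) * N ^ (c / 2) := mul_le_mul hLN h1 (by linarith) h3.le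
  have hlT : Real.log (⌈4 * T⌉₊ : ℝ) ≤ L / 80 := by
    have h1 : (1 : ℝ) ≤ (⌈4 * T⌉₊ : ℝ) := by
      have := Nat.le_ceil (4 * T)
      linarith
    calc Real.log (⌈4 * T⌉₊ : ℝ) ≤ Real.log (N ^ c) := Real.log_le_log (by linarith) e4
      _ = c * L := by rw [Real.log_rpow hN0, hL]
      _ ≤ 1 / 80 * L := mul_le_mul_of_nonneg_right hc80 hL0.le
      _ = L / 80 := by ring
  have e5 : 1 + Real.log (2 * N * T) ≤ 3 * L := by
    rw [Real.log_mul (by positivity) (by positivity), Real.log_mul (by norm_num) (by positivity),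
      ← hL]
    have h1 : Real.log T ≤ Real.log (⌈4 * T⌉₊ : ℝ) := by
      refine Real.log_le_log (by linarith) ?_
      have := Nat.le_ceil (4 * T)
      linarith
    have h2 : Real.log 2 < 1 := lt_trans Real.log_two_lt_d9 (by norm_num)
    linarith
  have e6 : 1 + 2 * Real.log (⌈4 * T⌉₊ : ℝ) ≤ L := by linarith
  have e7 : M ≤ N * T / (16 * P * M) := by
    rw [le_div_iff₀ (by positivity)]
    calc M * (16 * P * M) = M ^ 2 * (16 * P) := by ring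
      _ ≤ N * T := mul_le_mul hMN (by linarith) (by positivity) hN0.le
  have e8 : N ^ (1 / 4 : ℝ) ≤ N * T / (16 * P * M) := by
    refine le_trans ?_ e7
    refine le_trans ?_ hbox.M1
    exact Real.rpow_le_rpow_of_exponent_le hN1 (by norm_num)
  have e9 : N * T / (16 * P * M) ≤ N := by
    rw [div_le_iff₀ (by positivity)]
    have h1 : T ≤ 16 * P * M := by nlinarith
    exact mul_le_mul_of_nonneg_left h1 hN0.le
  exact ⟨hT1, by linarith, by linarith, hB0, hBN, e1, e2, e3, e4, e5, e6, e8, e9⟩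

/-! ## the constants -/

/-- the exponents -/
structure Cst (A a0 ch0 nIJ aF A₁ aU aQ cw s : ℝ) : Prop where
  A0 : 0 < A
  e1 : a0 = A + 9
  e2 : ch0 = A + 2 * a0 + 10
  e3 : nIJ = 3 * ch0 + 4
  e4 : aF = A + 2 * nIJ + a0 + 10
  e5 : A₁ = A + 2 * nIJ + 10
  e6 : aU = 2 * A₁ + ch0 + 2
  e7 : aQ = A + aU + 2 * nIJ + 20
  e8 : cw = 2 * aQ + A + aU + 2 * nIJ + 20
  e9 : s = A + 2 * nIJ + 6

lemma Cst.exi {A : ℝ} (hA : 0 < A) : ∃ a0 ch0 nIJ aF A₁ aU aQ cw s : ℝ,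
    Cst A a0 ch0 nIJ aF A₁ aU aQ cw s :=
  ⟨_, _, _, _, _, _, _, _, _, hA, rfl, rfl, rfl, rfl, rfl, rfl, rfl, rfl, rfl⟩

section cst

variable {A a0 ch0 nIJ aF A₁ aU aQ cw s : ℝ} (K : Cst A a0 ch0 nIJ aF A₁ aU aQ cw s)
include K

lemma Cst.f1 : 1 ≤ cw := by cases K; linarith
lemma Cst.f2 : 2 * aQ ≤ cw := by cases K; linarith
lemma Cst.f3 : 1 ≤ aU := by cases K; linarith
lemma Cst.f4 : 1 ≤ aQ := by cases K; linarith
lemma Cst.f5 : 1 ≤ aF := by cases K; linarith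
lemma Cst.f6 : 1 ≤ ch0 := by cases K; linarith
lemma Cst.f6' : 1 ≤ ch0 + 1 := by cases K; linarith
lemma Cst.f7 : 1 ≤ a0 := by cases K; linarith
lemma Cst.f8 : a0 + 1 ≤ aF := by cases K; linarith
lemma Cst.f9 : 1 ≤ A₁ := by cases K; linarith
lemma Cst.f10 : 0 ≤ nIJ := by cases K; linarith
lemma Cst.f11 : A + 9 ≤ cw := by cases K; linarith
lemma Cst.f12 : s + aU + 4 ≤ 2 * cw := by cases K; linarith
lemma Cst.f13 : s ≤ 2 * A₁ := by cases K; linarith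
lemma Cst.f14 : 2 * A₁ + ch0 + 3 - aQ ≤ -1 - s := by cases K; linarith
lemma Cst.g1 {ch : ℝ} (h : ch0 + 1 ≤ ch) : 1 ≤ ch := by cases K; linarith
lemma Cst.g2 {cP : ℝ} (h : cw + 1 ≤ cP) : 1 ≤ cP := by cases K; linarith
lemma Cst.g3 {cT : ℝ} (h : a0 + aF + 10 ≤ cT) : 1 ≤ cT := by cases K; linarith
lemma Cst.g4 {cT : ℝ} (h : a0 + aF + 10 ≤ cT) : a0 + 2 ≤ cT := by cases K; linarith
lemma Cst.g5 {cB : ℝ} (h : A + 2 * nIJ + 20 ≤ cB) : 1 ≤ cB := by cases K; linarith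
lemma Cst.g6 {L : ℝ} (hL : 36 ≤ L) : 36 * (L ^ ch0) ^ 3 ≤ L ^ nIJ := by
  have hL0 : 0 < L := by linarith
  have hL1 : 1 ≤ L := by linarith
  have h0 : 0 < L ^ ch0 := Real.rpow_pos_of_pos hL0 _
  calc 36 * (L ^ ch0) ^ 3 ≤ L ^ 4 * (L ^ ch0) ^ 3 := by
        refine mul_le_mul_of_nonneg_right ?_ (by positivity)
        have h1 : L ≤ L ^ 4 := le_self_pow₀ hL1 (by norm_num)
        linarith
    _ = L ^ nIJ := by
        rw [← Real.rpow_natCast L 4, ← Real.rpow_natCast (L ^ ch0) 3, ← Real.rpow_mul hL0.le,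
          ← Real.rpow_add hL0]
        congr 1
        rw [K.e3]; push_cast; ring

end cst

lemma exi_c {cM cS cA cU : ℝ} (hcM : 0 < cM) (hcS : 0 < cS) (hcA : 0 < cA) (hcU : 0 < cU) :
    ∃ c : ℝ, 0 < c ∧ 4 * c ≤ cM ∧ 4 * c ≤ cS ∧ 4 * c ≤ cA ∧ 4 * c ≤ cU ∧ c ≤ 1 / 80 := by
  refine ⟨min (min cM cS) (min (min cA cU) (1 / 20)) / 4, by positivity, ?_, ?_, ?_, ?_, ?_⟩
  · have h1 := min_le_left (min cM cS) (min (min cA cU) (1 / 20))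
    have h2 := min_le_left cM cS
    linarith
  · have h1 := min_le_left (min cM cS) (min (min cA cU) (1 / 20))
    have h2 := min_le_right cM cS
    linarith
  · have h1 := min_le_right (min cM cS) (min (min cA cU) (1 / 20))
    have h2 := min_le_left (min cA cU) (1 / 20)
    have h3 := min_le_left cA cU
    linarith
  · have h1 := min_le_right (min cM cS) (min (min cA cU) (1 / 20))
    have h2 := min_le_left (min cA cU) (1 / 20)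
    have h3 := min_le_right cA cU
    linarith
  · have h1 := min_le_right (min cM cS) (min (min cA cU) (1 / 20))
    have h2 := min_le_right (min cA cU) (1 / 20)
    linarith

/-- the natural numbers `m`, `Km`, `T0` -/
lemma nats {L ch ch0 a0 aF N B T : ℝ} (hL1 : 1 ≤ L) (hch : ch0 + 1 ≤ ch) (haF : 1 ≤ aF)
    (hB0 : 0 < B) (hBN : B ≤ N) (hLB : L ^ aF ≤ B) (hLT : L ^ a0 ≤ T) (hN0 : 0 < N) :
    1 ≤ ⌊L ^ ch / L ^ ch0⌋₊ ∧ L ^ ch / (⌊L ^ ch / L ^ ch0⌋₊ : ℝ) ≤ 2 * L ^ ch0 ∧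
    1 ≤ ⌊L ^ aF * (N / B)⌋₊ ∧ (⌊L ^ aF * (N / B)⌋₊ : ℝ) ≤ L ^ aF * (N / B) ∧
    (⌊L ^ aF * (N / B)⌋₊ : ℝ) ≤ N ∧ L ^ aF * (N / B) / 2 ≤ (⌊L ^ aF * (N / B)⌋₊ : ℝ) ∧
    1 ≤ ⌊T / L ^ a0⌋₊ ∧ T / L ^ a0 / 2 ≤ (⌊T / L ^ a0⌋₊ : ℝ) ∧ (⌊T / L ^ a0⌋₊ : ℝ) ≤ T / L ^ a0 := by
  have hL0 : 0 < L := by linarith
  have hx : 1 ≤ L ^ ch / L ^ ch0 := by
    rw [← Real.rpow_sub hL0]
    exact Real.one_le_rpow hL1 (by linarith)
  have hm1 : 1 ≤ ⌊L ^ ch / L ^ ch0⌋₊ := (Nat.one_le_floor_iff _).2 hx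
  have hc00 : 0 < L ^ ch0 := Real.rpow_pos_of_pos hL0 _
  have hmh : L ^ ch / (⌊L ^ ch / L ^ ch0⌋₊ : ℝ) ≤ 2 * L ^ ch0 := by
    have h1 := floor_half hx
    have h3 : (0 : ℝ) < (⌊L ^ ch / L ^ ch0⌋₊ : ℝ) := by exact_mod_cast hm1
    rw [div_le_iff₀ h3]
    calc L ^ ch = 2 * L ^ ch0 * (L ^ ch / L ^ ch0 / 2) := by field_simp
      _ ≤ 2 * L ^ ch0 * (⌊L ^ ch / L ^ ch0⌋₊ : ℝ) := mul_le_mul_of_nonneg_left h1 (by positivity)
  have hNB : 1 ≤ N / B := (one_le_div hB0).2 hBN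
  have hKx : 1 ≤ L ^ aF * (N / B) := by
    have h1 := Real.one_le_rpow hL1 (show 0 ≤ aF by linarith)
    nlinarith
  have hKmF : (⌊L ^ aF * (N / B)⌋₊ : ℝ) ≤ L ^ aF * (N / B) := Nat.floor_le (by linarith)
  have hKmN : (⌊L ^ aF * (N / B)⌋₊ : ℝ) ≤ N := by
    refine hKmF.trans ?_
    rw [← mul_div_assoc, div_le_iff₀ hB0, mul_comm N B]
    exact mul_le_mul_of_nonneg_right hLB hN0.le
  have hTx : 1 ≤ T / L ^ a0 := (one_le_div (Real.rpow_pos_of_pos hL0 _)).2 hLT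
  exact ⟨hm1, hmh, (Nat.one_le_floor_iff _).2 hKx, hKmF, hKmN, floor_half hKx,
    (Nat.one_le_floor_iff _).2 hTx, floor_half hTx, Nat.floor_le (by linarith)⟩

lemma mem_IK_le {Km : ℕ} {N : ℝ} (h : (Km : ℝ) ≤ N) : ∀ k ∈ IK Km, |(k : ℝ)| ≤ N := by
  intro k hk
  unfold IK at hk
  rw [mem_Icc] at hk
  refine le_trans ?_ h
  rw [abs_le]
  constructor
  · have := hk.1
    exact_mod_cast this
  · have := hk.2
    exact_mod_cast this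

/-- the second part in a box -/
lemma secbox {A a0 ch0 nIJ aF A₁ aU aQ cw s c cM cS cA cP ch L N T P M : ℝ} {m Km T0 T1 : ℕ}
    {U : Finset Ix} {E : (t : ℕ) → Finset (MulChar (Cls.RR (md t)) ℂ × ℤ)}
    (K : Cst A a0 ch0 nIJ aF A₁ aU aQ cw s) (hPHI : XV.SpecPHI) (hBRG : SpecBRG)
    (hL : L = Real.log N) (hL1 : 1000 ≤ L) (hN1 : 1 ≤ N) (hT1 : 1 ≤ T) (hP1 : 1 ≤ P) (hM0 : 0 < M)
    (hc : 0 < c) (hc1 : 4 * c ≤ cM) (hc2 : 4 * c ≤ cS) (hc3 : 4 * c ≤ cA) (hc5 : c ≤ 1 / 80)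
    (hTc : (T1 : ℝ) ≤ N ^ c) (hlg : 1 + 2 * Real.log (T1 : ℝ) ≤ L) (hT01 : 1 ≤ T0)
    (hKm1 : 1 ≤ Km) (hKmN : (Km : ℝ) ≤ N)
    (hM2a : N ^ (1 / 4 : ℝ) ≤ N * T / (16 * P * M)) (hM2b : N * T / (16 * P * M) ≤ N)
    (hPa : L ^ cP ≤ P) (hPb : P ≤ L ^ (2 * cP)) (hUc : (U.card : ℝ) ≤ L ^ aU)
    (hinv : ∀ j z, HJ (par N T P M ch cw) U m j (⟨0, 1⟩ * z) = HJ (par N T P M ch cw) U m j z)
    (hsup : ∀ j ∈ JJ (par N T P M ch cw) m, ∀ z, ‖HJ (par N T P M ch cw) U m j z‖ ≤ L)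
    (gM : ∀ (t : ℕ) (M : ℝ) (G : Finset Gi)
      (W : Finset (MulChar (Cls.RR (md t)) ℂ × ℤ)), 1 ≤ t → (t : ℝ) ≤ N ^ cM → N ^ (1 / 4 : ℝ) ≤ M →
      M ≤ N → G ⊆ GP M (2 * M) → (∀ q ∈ W, |(q.2 : ℝ)| ≤ N) → (W.card : ℝ) ≤ N ^ cM →
      ∑ q ∈ W, ‖∑ π ∈ G, hk (fn t q.1) q.2 π‖ ^ 2 ≤ 200 * M ^ 2)
    (gA : ∀ (t Km : ℕ) (P₀ : ℝ) (P : Finset Gi), 2 ≤ t → (t : ℝ) ≤ N ^ (1 / 20 : ℝ) → 1 ≤ Km →
      (Km : ℝ) ≤ N → L ^ cP ≤ P₀ → P₀ ≤ L ^ (2 * cP) → P ⊆ GP P₀ (2 * P₀) →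
      ((atyp t Km (P₀ ^ (1 - c / 8)) P).card : ℝ) ≤ N ^ c)
    (gTS : ∀ (i : Ix) (j : ℕ), 1 ≤ i.1 → (i.1 : ℝ) ≤ N ^ cS → ChiG (i.1 : Gi) i.2.1 →
      |(i.2.2 : ℝ)| ≤ N ^ 2 → psi i ⟨0, 1⟩ = 1 → (∀ u ∈ U, Dist i.2.1 u.2.1 i.2.2 u.2.2) →
      ‖∑ z ∈ SJ (par N T P M ch cw) m j, HJ (par N T P M ch cw) U m j z * psi i z‖ ≤
        4 * ‖G4 (par N T P M ch cw) m i (Nat.unpair j).1‖ * ‖G2 (par N T P M ch cw) m i (Nat.unpair j).2‖
          + N ^ (1 - cS))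
    (gTA : ∀ (i : Ix) (j : ℕ), 1 ≤ i.1 → (i.1 : ℝ) ≤ N ^ cA → ChiG (i.1 : Gi) i.2.1 →
      (∃ u ∈ U, i.2.2 = u.2.2 ∧ ∀ z, i.2.1 z ≠ 0 → u.2.1 z = i.2.1 z) →
      ‖∑ z ∈ SJ (par N T P M ch cw) m j, HJ (par N T P M ch cw) U m j z * psi i z‖ ≤
        40 * (1 + Real.log i.1) * L * MM' (par N T P M ch cw) / (par N T P M ch cw).w + N ^ (1 - cA))
    (hE1 : ∑ t ∈ Icc 1 T1, ((E t).card : ℝ) / t ≤ L ^ (2 * A₁ + ch0 + 3 - aQ))
    (hE2 : ∀ t, 1 ≤ t → t ≤ T1 → ∀ q : MulChar (Cls.RR (md t)) ℂ × ℤ, q.1 ∈ chs t → q.2 ∈ IK Km →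
      psi (ixq t q) ⟨0, 1⟩ = 1 →
      q ∈ E t ∨ (∃ u ∈ U, q.2 = u.2.2 ∧ ∀ z, fn t q.1 z ≠ 0 → u.2.1 z = fn t q.1 z) ∨
        ((∀ u ∈ U, Dist (fn t q.1) u.2.1 q.2 u.2.2) ∧
          ∀ a ∈ (I4 (par N T P M ch cw)).image (fun v => v / m),
            ‖G4 (par N T P M ch cw) m (ixq t q) a‖ ≤ M * L ^ (-A₁)))
    (hsmall : L ^ (4 * cP + aU + s) ≤ N ^ (7 * c)) :
    ∃ D1 D2 EE : ℝ, D1 = 26244 * L ^ 2 * (2 * N * T) ^ 2 ∧ EE ≤ L ^ (-1 - s) ∧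
      D2 ≤ 10000000 * (2 * N * T) ^ 2 * L ^ (-s) ∧
      ∑ t ∈ Ioc T0 T1, ((t : ℝ) / ph t) *
        ∑ i ∈ VV (L ^ ch0) P (2 * P), ∑ j ∈ JJ (par N T P M ch cw) m,
          ∑ q ∈ atyp t Km (P ^ (1 - c / 8)) (cell (L ^ ch0) P (2 * P) i),
          ‖hat t q.1 q.2 (cell (L ^ ch0) P (2 * P) i) (fun _ => 1)‖ ^ 2 *
            ‖hat t q.1 q.2 (SJ (par N T P M ch cw) m j) (HJ (par N T P M ch cw) U m j)‖ ^ 2 ≤
      (((VV (L ^ ch0) P (2 * P)).card : ℝ) * (JJ (par N T P M ch cw) m).card) * L ^ 2 *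
        (D1 * EE + D2 * L) := by
  have hN0 : 0 < N := by linarith only [hN1]
  have hL0 : 0 < L := by linarith only [hL1]
  have hLL : 1 ≤ L := by linarith only [hL1]
  have hP0 : 0 < P := by linarith only [hP1]
  have hT0 : 0 < T := by linarith only [hT1]
  have hMM : MM' (par N T P M ch cw) = 2 * N * T / P := rfl
  have hw : (par N T P M ch cw).w = L ^ cw := by rw [hL]; rfl
  have hM2e : (par N T P M ch cw).M2 = N * T / (16 * P * M) := rfl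
  have hIK := mem_IK_le hKmN
  have hw0 : 0 < L ^ cw := Real.rpow_pos_of_pos hL0 _
  have hpw : ∀ {x : ℝ}, c ≤ x → N ^ c ≤ N ^ x := fun hx =>
    Real.rpow_le_rpow_of_exponent_le hN1 hx
  have htc : ∀ {t : ℕ}, t ≤ T1 → (t : ℝ) ≤ N ^ c := fun ht =>
    (show (_ : ℝ) ≤ (T1 : ℝ) by exact_mod_cast ht).trans hTc
  have hcM' : c ≤ cM := by linarith only [hc, hc1]
  have hcS' : c ≤ cS := by linarith only [hc, hc2]
  have hcA' : c ≤ cA := by linarith only [hc, hc3]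
  have hNN : N ≤ N ^ 2 := by nlinarith only [hN1]
  refine ⟨_, _, L ^ (2 * A₁ + ch0 + 3 - aQ), ?_, Real.rpow_le_rpow_of_exponent_le hLL K.f14, ?_,
    second (p := par N T P M ch cw) (U := U) (m := m) (Km := Km) (T0 := T0) (T1 := T1)
    (P₀ := P) (hc := L ^ ch0) (τ := P ^ (1 - c / 8)) (L := L) (Y4 := M * L ^ (-A₁))
    (H2 := 80 * L ^ 2 * (2 * N * T / P) / L ^ cw + N ^ (1 - 4 * c)) (e := N ^ (1 - 4 * c))
    (n := N ^ c) (EE := L ^ (2 * A₁ + ch0 + 3 - aQ)) (E := E) hPHI hBRG hP0.le hL0.le hT01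
    hlg (Real.rpow_nonneg hN0.le _) hinv hsup hE2 ?_ ?_ ?_ ?_ ?_ hE1⟩
  · rw [hMM]
    field_simp
    ring
  · refine le_trans ?_ (d2_bound (aU := aU) (cP := cP) (cw := cw) (A₁ := A₁) (s := s) hLL hN1 hT1 hP1
      hM0 hc.le (by linarith only [K.f3]) hPb K.f12 K.f13 hsmall)
    refine mul_le_mul_of_nonneg_left ?_ (by positivity)
    have h1 : (80 * L ^ 2 * (2 * N * T / P) / L ^ cw + N ^ (1 - 4 * c)) ^ 2 * (U.card : ℝ) ≤
        (80 * L ^ 2 * (2 * N * T / P) / L ^ cw + N ^ (1 - 4 * c)) ^ 2 * L ^ aU :=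
      mul_le_mul_of_nonneg_left hUc (by positivity)
    rw [hM2e]
    linarith only [h1]
  · intro t ht1 htT q j hu
    have h1 := gTA (ixq t q) j ht1 ((htc htT).trans (hpw hcA')) (hBRG.1 t q.1 ht1) hu
    refine h1.trans (add_le_add ?_ (Real.rpow_le_rpow_of_exponent_le hN1 (by linarith only [hc3])))
    rw [hMM, hw]
    refine div_le_div_of_nonneg_right ?_ hw0.le
    refine mul_le_mul_of_nonneg_right ?_ (by positivity)
    have h2 : 1 + Real.log ((ixq t q).1 : ℝ) ≤ L := by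
      have h3 : Real.log ((ixq t q).1 : ℝ) ≤ Real.log T1 :=
        Real.log_le_log (by exact_mod_cast ht1) (by exact_mod_cast htT)
      have h4 : 0 ≤ Real.log (T1 : ℝ) := Real.log_natCast_nonneg T1
      linarith only [h3, h4, hlg]
    have h5 : 40 * (1 + Real.log ((ixq t q).1 : ℝ)) * L ≤ 40 * L * L := by
      refine mul_le_mul_of_nonneg_right ?_ hL0.le
      linarith only [h2]
    have h6 : 0 < L ^ 2 := by positivity
    nlinarith only [h5, h6]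
  · intro t ht1 htT q hq j h1 h2
    have h3 := gTS (ixq t q) j ht1 ((htc htT).trans (hpw hcS')) (hBRG.1 t q.1 ht1)
      ((hIK _ hq).trans hNN) h1 h2
    exact h3.trans (add_le_add le_rfl
      (Real.rpow_le_rpow_of_exponent_le hN1 (by linarith only [hc2])))
  · intro t ht1 htT W b hW hWc
    exact gM t (par N T P M ch cw).M2 (GG (par N T P M ch cw).h (par N T P M ch cw).M2 m b) W ht1
      ((htc htT).trans (hpw hcM')) hM2a hM2b (Finset.filter_subset _ _)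
      (fun q hq => hIK _ (hW q hq)) (hWc.trans (hpw hcM'))
  · intro t ht2 htT i
    exact gA t Km P (cell (L ^ ch0) P (2 * P) i) ht2
      ((htc htT).trans (hpw (by linarith only [hc5]))) hKm1 hKmN hPa hPb (Finset.filter_subset _ _)
  · rw [hMM]; positivity

/-- everything in a box, from the variance inequality and the second part -/
lemma numbox {A a0 ch0 nIJ aF A₁ aU aQ cw s c cP cB C L N T P B D1 D2 EE Var St q : ℝ}
    {T0 T1 Km : ℕ} (K : Cst A a0 ch0 nIJ aF A₁ aU aQ cw s) (hC : 0 < C)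
    (gL : 24000000 * C + 1000 ≤ L) (hN1 : 1 ≤ N) (hT1 : 1 ≤ T) (hP1 : 1 ≤ P) (hc : 0 < c)
    (hB0 : 0 < B) (hB2 : B ^ 2 ≤ 2 * N) (hB1 : T * P * L ^ cB ≤ B) (hPa : L ^ cP ≤ P)
    (hcB : A + 2 * nIJ + 20 ≤ cB) (hcP3 : 2 * nIJ + A + 9 ≤ cP * (c / 4))
    (hT0a : T / L ^ a0 / 2 ≤ (T0 : ℝ)) (hT0b : (T0 : ℝ) ≤ T / L ^ a0) (hT5 : (T1 : ℝ) ≤ 5 * T)
    (hKmh : L ^ aF * (N / B) / 2 ≤ (Km : ℝ)) (hq0 : 0 ≤ q) (hq : q ≤ L ^ nIJ)
    (gp1 : L ^ (A + 9) ≤ 1 * N ^ (1 : ℝ)) (hZ : 1 + Real.log (2 * N * T) ≤ 3 * L)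
    (hD1 : D1 = 26244 * L ^ 2 * (2 * N * T) ^ 2) (hEE : EE ≤ L ^ (-1 - s))
    (hD2 : D2 ≤ 10000000 * (2 * N * T) ^ 2 * L ^ (-s))
    (hsec : St ≤ q * L ^ 2 * (D1 * EE + D2 * L))
    (hvar : Var ≤ C * L ^ 2 * (1 + Real.log (2 * N * T)) ^ 5 * (B * (2 * N * T)) *
      (T0 * Real.sqrt (N / T / (2 * N * T)) + 3 / L ^ ch0 * (2 * N * T / ((T0 : ℝ) ^ 2 * (N / T)) + 1) +
      B ^ 2 / (N / T * (2 * N * T)) + 1 / L ^ cw + 1 / B +
      q ^ 2 * ((P ^ (1 - c / 8)) ^ 2 * (T1 * (2 * N * T / P) / (B * (2 * N * T)) +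
        (2 * N * T / P / (2 * N * T)) ^ 2) + 2 * N * T / (B * Km) * (1 / B + 1 / T0))) +
      C * q * (B / (2 * N * T)) * St) :
    Var ≤ L ^ (-A) * (B * (N / T) * T ^ 2) := by
  have hL1000 : 1000 ≤ L := by
    have := mul_pos (by norm_num : (0 : ℝ) < 24000000) hC
    linarith only [this, gL]
  have hL0 : 0 < L := by linarith only [hL1000]
  have hL1 : 1 ≤ L := by linarith only [hL1000]
  have hN0 : 0 < N := by linarith only [hN1]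
  have hT0 : 0 < T := by linarith only [hT1]
  have hNT : 1 ≤ N * T := one_le_mul_of_one_le_of_one_le hN1 hT1
  have hZ0 : 0 ≤ 1 + Real.log (2 * N * T) := by
    have h1 : 0 ≤ Real.log (2 * N * T) := Real.log_nonneg (by linarith only [hNT])
    linarith only [h1]
  have hbr := bracket (A := A) (a0 := a0) (ch0 := ch0) (nIJ := nIJ) (aF := aF) (cw := cw)
    (cP := cP) (cB := cB) (c := c) (T0 := T0) (T1 := T1) (Km := Km)
    (q := q) hL1 hN0 hT1 hP1 K.A0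
    K.e1 K.e2 K.f10 K.e4 K.f11 hcB hcP3 hc.le hT0a hT0b hT5 hKmh hB0 hB2 hB1 hPa hq0 hq
    (by
      rw [div_le_iff₀ hN0, Real.rpow_neg hL0.le, ← div_eq_inv_mul,
        one_le_div (Real.rpow_pos_of_pos hL0 _)]
      simpa using gp1)
  exact hvar.trans (combine (A := A) hC gL hB0 hN0 hT0 hZ0 hZ hbr hq0 hq K.e9 hD1 hEE hD2 hsec)

end FINM

open FINM in
theorem specFIN : SpecFIN := by
  intro hVAR hPHI hBRG hHM2 hATY hHJS hSUP hHTS hHTA hPRC hLNS hUSET A hA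
  obtain ⟨C, hC, hV⟩ := hVAR 2 1000 (by norm_num) (by norm_num)
  obtain ⟨a0, ch0, nIJ, aF, A₁, aU, aQ, cw, s, K⟩ := Cst.exi hA
  obtain ⟨cM, hcM, hM2⟩ := hHM2
  obtain ⟨cS, hcS, _, hTS⟩ := hHTS cw K.f1
  obtain ⟨cA, hcA, _, hTA⟩ := hHTA cw K.f1
  obtain ⟨cU, hcU, hUS⟩ := hUSET
  obtain ⟨c, hc, hc1, hc2, hc3, hc4, hc5⟩ := exi_c hcM hcS hcA hcU
  refine ⟨cw, aU, aQ, aF, ch0 + 1, K.f1, K.f2, K.f3, K.f4, K.f5, K.f6', c / 2,
    by linarith only [hc], ?_⟩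
  intro ch hch δ hδ hδc
  obtain ⟨cPA, hPA⟩ := hATY c hc (by linarith only [hc5])
  refine ⟨max cPA (max (cw + 1) (4 / c * (2 * nIJ + A + 9))), fun cP hcP => ?_⟩
  have hcP1 : cPA ≤ cP := (le_max_left _ _).trans hcP
  have hcP2 : cw + 1 ≤ cP := (le_max_left _ _).trans ((le_max_right _ _).trans hcP)
  have hcP3 : 2 * nIJ + A + 9 ≤ cP * (c / 4) := by
    have h1 : 4 / c * (2 * nIJ + A + 9) ≤ cP :=
      (le_max_right _ _).trans ((le_max_right _ _).trans hcP)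
    calc 2 * nIJ + A + 9 = 4 / c * (2 * nIJ + A + 9) * (c / 4) := by field_simp
      _ ≤ cP * (c / 4) := mul_le_mul_of_nonneg_right h1 (by linarith only [hc])
  refine ⟨a0 + aF + 10, fun cT hcT => ⟨A + 2 * nIJ + 20, fun cB hcB => ?_⟩⟩
  have hδ1 : δ ≤ 1 / 100 := by linarith only [hδc, hc5]
  have hδS : δ ≤ cS := by linarith only [hδc, hc2, hc]
  have hδA : δ ≤ cA := by linarith only [hδc, hc3, hc]
  filter_upwards [hM2, hPA cP hcP1,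
    hSUP ch cw aQ aU (K.g1 hch) K.f2 K.f1 K.f4 δ cP cT cB hδ hδ1
      (K.g2 hcP2) hcP2 (K.g3 hcT) (K.g5 hcB),
    hTS ch aQ aU (K.g1 hch) K.f2 K.f4 δ cP cT cB hδ hδS
      (K.g2 hcP2) hcP2 (K.g3 hcT) (K.g5 hcB),
    hTA ch aQ aU (K.g1 hch) K.f2 K.f4 δ cP cT cB hδ hδA
      (K.g2 hcP2) hcP2 (K.g3 hcT) (K.g5 hcB),
    hPRC ch0 a0 aF aU aQ cw K.f6 (by linarith only [K.f7]) K.f8 K.f2 K.f1
      K.f4 ch hch δ cP cT cB hδ hδ1 hcP2 (K.g4 hcT) (K.g5 hcB),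
    hUS ch0 A₁ aQ K.f6 K.f9 K.f4 cw ch hch δ cP cT cB,
    HTAM.siz (ch := ch) (cw := cw) (δ := δ) (cP := cP) (cT := cT) (cB := cB) (K.g1 hch)
      K.f1 hδ1 (K.g2 hcP2) hcP2 (K.g3 hcT),
    Real.tendsto_log_atTop.eventually_ge_atTop (24000000 * C + 1000),
    ev_pow (A + 9) 1 1 one_pos one_pos,
    ev_pow (4 * cP + aU + s) (7 * c) 1 (by linarith only [hc]) one_pos,
    ev_pow 1 (c / 2) 1 (by linarith only [hc]) one_pos] with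
    N gM gA gSUP gTS gTA gPRC gUS gS gL gp1 gp2 gp3
  intro T P M B hbox
  obtain ⟨L, hL⟩ : ∃ L : ℝ, L = Real.log N := ⟨_, rfl⟩
  have hsiz := gS T P M B hbox
  have gSUP' := gSUP T P M B hbox
  have gTS' := gTS T P M B hbox
  have gTA' := gTA T P M B hbox
  have gPRC' := gPRC T P M B hbox
  have gUS' := gUS T P M B hbox
  clear gSUP gTS gTA gPRC gUS gS
  rw [← hL] at gL gp1 gp2 gp3 gSUP' gTS' gTA' gPRC' gUS' gA ⊢
  have hL1000 : 1000 ≤ L := by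
    have := mul_pos (by norm_num : (0 : ℝ) < 24000000) hC
    linarith only [this, gL]
  have hL0 : 0 < L := by linarith only [hL1000]
  have hL1 : 1 ≤ L := by linarith only [hL1000]
  have hN100 : (100 : ℝ) ≤ N := hsiz.N
  have hN0 : 0 < N := by linarith only [hN100]
  have hN1 : 1 ≤ N := by linarith only [hN100]
  obtain ⟨hT1, hP1, hM1, hB0, hBN, hLB, hLT, hT5, hTc, hZ, hlg, hM2a, hM2b⟩ :=
    sizes hL hL1000 hbox hsiz hc hc5 hδc gp3 K.f7 K.f5 hcT (K.g5 hcB)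
  obtain ⟨hm1, hmh, hKm1, hKmF, hKmN, hKmh, hT01, hT0a, hT0b⟩ :=
    nats (ch := ch) (ch0 := ch0) (a0 := a0) (aF := aF) hL1 hch K.f5 hB0 hBN hLB hLT hN0
  have hT11 : 1 ≤ ⌈4 * T⌉₊ := Nat.one_le_ceil_iff.2 (by linarith only [hT1])
  -- the set `U`
  obtain ⟨U, hUOK, E, hE1, hE2⟩ := gUS' ⌈4 * T⌉₊ ⌊L ^ aF * (N / B)⌋₊
    (hTc.trans (Real.rpow_le_rpow_of_exponent_le hN1 (by linarith only [hc4, hc]))) hT11 hKmN
  rw [← K.e6] at hUOK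
  have hF2 : (⌊L ^ aF * (N / B)⌋₊ : ℝ) ≤ N ^ 2 := hKmN.trans (by nlinarith only [hN1])
  have hUOK' : UOK (L ^ aQ) (L ^ aF * (N / B)) (L ^ aU) U :=
    ⟨hUOK.ch, fun i hi => (hUOK.frq i hi).trans hKmF, hUOK.adm, hUOK.dif, hUOK.one, hUOK.card⟩
  refine ⟨U, hUOK', ?_⟩
  have gPRC1 := gPRC' U hUOK'
  clear gPRC' gUS'
  revert gPRC1 hE1 hE2 hmh hm1 hKm1 hKmF hKmN hKmh hT01 hT0a hT0b hT5 hTc hlg hT11 hUOK hF2
  generalize ⌊L ^ ch / L ^ ch0⌋₊ = m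
  generalize ⌈4 * T⌉₊ = T1
  generalize ⌊T / L ^ a0⌋₊ = T0
  generalize ⌊L ^ aF * (N / B)⌋₊ = Km
  intro hT5 hTc hlg hm1 hmh hKm1 hKmF hKmN hKmh hT01 hT0a hT0b hT11 hUOK hE1 hE2 hF2 gPRC1
  have hHJ := hHJS (par N T P M ch cw) U m hsiz hm1
  have hPa : L ^ cP ≤ P := by rw [hL]; exact hbox.P1
  have hPb : P ≤ L ^ (2 * cP) := by rw [hL]; exact hbox.P2
  have hB1 : T * P * L ^ cB ≤ B := by rw [hL]; exact hbox.B1
  have hM0 : 0 < M := by linarith only [hM1]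
  have hP0 : 0 < P := by linarith only [hP1]
  -- the second part
  obtain ⟨D1, D2, EE, hD1, hEE, hD2, hsec⟩ := secbox (m := m) (Km := Km) (T0 := T0) (T1 := T1)
    (U := U) (E := E) (cP := cP) (ch := ch) K hPHI hBRG hL hL1000 hN1 hT1 hP1 hM0 hc hc1 hc2 hc3 hc5
    hTc hlg hT01 hKm1 hKmN hM2a hM2b hPa hPb hUOK.card
    (hHJ.2.2.2 (fun i hi => ⟨hUOK.adm i hi, (hUOK.ch i hi).2.2⟩))
    (fun j hj z => (Finset.single_le_sum (f := fun j => ‖HJ (par N T P M ch cw) U m j z‖)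
        (fun _ _ => norm_nonneg _) hj).trans ((hHJ.2.2.1 z).trans (gSUP' _ U hF2 hUOK z)))
    gM gA
    (fun i j => gTS' (Km : ℝ) U hF2 hUOK i m j hm1)
    (fun i j => gTA' (Km : ℝ) U hF2 hUOK i m j hm1)
    hE1 hE2 (by simpa only [one_mul] using gp2)
  -- the numbers of cells
  have hI : ((VV (L ^ ch0) P (2 * P)).card : ℝ) ≤ L ^ ch0 := by
    refine card_VV ?_ hP1
    calc (100 : ℝ) ≤ L := by linarith only [hL1000]
      _ = L ^ (1 : ℝ) := (Real.rpow_one L).symm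
      _ ≤ L ^ ch0 := Real.rpow_le_rpow_of_exponent_le hL1 K.f6
  have hJ : ((JJ (par N T P M ch cw) m).card : ℝ) ≤ 36 * (L ^ ch0) ^ 2 := by
    refine card_JJ hsiz.h (show (1 : ℝ) ≤ M from hM1) ?_ hm1
      (Real.one_le_rpow hL1 (by linarith only [K.f6])) ?_
    · exact (Real.one_le_rpow hN1 (by norm_num)).trans hM2a
    · have hh : (par N T P M ch cw).h = L ^ ch := by rw [hL]; rfl
      rw [hh]; exact hmh
  have hq : ((VV (L ^ ch0) P (2 * P)).card : ℝ) * (JJ (par N T P M ch cw) m).card ≤ L ^ nIJ := by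
    refine (mul_le_mul hI hJ (Nat.cast_nonneg _) (Real.rpow_nonneg hL0.le _)).trans ?_
    refine le_trans (le_of_eq ?_) (K.g6 (by linarith only [hL1000]))
    ring
  -- the variance inequality
  have hvar := hV _ _ _ _ _ _ _ (P ^ (1 - c / 8)) _ _ _ _ _ _ _ _ _
    ((ann (par N T P M ch cw).K (2 * (par N T P M ch cw).K)).filter prim) gPRC1
    (Real.rpow_nonneg hP0.le _) (by
      intro z hz
      rw [mem_filter] at hz
      obtain ⟨h1, h2⟩ := hz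
      unfold ann at h1
      rw [mem_filter, mem_disc] at h1
      exact ⟨h2, h1.2.le, h1.1.2⟩)
  have hlns := hLNS (par N T P M ch cw) U m (L ^ ch0) B hsiz hm1
    (Real.one_le_rpow hL1 (by linarith only [K.f6])) hB0.le
  have hw : (par N T P M ch cw).w = L ^ cw := by rw [hL]; rfl
  rw [hw] at hvar
  exact numbox K hC gL hN1 hT1 hP1 hc hB0 hbox.B2 hB1 hPa hcB hcP3 hT0a hT0b hT5 hKmh
    (by positivity) hq gp1 hZ hD1 hEE hD2 hsec ((le_of_eq hlns).trans hvar)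

end Pool.Agent.Lib.MP391708.XPU
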