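import Pool.Agent.Lib.MP_391708_nt.XP.Spec
import Pool.Agent.Lib.MP_391708_nt.X.U.Spec

/-!
# THEOREM X+ (MP_391708), part U: from the variance inequality `XV.SpecVAR` to `XP.SpecVAR`

This is `X/U/Spec.lean` with the parameters of `XP/Defs.lean`: `T`, `P`, `M` (the norm of `π₄`) are free in a `Box`; the moduli
`t ≤ T₁ = ⌈4T⌉` go up to a small power of `N`.

Modules: files `XP/U/XXX.lean`, `import Pool.Agent.Lib.MP_391708_nt.XP.U.Spec`, namespace `Pool.Agent.Lib.MP391708.XPU`, own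
lemmas in the namespace `XXXM`, `theorem specXXX (hYYY : SpecYYY) .. : SpecXXX` (hypotheses in the order of the brackets).
START FROM THE FILE `X/U/XXX.lean`.  The statements BRG, CON, NCD do not contain the parameters: they are `XU.SpecBRG`, `XU.SpecCON`,
`XU.SpecNCD`.  The statements of `X/SpecHM` are proved without hypotheses in `X/HM.lean` (`hm_hmt`, `hm_rg0`, `hm_rg1`, `hm_par`, ..) and may be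
cited.  `Box δ cP cT cB N T P M B` is: `ℓ^cP ≤ P ≤ ℓ^(2cP)`, `P ℓ^cT ≤ T ≤ N^δ`, `N^0.35 ≤ M ≤ N^0.45`, `T P ℓ^cB ≤ B`, `B² ≤ 2N`.
-/

set_option autoImplicit false

namespace Pool.Agent.Lib.MP391708.XPU

open Finset Filter Topology Pool.Agent.Lib.MP391708.MR
open Pool.Agent.Lib.MP391708.X (ChiG hk Dist Fam rgh Ix psi ix1 UOK lc On)
open Pool.Agent.Lib.MP391708.XP (Par par Box RR S4 S2 I4 I2 eta kap Eta Kap Var)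
open Pool.Agent.Lib.MP391708.XV (md chs ph hat atyp)
open Pool.Agent.Lib.MP391708.XU (fn ixq GG Eqv SpecBRG SpecCON SpecNCD)
open scoped ComplexConjugate

/-! ## Definitions -/

/-- the sum over a coarse cell of `π₄` -/
noncomputable def G4 (p : Par) (m : ℕ) (i : Ix) (a : ℕ) : ℂ := ∑ π ∈ GG p.h p.M4 m a, psi i π

/-- the sum over a coarse cell of `π₂` (first quadrant) -/
noncomputable def G2 (p : Par) (m : ℕ) (i : Ix) (a : ℕ) : ℂ := ∑ π ∈ GG p.h p.M2 m a, psi i π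

/-- the indices of the pairs of coarse cells, coded by `Nat.pair` -/
noncomputable def JJ (p : Par) (m : ℕ) : Finset ℕ :=
  (((I4 p).image (fun v => v / m)) ×ˢ ((I2 p).image (fun v => v / m))).image (fun q => Nat.pair q.1 q.2)

/-- the bound for the norm of `z'` -/
noncomputable def MM' (p : Par) : ℝ := 2 * p.N * p.T / p.P

open scoped Classical in
/-- the radial cell of `z'` of the pair `j` -/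
noncomputable def SJ (p : Par) (m j : ℕ) : Finset Gi :=
  (disc (MM' p)).filter (fun z => rgh p.w z ∧ m * ((Nat.unpair j).1 + (Nat.unpair j).2) ≤ ⌊p.h * Real.log (nm z)⌋₊ ∧
    ⌊p.h * Real.log (nm z)⌋₊ + 1 ≤ m * ((Nat.unpair j).1 + (Nat.unpair j).2) + 2 * m)

/-- the part of `Eta - Kap` of the pair `j` of coarse cells -/
noncomputable def HJ (p : Par) (U : Finset Ix) (m j : ℕ) (z : Gi) : ℂ :=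
  ∑ v4 ∈ (I4 p).filter (fun v => v / m = (Nat.unpair j).1), ∑ v2 ∈ (I2 p).filter (fun v => v / m = (Nat.unpair j).2),
    (eta p v4 v2 z - kap p U v4 v2 z)

/-- the size conditions used below -/
structure Siz (p : Par) : Prop where
  N : 100 ≤ p.N
  h : 1 ≤ p.h
  w : 2 ≤ p.w
  P : 2 ≤ p.P
  wP : p.w < p.P
  T : 64 * p.P ≤ p.T
  M : 10 ≤ p.M
  wM : p.w < p.M
  /-- `M ≤ √N`: then `M2 = NT/(16PM) ≥ 4M` -/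
  MN : p.M ^ 2 ≤ p.N
  TM : 100 * p.T ^ 2 ≤ p.M

/-! ## Characters -/

/-- LVX (150 lines, from HM: `hm_hmt`, BRG).  Few characters have a large sum over primes of norm about `M`.
Proof.  `c` = a sixth of the `c` of HMT with `A = 7`.  Suppose `#W > 300 ℓ^(2 A₁)`; take `W' ⊆ W` with `⌊300 ℓ^(2 A₁)⌋ + 1 ≤ x^c` elements,
`x = 2M ≥ 2 N^(1/3)` (`|k| ≤ N^2 ≤ x^7`), moduli of norm `i.1² ≤ N^(2c) ≤ x^(..)`, `y = M`, `y' = 2M`, `a` = the indicator of `G`: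
`#W' · M² ℓ^(-2 A₁) ≤ (π M + x^(1-c)) #G ≤ 6 M · 9 · 2 M = 108 M²` (`MR` `card_disc_le`), contradiction. -/
def SpecLVX : Prop := ∃ c : ℝ, 0 < c ∧ ∀ A₁ : ℝ, 0 ≤ A₁ → ∀ᶠ N : ℝ in atTop, ∀ (M : ℝ) (W : Finset Ix) (G : Finset Gi),
  N ^ (1 / 3 : ℝ) ≤ M → M ≤ N → G ⊆ GP M (2 * M) →
  (∀ i ∈ W, 1 ≤ i.1 ∧ (i.1 : ℝ) ≤ N ^ c ∧ ChiG (i.1 : Gi) i.2.1 ∧ |(i.2.2 : ℝ)| ≤ N ^ 2) →
  (∀ i ∈ W, ∀ j ∈ W, i ≠ j → Dist i.2.1 j.2.1 i.2.2 j.2.2) →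
  (∀ i ∈ W, M * Real.log N ^ (-A₁) < ‖∑ π ∈ G, psi i π‖) →
    (W.card : ℝ) ≤ 300 * Real.log N ^ (2 * A₁)

/-- HM2 (120 lines, from HM: `hm_hmt`, BRG).  Mean square over a set of characters modulo `t` of size `≤ N^c`.
Proof.  HMT with `ι = MulChar × ℤ` (transport the universe: `MulChar (Cls.RR (md t)) ℂ × ℤ` is a `Type`), `A = 5`, `x = 2 M`, `y = M`,
`y' = 2M`, `Dist` by BRG (3), `N^(1/4) ≤ M`, moduli of norm `t² ≤ N^(2c)`: `c` = an eighth of the `c` of HMT. -/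
def SpecHM2 : Prop := ∃ c : ℝ, 0 < c ∧ ∀ᶠ N : ℝ in atTop, ∀ (t : ℕ) (M : ℝ) (G : Finset Gi)
  (W : Finset (MulChar (Cls.RR (md t)) ℂ × ℤ)), 1 ≤ t → (t : ℝ) ≤ N ^ c → N ^ (1 / 4 : ℝ) ≤ M → M ≤ N →
  G ⊆ GP M (2 * M) → (∀ q ∈ W, |(q.2 : ℝ)| ≤ N) → (W.card : ℝ) ≤ N ^ c →
    ∑ q ∈ W, ‖∑ π ∈ G, hk (fn t q.1) q.2 π‖ ^ 2 ≤ 200 * M ^ 2

/-- ATY (250 lines, from XV.SpecMOT).  The number of atypical characters is `≤ N^c`.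
Proof.  MOT with `R = 2P₀`, `τ = P₀^(1-c/8)`, `l = ⌈1.2 log N / log P₀⌉`.  `P₀^l ≥ N^1.2 ≥ t² Km` (`Km ≤ N`, `t² ≤ N^0.1`), so the last
bracket is `≤ 2 R^(2l)` and `#atyp ≤ 2 C l!² (1 + l log R) 4^l P₀^(c l/4)`.  `P₀^l ≤ N^1.2 P₀`, so `P₀^(c l/4) ≤ N^(0.3 c) P₀`, `P₀ ≤ ℓ^(2cP)`; `4^l = N^o(1)`;
`l ≤ 1.2 ℓ/(cP log ℓ) + 1`, `l! ≤ l^l`, `log l ≤ log ℓ` (`cP ≥ 2`), so `l!² ≤ exp(2 l log ℓ) ≤ exp(2.4 ℓ/cP + 2 log ℓ)`: for `cP ≥ 24/c` this is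
`≤ N^(0.1 c) ℓ²`.  Total `≤ N^(0.4 c + o(1))`. -/
def SpecATY : Prop := ∀ c : ℝ, 0 < c → c ≤ 1 → ∃ cP0 : ℝ, ∀ cP : ℝ, cP0 ≤ cP → ∀ᶠ N : ℝ in atTop,
  ∀ (t Km : ℕ) (P₀ : ℝ) (P : Finset Gi), 2 ≤ t → (t : ℝ) ≤ N ^ (1 / 20 : ℝ) → 1 ≤ Km → (Km : ℝ) ≤ N →
  Real.log N ^ cP ≤ P₀ → P₀ ≤ Real.log N ^ (2 * cP) → P ⊆ GP P₀ (2 * P₀) →
    ((atyp t Km (P₀ ^ (1 - c / 8)) P).card : ℝ) ≤ N ^ c

/-! ## The model -/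

/-- SUP (200 lines, from HM: `hm_hmt`, `hm_rg0`, CEL of helper63).  The pointwise bound.
Proof.  As in `X/U/SUP.lean`: `∑ eta ≤ 1` (unique factorisation: `z ~ π₄ π₂` determines the pair; `2 M4 < M2`).  For `z ∈ lc h j`, rough:
`∑_(v4+v2=j) ‖kap‖ ≤ ∑_(v4+v2=j) (∑_U |S4|²)^(1/2) (∑_U |S2|²)^(1/2) / RR`, and HMT for the cells
(`cell h M 2M v ⊆ ann` of length `≤ 3M/h`, `M4, M2 ≥ N^(1/3)`) gives `∑_U |S4(v4)|² ≤ C (M₄/h)²`,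
`∑_U |S2|² ≤ C (M₂/h)²`, `RR ≥ c e^(j/h)/(h log w)`, `e^(j/h) ≥ M₄ M₂/8` (RG0 with `x = N T`; main term against `x^(1-c)`: `M₄ M₂ = NT/(16P)`,
`P` a power of `ℓ`), at most `h + 2` pairs: total `≤ C (log w)^2 ≤ ℓ - 1`. -/
def SpecSUP : Prop := ∀ ch cw aQ aU : ℝ, 1 ≤ ch → 2 * aQ ≤ cw → 1 ≤ cw → 1 ≤ aQ → ∀ δ cP cT cB : ℝ, 0 < δ → δ ≤ 1 / 100 →
  1 ≤ cP → cw + 1 ≤ cP → 1 ≤ cT → 1 ≤ cB → ∀ᶠ N : ℝ in atTop, ∀ T P M B : ℝ, Box δ cP cT cB N T P M B →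
  ∀ (F : ℝ) (U : Finset Ix), F ≤ N ^ 2 → UOK (Real.log N ^ aQ) F (Real.log N ^ aU) U → ∀ z : Gi,
    ∑ v4 ∈ I4 (par N T P M ch cw), ∑ v2 ∈ I2 (par N T P M ch cw),
      (‖eta (par N T P M ch cw) v4 v2 z‖ + ‖kap (par N T P M ch cw) U v4 v2 z‖) ≤ Real.log N

/-- RGS (150 lines, from HM: `hm_rg1`).  Different characters over the rough elements of a lattice cell.
Proof.  `lc h j` is `ann y y'` with `y = ⌈e^(j/h)⌉ - 1`, `y' = ⌈e^((j+1)/h)⌉ - 1` (integer norms; elements `≠ 0`).  RG1 with `A = 5`,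
`A' = cw`, `x = N^(1+c)`, where `c` is a quarter of the `c'` of RG1 (norms of the moduli `≤ N^(2c) ≤ x^c'`): `x^(1-c') ≤ N^(1-c)`. -/
def SpecRGS : Prop := ∀ cw : ℝ, 1 ≤ cw → ∃ c : ℝ, 0 < c ∧ c ≤ 1 ∧ ∀ᶠ N : ℝ in atTop,
  ∀ (i j : Ix) (h : ℝ) (v : ℕ) (S : Finset Gi), 1 ≤ h → Real.exp ((v + 1) / h) ≤ N ^ (1 + c) →
  (1 ≤ i.1 ∧ (i.1 : ℝ) ≤ N ^ c ∧ ChiG (i.1 : Gi) i.2.1 ∧ |(i.2.2 : ℝ)| ≤ N ^ 2) →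
  (1 ≤ j.1 ∧ (j.1 : ℝ) ≤ N ^ c ∧ ChiG (j.1 : Gi) j.2.1 ∧ |(j.2.2 : ℝ)| ≤ N ^ 2) →
  Dist i.2.1 j.2.1 i.2.2 j.2.2 → (∀ z, z ∈ S ↔ z ∈ lc h v ∧ rgh (Real.log N ^ cw) z) →
    ‖∑ z ∈ S, psi i z * conj (psi j z)‖ ≤ N ^ (1 - c)

/-- HJS (200 lines).  The cells.
Proof.  As in `X/U/HJS.lean` (there `M4 = √N`; here `w < M4`, `M4 ≥ 10`, and `M2 = NT/(16PM) ≥ 4N/M ≥ 4M` by `Siz.T`, `Siz.MN`).
`v / m` determines the group; the pair `(v4, v2)` is in exactly one `j ∈ JJ` (`Nat.unpair_pair`).  Support: `kap ≠ 0` gives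
`z ∈ lc (v4+v2)`, `v4 ∈ [m a, m a + m - 1]`, `v2 ∈ [m b, m b + m - 1]`.  `eta ≠ 0`: `z ~ π₄ π₂`, `h log nm z = h log nm π₄ + h log nm π₂`, floor
`v4 + v2` or `v4 + v2 + 1`; a prime dividing `z` is associated to `π₄` or `π₂`, of norm `> M4 > w` resp. `> M₂ > w`.  Norms
`< e^((v4+v2+1)/h)`, `v4 ≤ h log (2 M₄)`, `v2 ≤ h log (2 M₂)` for `kap`; in all cases `≤ e · 4 M₄ M₂ = e N T/(4P) ≤ MM'`.
(4): `ψ_i(i z) = ψ_i(i) ψ_i(z)`, norm and roughness do not change, `eta` depends on the class of associates (`z = 0`: both `0`). -/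
def SpecHJS : Prop := ∀ (p : Par) (U : Finset Ix) (m : ℕ), Siz p → 1 ≤ m →
  (∀ j z, HJ p U m j z ≠ 0 → z ∈ SJ p m j) ∧
  (∀ z, ∑ j ∈ JJ p m, HJ p U m j z = Eta p z - Kap p U z) ∧
  (∀ z, ∑ j ∈ JJ p m, ‖HJ p U m j z‖ ≤ ∑ v4 ∈ I4 p, ∑ v2 ∈ I2 p, (‖eta p v4 v2 z‖ + ‖kap p U v4 v2 z‖)) ∧
  ((∀ i ∈ U, psi i ⟨0, 1⟩ = 1 ∧ ChiG (i.1 : Gi) i.2.1) → ∀ j z, HJ p U m j (⟨0, 1⟩ * z) = HJ p U m j z)

/-- ETH (200 lines).  The sum of `eta` against a character.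
Proof.  As in `X/U/ETH.lean`: `q = (t, χ, k)` with `ψ_q(i) = 1`: `∑_z eta(z) ψ_q(z)` over the `z ∈ SJ` (which contains the support, HJS) is
`∑_(π₄, π₂) ∑_(u unit) ψ_q(u π₄ π₂) = 4 ∑ ψ_q(π₄) ∑ ψ_q(π₂)` (four different associates), `ψ_q` multiplicative on nonzero elements.
(The group: `v4` with `v4 / m = a`, `π₄ ∈ cell v4` iff `⌊h log nm π₄⌋ = v4`.) -/
def SpecETH : Prop := ∀ (p : Par) (m j : ℕ) (i : Ix), Siz p → 1 ≤ m → 1 ≤ i.1 → ChiG (i.1 : Gi) i.2.1 → psi i ⟨0, 1⟩ = 1 →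
  ∑ z ∈ SJ p m j, (∑ v4 ∈ (I4 p).filter (fun v => v / m = (Nat.unpair j).1),
      ∑ v2 ∈ (I2 p).filter (fun v => v / m = (Nat.unpair j).2), eta p v4 v2 z) * psi i z =
    4 * G4 p m i (Nat.unpair j).1 * G2 p m i (Nat.unpair j).2

/-- HTS (200 lines, from RGS, HJS, ETH).  The sum of `HJ` against a character different from all of `U`.
Proof.  As in `X/U/HTS.lean`; `c` = half the `c` of RGS (and `≤ 1/10`); the cells: `e^((j+1)/h) ≤ e · 4 M₄ M₂ ≤ N T ≤ N^(1+δ)`, `δ ≤ c`.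
ETH for the `eta` part.  The `kap` part: `∑_z kap(z) ψ_q(z) = ∑_(i∈U) cc_i ∑_(z ∈ lc (v4+v2), rough) conj ψ_i ψ_q`, each inner sum
`≤ N^(1-c)` (RGS), and `|cc_i| ≤ |S4| |S2| / RR`, where
`|S4(v4)| ≤ #cell(v4)`, `|S2(v2)| ≤ 4 #cell(v2)`, `#cell(v4) #cell(v2) ≤ C M₄ M₂` and `RR ≥ M₄ M₂/ℓ^(ch+2)` (RG0 with `x = N T`: the main term is at least `x/ℓ^(2cP+ch+..)`,
the error `x^(1-c)`), so `|cc_i| ≤ ℓ^(ch+3)`; the number of `(v4, v2, i)` is a power of `ℓ`. -/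
def SpecHTS : Prop := ∀ cw : ℝ, 1 ≤ cw → ∃ c : ℝ, 0 < c ∧ c ≤ 1 ∧ ∀ ch aQ aU : ℝ, 1 ≤ ch → 2 * aQ ≤ cw → 1 ≤ aQ →
  ∀ δ cP cT cB : ℝ, 0 < δ → δ ≤ c → 1 ≤ cP → cw + 1 ≤ cP → 1 ≤ cT → 1 ≤ cB →
  ∀ᶠ N : ℝ in atTop, ∀ T P M B : ℝ, Box δ cP cT cB N T P M B → ∀ (F : ℝ) (U : Finset Ix), F ≤ N ^ 2 →
  UOK (Real.log N ^ aQ) F (Real.log N ^ aU) U → ∀ (i : Ix) (m j : ℕ), 1 ≤ m →
  1 ≤ i.1 → (i.1 : ℝ) ≤ N ^ c → ChiG (i.1 : Gi) i.2.1 → |(i.2.2 : ℝ)| ≤ N ^ 2 → psi i ⟨0, 1⟩ = 1 →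
  (∀ u ∈ U, Dist i.2.1 u.2.1 i.2.2 u.2.2) →
    ‖∑ z ∈ SJ (par N T P M ch cw) m j, HJ (par N T P M ch cw) U m j z * psi i z‖ ≤
      4 * ‖G4 (par N T P M ch cw) m i (Nat.unpair j).1‖ * ‖G2 (par N T P M ch cw) m i (Nat.unpair j).2‖ + N ^ (1 - c)

/-- HTA (250 lines, from RGS, NCD, HJS, ETH, SUP).  The sum of `HJ` against a character `i = (t, χ, k)` which is `u ∈ U` on the elements
coprime to `t`.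
Proof.  As in `X/U/HTA.lean`; `c` = half the `c` of RGS, and `c ≤ 1/10`, so that `t² ≤ N^(2c) < N^0.35 ≤ M4`.
`eta` part: `4 G4(i) G2(i) = 4 G4(u) G2(u)` (the `π₄`, `π₂` have norm `> t²`, so they are coprime to `t`, where `ψ_i = ψ_u`)
`= ∑_(v4,v2) S4(u) S2(u)` (the groups).  `kap` part: the `z` are rough.  For `z` coprime to `t` one has `ψ_i(z) = ψ_u(z)`, for the others
`ψ_i(z) = 0`, so it is `∑_(v4,v2) ∑_(z ∈ lc, rough) kap(z) ψ_u(z)` minus the sum over the `z` not coprime to `t`, which is in absolute value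
`≤ ∑_(z ∈ SJ, not coprime) ∑_(v4,v2) ‖kap(z)‖ ≤ ℓ · 40 (1 + log t) MM'/w` (SUP, NCD, `|ψ_u| ≤ 1`).  And
`∑_(z ∈ lc, rough) kap ψ_u = cc_u RR + ∑_(u' ≠ u) cc_u' ∑ conj ψ_u' ψ_u = S4(u) S2(u) + O(#U ℓ^(ch+3) N^(1-c))` (`|ψ_u(z)| = 1` for rough `z`: the
primes dividing the modulus have norm `≤ ℓ^(2 aQ) ≤ w`; RGS; `RR > 0` by RG0).  The main parts cancel. -/
def SpecHTA : Prop := ∀ cw : ℝ, 1 ≤ cw → ∃ c : ℝ, 0 < c ∧ c ≤ 1 ∧ ∀ ch aQ aU : ℝ, 1 ≤ ch → 2 * aQ ≤ cw → 1 ≤ aQ →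
  ∀ δ cP cT cB : ℝ, 0 < δ → δ ≤ c → 1 ≤ cP → cw + 1 ≤ cP → 1 ≤ cT → 1 ≤ cB →
  ∀ᶠ N : ℝ in atTop, ∀ T P M B : ℝ, Box δ cP cT cB N T P M B → ∀ (F : ℝ) (U : Finset Ix), F ≤ N ^ 2 →
  UOK (Real.log N ^ aQ) F (Real.log N ^ aU) U → ∀ (i : Ix) (m j : ℕ), 1 ≤ m →
  1 ≤ i.1 → (i.1 : ℝ) ≤ N ^ c → ChiG (i.1 : Gi) i.2.1 →
  (∃ u ∈ U, i.2.2 = u.2.2 ∧ ∀ z, i.2.1 z ≠ 0 → u.2.1 z = i.2.1 z) →
    ‖∑ z ∈ SJ (par N T P M ch cw) m j, HJ (par N T P M ch cw) U m j z * psi i z‖ ≤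
      40 * (1 + Real.log i.1) * Real.log N * MM' (par N T P M ch cw) / (par N T P M ch cw).w + N ^ (1 - c)

/-- PRC (250 lines, from HJS, SUP).  The hypotheses of the variance inequality.
Proof.  As in `X/U/PRC.lean`.  `p = par N T P M ch cw`, `κ = 2`, `ρ = 1000`, `K = p.K`, `Y = 2NT`, `η = 3/hc`, `hc = ℓ^ch0` (coarse), `m = ⌊h/hc⌋ ≥ 1`, `M = MM'`,
`F = ℓ`, `T₀ = ⌊T/ℓ^a₀⌋`, `T₁ = ⌈4T⌉`, `Km = ⌊ℓ^aF N/B⌋`, `I = VV hc P 2P`, `P_i = cell hc P 2P i`, `L i j = e^(i/hc) e^(m(a+b)/h)`.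
`8Y = 16NT ≤ T₁² K` (`T₁ ≥ 4T`), `T₁² K ≤ 25 T² N/T ≤ 32NT`; `T₁ ≤ 5T ≤ B` (Box.B1); `32·1000·T₁ B ≤ 2NT` for `B ≤ 2√N`; `π Y ≤ 8 T₀ B Km` from
`T₀ ≥ T ℓ^(-a₀)/2` (`T ≥ ℓ^cT`, `cT ≥ a₀ + 2`) and `aF ≥ a₀ + 1`.  `L`: `i ≥ hc log P - 1`, `m a ≥ h log M₄ - m - 1`.., so `L ≥ P M₄ M₂ e^(-5) ≥ Y/ρ`.. with `P M₄ M₂ = NT/16`
(`e^(-1/hc - 2m/h - 2/h) ≥ 1/2` for `hc` large, so `L ≥ NT/32 = Y/64`); `e^η L ≤ 2 · 8 P M₄ M₂ = NT ≤ Y`.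
`hL'`: for `p ∈ P_i`: `e^(i/hc) ≤ nm p < e^((i+1)/hc)`; for `z ∈ SJ j`: `e^(m(a+b)/h) ≤ nm z < e^((m(a+b)+2m)/h)`, `2m/h ≤ 2/hc`.
`hh`: HJS (3) and SUP. -/
def SpecPRC : Prop := ∀ (ch0 a₀ aF aU aQ cw : ℝ), 1 ≤ ch0 → 0 < a₀ → a₀ + 1 ≤ aF → 2 * aQ ≤ cw → 1 ≤ cw → 1 ≤ aQ →
  ∀ ch : ℝ, ch0 + 1 ≤ ch → ∀ δ cP cT cB : ℝ, 0 < δ → δ ≤ 1 / 100 → cw + 1 ≤ cP → a₀ + 2 ≤ cT → 1 ≤ cB →
  ∀ᶠ N : ℝ in atTop, ∀ T P M B : ℝ, Box δ cP cT cB N T P M B → ∀ U : Finset Ix,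
  UOK (Real.log N ^ aQ) (Real.log N ^ aF * (N / B)) (Real.log N ^ aU) U →
  XV.Par 2 1000 (par N T P M ch cw).K (2 * N * T) B (3 / Real.log N ^ ch0) (par N T P M ch cw).w
    (MM' (par N T P M ch cw)) (Real.log N) ⌊T / Real.log N ^ a₀⌋₊ ⌈4 * T⌉₊ ⌊Real.log N ^ aF * (N / B)⌋₊
    (VV (Real.log N ^ ch0) P (2 * P)) (JJ (par N T P M ch cw) ⌊Real.log N ^ ch / Real.log N ^ ch0⌋₊)
    (fun i j => Real.exp (i / Real.log N ^ ch0) *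
      Real.exp (⌊Real.log N ^ ch / Real.log N ^ ch0⌋₊ * ((Nat.unpair j).1 + (Nat.unpair j).2) / Real.log N ^ ch))
    (fun i => cell (Real.log N ^ ch0) P (2 * P) i)
    (SJ (par N T P M ch cw) ⌊Real.log N ^ ch / Real.log N ^ ch0⌋₊)
    (HJ (par N T P M ch cw) U ⌊Real.log N ^ ch / Real.log N ^ ch0⌋₊)

/-- LNS (150 lines, from HJS).  The left side of the variance inequality is `Var`.
Proof.  As in `X/U/LNS.lean`: `ls p ζ b (Eta - Kap) = ∑_π ∑_z (Eta - Kap)(z)`; `GP P 2P` is the disjoint union of the `cell hc P 2P i`, `i ∈ VV`; `(Eta - Kap)(z) =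
∑_j HJ j z`, supported on `SJ j ⊆ disc (NT)`; `On (ζ π) b z` is `(ζ π z).im = b ∧ 0 < (ζ π z).re`.  `Ioc ⌊B⌋₊ ⌊2B⌋₊` and `Ioc ⌊B⌋ ⌊2B⌋` correspond (`B ≥ 0`). -/
def SpecLNS : Prop := ∀ (p : Par) (U : Finset Ix) (m : ℕ) (hc B : ℝ), Siz p → 1 ≤ m → 1 ≤ hc → 0 ≤ B →
  Var p B (fun z => Eta p z - Kap p U z) =
    ∑ z1 ∈ (ann p.K (2 * p.K)).filter prim, ∑ b ∈ Ioc ⌊B⌋ ⌊2 * B⌋, ‖∑ i ∈ VV hc p.P (2 * p.P), ∑ j ∈ JJ p m,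
      ∑ π ∈ cell hc p.P (2 * p.P) i, ∑ z ∈ (SJ p m j).filter (fun z => (z1 * (π * z)).im = b ∧ 0 < (z1 * (π * z)).re),
        HJ p U m j z‖ ^ 2

/-- the character is large on some coarse cell of `π₄`, or it is the trivial one -/
def Lrg (p : Par) (m : ℕ) (A₁ : ℝ) (i : Ix) : Prop :=
  Eqv i ix1 ∨ ∃ a ∈ (I4 p).image (fun v => v / m), p.M * Real.log p.N ^ (-A₁) < ‖G4 p m i a‖

/-- USET (300 lines, from BRG, CON, LVX).  The set `U`.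
Proof.  As in `X/U/USET.lean`; `c` = the least of the `c` of LVX and `1/10` (then `T₁² ≤ N^(2c) < N^0.35 ≤ M`, so the `π₄` are coprime to the moduli), `1 + log T₁ ≤ ℓ`.
Let `C` be the finite set of the indices `ixq t q`, `1 ≤ t ≤ T₁`, `q ∈ chs t × IK Km`, with `ψ(i) = 1` and `Lrg`.  Let `W ⊆ C` be a maximal
subset whose elements are pairwise `Dist`.  Every `q ∈ C` is `Eqv` to some `w ∈ W` (if `q ∈ W`: itself).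
For each `a` the `w ∈ W` with `‖G4 w a‖` large are at most `300 ℓ^(2 A₁)` (LVX with `M`), one `w` is `Eqv ix1` at most,
and the number of `a` is `≤ 4 hc + 4` (`m ≥ h/(2 hc)`): so `#W ≤ ℓ^(2 A₁ + ch0 + 1)`.
CON gives `(f_w, χ*_w)` for `w ∈ W`.  `U` = the `(f_w, χ*_w, k_w)` with `f_w ≤ ℓ^aQ`.  UOK: `Dist` from the `Dist` of the `w`; `ψ(i) = 1`;
`ix1 ∈ U`.
Conclusion (a): `q` large and `Eqv w`, `f_w ≤ ℓ^aQ`: the last clause of CON for `t`, `χ_q` gives `χ*_w z = χ_q z` where `χ_q z ≠ 0`.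
(b): the `q` large and `Eqv w` with `f_w > ℓ^aQ`: `f_w ∣ t`; for fixed `t` and `w` at most one `q`.  So
`∑_t (1/t) #{such q} ≤ ∑_w ∑_(f_w ∣ t ≤ T₁) 1/t ≤ #W (1 + log T₁) ℓ^(-aQ) ≤ ℓ^(2 A₁ + ch0 + 2 - aQ)`.
(c): `q` not large (with `ψ(i) = 1`) is `Dist` from all `u ∈ U`: as in X. -/
def SpecUSET : Prop := ∃ c : ℝ, 0 < c ∧ ∀ ch0 A₁ aQ : ℝ, 1 ≤ ch0 → 1 ≤ A₁ → 1 ≤ aQ → ∀ cw ch : ℝ, ch0 + 1 ≤ ch →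
  ∀ δ cP cT cB : ℝ, ∀ᶠ N : ℝ in atTop, ∀ T P M B : ℝ, Box δ cP cT cB N T P M B →
  ∀ (T₁ Km : ℕ), (T₁ : ℝ) ≤ N ^ c → 1 ≤ T₁ → (Km : ℝ) ≤ N →
  ∃ U : Finset Ix, UOK (Real.log N ^ aQ) Km (Real.log N ^ (2 * A₁ + ch0 + 2)) U ∧
    ∃ E : (t : ℕ) → Finset (MulChar (Cls.RR (md t)) ℂ × ℤ),
      (∑ t ∈ Icc 1 T₁, ((E t).card : ℝ) / t ≤ Real.log N ^ (2 * A₁ + ch0 + 3 - aQ)) ∧
      ∀ t : ℕ, 1 ≤ t → t ≤ T₁ → ∀ q : MulChar (Cls.RR (md t)) ℂ × ℤ, q.1 ∈ chs t → q.2 ∈ IK Km →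
        psi (ixq t q) ⟨0, 1⟩ = 1 →
        q ∈ E t ∨ (∃ u ∈ U, q.2 = u.2.2 ∧ ∀ z, fn t q.1 z ≠ 0 → u.2.1 z = fn t q.1 z) ∨
          ((∀ u ∈ U, Dist (fn t q.1) u.2.1 q.2 u.2.2) ∧ ∀ a ∈ (I4 (par N T P M ch cw)).image
            (fun v => v / ⌊Real.log N ^ ch / Real.log N ^ ch0⌋₊),
            ‖G4 (par N T P M ch cw) ⌊Real.log N ^ ch / Real.log N ^ ch0⌋₊ (ixq t q) a‖ ≤
              M * Real.log N ^ (-A₁))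

/-- FIN (350 lines, strong; from XV.SpecVAR, XV.SpecPHI, BRG, HM2, ATY, HJS, SUP, HTS, HTA, PRC, LNS, USET).  `XP.SpecVAR`.
Proof.  As in `X/U/FIN.lean`.  Given `A`.  Constants in this order: `a₀ = A + 9`; `ch0 = A + 2 a₀ + 10` (`η = 3/hc`); `nIJ = 3 ch0 + 4` (`#I #J ≤ ℓ^nIJ`:
`#I ≤ 2 hc`, `#J ≤ (4 hc + 4)²`); `aF = A + 2 nIJ + a₀ + 10`; `A₁ = A + 2 nIJ + 10`; `aU = 2 A₁ + ch0 + 2`;
`aQ = A + aU + 2 nIJ + 20`; `cw = 2 aQ + A + aU + 2 nIJ + 20`; `c` = the least of the `c` of HM2, HTS, HTA, USET and `1/20`, divided by `4`; `δ0 = c/2`;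
then `ch`, `δ` are given; ATY with `c`: `cP0 ≥` max of everything and `(8/c)(A + 2 nIJ + 20)`; `cT0 = a₀ + aF + 10`, `cB0 = A + 2 nIJ + 20`.
Let `N` be large, `Km = ⌊ℓ^aF N/B⌋ ≤ N`, `T₁ = ⌈4T⌉ ≤ 5 N^δ ≤ N^c`, `U`, `E` from USET (UOK with `Km ≤ ℓ^aF (N/B)`; weaken `frq`).  LNS and XV.SpecVAR with PRC,
`τ = P^(1 - c/8)`.  `BY = 2 B N T = 2 B K T²`.  First part: `C ℓ^2 (1+log Y)^5 BY (..)`, `≤ ℓ^8 BY (..)` and every term in the bracket is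
`≤ ℓ^(-A-9)`: `T₀ √(K/Y) ≤ ℓ^(-a₀)`; `η (Y/(T₀² K) + 1) ≤ (3/hc)(8 ℓ^(2 a₀) + 1)`; `B²/(KY) = B²/(2N²) ≤ 1/N`; `1/w`; `1/B`; `(#I#J)² τ² (M/Y)² = (#I#J)² P^(-c/4)`;
`(#I#J)² τ² T₁ M/(BY) ≤ ℓ^(2 nIJ) P² · 5T/(P B) ≤ 5 ℓ^(2 nIJ - cB)` (Box.B1); `(#I#J)² Y/(B Km) (1/B + 1/T₀) ≤ ℓ^(2 nIJ) · 4 T ℓ^(-aF) (1/B + 2 ℓ^a₀/T)`.
Second part: `t/ph t ≤ (1 + 2 log t)²/t ≤ ℓ²/t` (PHI; `log t ≤ log (5 N^δ) ≤ ℓ/4`), `∑_(t ≤ T₁) 1/t ≤ ℓ`.  `hat = ∑ f hk` (BRG).  `‖hat P_i‖ ≤ #P_i ≤ 18 P`.  For `q` with `ψ_q(i) ≠ 1`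
the sum over `S_j` of `HJ ψ_q` is `0` (HJS (4), `SJ` is invariant under `z ↦ i z`: apply it once, `(1 - ψ_q(i)) ∑ = 0`).  For the others, by USET three cases:
`q ∈ E t`: `‖hat HJ‖ ≤ ℓ #S_j ≤ 9 ℓ M`; `∑_t (ℓ²/t) #E t ≤ ℓ^(aU + 3 - aQ)`;
`q` = some `u ∈ U`: HTA: `‖hat HJ‖ ≤ ℓ^3 M/w + N^(1-c)` (`log t ≤ ℓ/4`); for every `t` at most `#U` such `q` (the `q` with the same `u` are equal, BRG);
the others: HTS: `‖hat HJ‖² ≤ 32 (M₄ ℓ^(-A₁))² ‖G2 q b‖² + 2 N^(2-2c)`, `∑_(q ∈ atyp) ‖G2 q b‖² ≤ 200 M₂²` (HM2; `#atyp ≤ N^c`, ATY;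
`b` fixed), and `#atyp N^(2-2c') ≤ N^(2 - c)`.
In all cases (`(18P)² MM'² ≤ 1500 Y²`, `P M₄ M₂ = NT/16`) the second part is at most
`C ℓ^nIJ (B/Y) · ℓ^nIJ · C Y² (ℓ^(aU+3-aQ) ℓ^2 + ℓ^(aU + 9) /w² + ℓ^(4 - 2 A₁) + N^(-c/2)) ≤ BY ℓ^(-A-1)`. -/
def SpecFIN : Prop := XV.SpecVAR → XV.SpecPHI → SpecBRG → SpecHM2 → SpecATY → SpecHJS → SpecSUP → SpecHTS → SpecHTA →
  SpecPRC → SpecLNS → SpecUSET → XP.SpecVAR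

end Pool.Agent.Lib.MP391708.XPU
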