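import Pool.Agent.Lib.MP_391708_nt.XP.U.Spec
import Pool.Agent.Lib.MP_391708_nt.X.HM
import Pool.Agent.Lib.MP_391708_nt.X.B.LCA

/-!
# THEOREM X+, part U, module RGS: different characters over the rough elements of a lattice cell

`X.hm_rg1` with `A = 2`, `A' = cw` and `x = N^(1+c)`; the cell is an annulus by `X.specLCA`.
-/

set_option autoImplicit false

namespace Pool.Agent.Lib.MP391708.XPU

open Finset Filter Topology Pool.Agent.Lib.MP391708.MR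
open Pool.Agent.Lib.MP391708.X (ChiG hk Dist rgh Ix psi lc)
open scoped ComplexConjugate

namespace RGSM

lemma nm_nat (t : ℕ) : (nm ((t : ℕ) : Gi) : ℝ) = (t : ℝ) ^ 2 := by
  rw [nm_castR]
  simp

/-- the index `i` satisfies the hypotheses of RG1 -/
lemma idx {i : Ix} {N c x c' : ℝ} (hN : 1 ≤ N) (hx : N ≤ x) (hc' : 0 < c') (hc : 2 * c ≤ c')
    (hi : 1 ≤ i.1 ∧ (i.1 : ℝ) ≤ N ^ c ∧ ChiG (i.1 : Gi) i.2.1 ∧ |(i.2.2 : ℝ)| ≤ N ^ 2) :
    (nm ((i.1 : ℕ) : Gi) : ℝ) ≤ x ^ c' ∧ |(i.2.2 : ℝ)| ≤ x ^ (2 : ℝ) := by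
  constructor
  · rw [nm_nat]
    have h1 : (i.1 : ℝ) ^ 2 ≤ (N ^ c) ^ 2 := by
      have : (0 : ℝ) ≤ (i.1 : ℝ) := Nat.cast_nonneg _
      exact pow_le_pow_left₀ this hi.2.1 2
    have h2 : (N ^ c) ^ 2 = N ^ (2 * c) := by
      rw [← Real.rpow_natCast, ← Real.rpow_mul (by linarith)]
      congr 1
      push_cast
      ring
    have h3 : N ^ c' ≤ x ^ c' := Real.rpow_le_rpow (by linarith) hx hc'.le
    have h4 : N ^ (2 * c) ≤ N ^ c' := Real.rpow_le_rpow_of_exponent_le hN hc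
    rw [h2] at h1
    linarith
  · have h1 : x ^ (2 : ℝ) = x ^ (2 : ℕ) := by
      rw [← Real.rpow_natCast]
      norm_num
    rw [h1]
    have h2 : N ^ 2 ≤ x ^ 2 := pow_le_pow_left₀ (by linarith) hx 2
    exact hi.2.2.2.trans h2

end RGSM

/-- RGS -/
theorem specRGS : SpecRGS := by
  intro cw hcw
  obtain ⟨c', hc0, hc1, hev⟩ := X.hm_rg1 2 cw (by norm_num) hcw
  refine ⟨c' / 4, by positivity, by linarith, ?_⟩
  have hx := (tendsto_rpow_atTop (show (0 : ℝ) < 1 + c' / 4 by linarith)).eventually hev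
  filter_upwards [hx, eventually_ge_atTop (1 : ℝ), Real.tendsto_log_atTop.eventually_ge_atTop 1] with
    N hN hN1 hlog
  intro i j h v S hh hv hi hj hd hS
  have hN0 : 0 < N := by linarith
  have hNx : N ≤ N ^ (1 + c' / 4) := by
    have h1 : N ^ (1 : ℝ) ≤ N ^ (1 + c' / 4) := Real.rpow_le_rpow_of_exponent_le hN1 (by linarith)
    rwa [Real.rpow_one] at h1
  obtain ⟨y, y', hy0, hyy, hy', -, -, -, hann⟩ := X.specLCA h v (by linarith)
  obtain ⟨hi1, hi2⟩ := RGSM.idx hN1 hNx hc0 (by linarith) hi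
  obtain ⟨hj1, hj2⟩ := RGSM.idx hN1 hNx hc0 (by linarith) hj
  have hw : Real.log N ^ cw ≤ Real.log (N ^ (1 + c' / 4)) ^ cw := by
    apply Real.rpow_le_rpow (by linarith) _ (by linarith)
    exact Real.log_le_log hN0 hNx
  have hmain := hN ((i.1 : ℕ) : Gi) ((j.1 : ℕ) : Gi) i.2.1 j.2.1 i.2.2 j.2.2 hi.2.2.1 hj.2.2.1
    hi1 hj1 hi2 hj2 hd (Real.log N ^ cw) y y' hw hy0 hyy (hy'.trans hv) S
    (fun z => by rw [hS z, hann])
  refine le_trans hmain ?_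
  rw [← Real.rpow_mul hN0.le]
  apply Real.rpow_le_rpow_of_exponent_le hN1
  nlinarith

end Pool.Agent.Lib.MP391708.XPU
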