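import Pool.Agent.Lib.MP_391708_nt.XP.U.Spec
import Pool.Agent.Lib.MP_391708_nt.X.U.ETH

/-!
# Theorem X+, part U, module ETH (helper9): the sum of `eta` over a coarse cell against a character
-/

set_option autoImplicit false

namespace Pool.Agent.Lib.MP391708.XPU

open Finset Filter Topology Pool.Agent.Lib.MP391708.MR
open Pool.Agent.Lib.MP391708.X (ChiG rgh Ix psi)
open Pool.Agent.Lib.MP391708.XP (Par I4 I2 eta)
open Pool.Agent.Lib.MP391708.XU (GG)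
open Pool.Agent.Lib.MP391708.XU.ETHM (psi_mul mem_GP sum_GG nm_dvd_GP floors)

namespace ETHM

open scoped Classical in
/-- the transform of `eta` -/
theorem eta_sum (p : Par) (v4 v2 : ℕ) (ψ : Gi → ℂ) (Y : ℝ) (hmul : ∀ x y, ψ (x * y) = ψ x * ψ y)
    (hI : ψ ⟨0, 1⟩ = 1) (hY : ∀ π ∈ cell p.h p.M4 (2 * p.M4) v4,
      ∀ π' ∈ cell p.h p.M2 (2 * p.M2) v2, (nm (π * π') : ℝ) ≤ Y) :
    ∑ z ∈ disc Y, eta p v4 v2 z * ψ z =
      (∑ π ∈ cell p.h p.M4 (2 * p.M4) v4, ψ π) *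
        (4 * ∑ π ∈ cell p.h p.M2 (2 * p.M2) v2, ψ π) := by
  have hne4 : ∀ π ∈ cell p.h p.M4 (2 * p.M4) v4, π ≠ 0 := fun π h =>
    GP_ne_zero (Finset.mem_filter.1 h).1
  have hne2 : ∀ π ∈ cell p.h p.M2 (2 * p.M2) v2, π ≠ 0 := fun π h =>
    GP_ne_zero (Finset.mem_filter.1 h).1
  have h1 : ∀ z, eta p v4 v2 z * ψ z = ∑ q ∈ cell p.h p.M4 (2 * p.M4) v4 ×ˢ
      cell p.h p.M2 (2 * p.M2) v2, if Associated (q.1 * q.2) z then ψ z else 0 := by
    intro z
    unfold XP.eta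
    rw [Finset.natCast_card_filter, Finset.sum_mul]
    refine Finset.sum_congr rfl fun q _ => ?_
    split_ifs
    · rw [one_mul]
    · rw [zero_mul]
  rw [Finset.sum_congr rfl fun z _ => h1 z, Finset.sum_comm]
  have h2 : ∀ q ∈ cell p.h p.M4 (2 * p.M4) v4 ×ˢ cell p.h p.M2 (2 * p.M2) v2,
      (∑ z ∈ disc Y, if Associated (q.1 * q.2) z then ψ z else 0) = ψ q.1 * (4 * ψ q.2) := by
    intro q hq
    rw [Finset.mem_product] at hq
    rw [← Finset.sum_filter, X.ETHM.sum_assoc hmul hI (mul_ne_zero (hne4 _ hq.1) (hne2 _ hq.2))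
      (hY _ hq.1 _ hq.2), hmul]
    ring
  rw [Finset.sum_congr rfl h2, Finset.sum_product, Finset.mul_sum, Finset.sum_mul_sum]

theorem M4_pos {p : Par} (hp : Siz p) : 0 < p.M4 := by
  unfold XP.Par.M4
  linarith [hp.M]

theorem M2_eq {p : Par} (hp : Siz p) : p.M4 * p.M2 = p.N * (p.T / p.P) / 16 := by
  have hM : p.M ≠ 0 := by linarith [hp.M]
  have hP : p.P ≠ 0 := by linarith [hp.P]
  unfold XP.Par.M2 XP.Par.M4
  field_simp

theorem M2_ge {p : Par} (hp : Siz p) : 4 * p.M4 ≤ p.M2 := by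
  have h0 := M4_pos hp
  have hP : 0 < p.P := by linarith [hp.P]
  have h1 : 64 ≤ p.T / p.P := by
    rw [le_div_iff₀ hP]
    exact hp.T
  have h2 := M2_eq hp
  have h3 : p.M4 * p.M4 ≤ p.N := by
    unfold XP.Par.M4
    nlinarith [hp.MN]
  have hN : 0 ≤ p.N := by linarith [hp.N]
  have h4 : p.M4 * (4 * p.M4) ≤ p.M4 * p.M2 := by
    rw [h2]
    nlinarith
  exact le_of_mul_le_mul_left h4 h0

theorem M2_pos {p : Par} (hp : Siz p) : 0 < p.M2 := by
  linarith [M2_ge hp, M4_pos hp]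

theorem MM_ge {p : Par} (hp : Siz p) : 2 * p.M4 * (2 * p.M2) ≤ MM' p := by
  have hN : 0 ≤ p.N := by linarith [hp.N]
  have hP : 0 < p.P := by linarith [hp.P]
  have h1 : 2 * p.M4 * (2 * p.M2) = p.N * (p.T / p.P) / 4 := by
    rw [show 2 * p.M4 * (2 * p.M2) = 4 * (p.M4 * p.M2) by ring, M2_eq hp]
    ring
  have h3 : MM' p = 2 * (p.N * (p.T / p.P)) := by
    unfold MM'
    ring
  have h4 : 0 ≤ p.N * (p.T / p.P) :=
    mul_nonneg hN (div_nonneg (by linarith [hp.T]) hP.le)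
  rw [h1, h3]
  linarith

/-- the support of `eta` -/
theorem supp {p : Par} (hp : Siz p) {m j : ℕ} (hm : 1 ≤ m) {v4 v2 : ℕ} {z : Gi}
    (h4 : v4 / m = (Nat.unpair j).1) (h2 : v2 / m = (Nat.unpair j).2) (h : eta p v4 v2 z ≠ 0) :
    z ∈ SJ p m j := by
  classical
  unfold XP.eta at h
  have h1 : ((cell p.h p.M4 (2 * p.M4) v4 ×ˢ cell p.h p.M2 (2 * p.M2) v2).filter
      (fun q => Associated (q.1 * q.2) z)).Nonempty := by
    rw [← Finset.card_pos]
    apply Nat.pos_of_ne_zero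
    intro h0
    apply h
    exact_mod_cast h0
  obtain ⟨⟨q1, q2⟩, hq⟩ := h1
  rw [mem_filter, mem_product] at hq
  obtain ⟨⟨hq1, hq2⟩, hz⟩ := hq
  dsimp only at hq1 hq2 hz
  unfold cell at hq1 hq2
  rw [mem_filter] at hq1 hq2
  obtain ⟨n1, pr1, lo1, hi1⟩ := mem_GP hq1.1
  obtain ⟨n2, pr2, lo2, hi2⟩ := mem_GP hq2.1
  have hz0 : z ≠ 0 := by
    rintro rfl
    rw [associated_zero_iff_eq_zero] at hz
    exact mul_ne_zero n1 n2 hz
  have hnm : nm z = nm q1 * nm q2 := by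
    rw [← nm_mul]
    exact Nat.dvd_antisymm (nm_dvd hz.symm.dvd) (nm_dvd hz.dvd)
  have hM4 := M4_pos hp
  have hM2 := M2_pos hp
  have hlog : p.h * Real.log (nm z) = p.h * Real.log (nm q1) + p.h * Real.log (nm q2) := by
    rw [hnm]
    push_cast
    rw [Real.log_mul (nm_posR n1).ne' (nm_posR n2).ne']
    ring
  have hh : 0 ≤ p.h := by linarith [hp.h]
  obtain ⟨f1, f2⟩ := floors (mul_nonneg hh (Real.log_nonneg (one_le_nm n1)))
    (mul_nonneg hh (Real.log_nonneg (one_le_nm n2)))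
  rw [← hlog, hq1.2, hq2.2] at f1 f2
  have a1 : m * (v4 / m) ≤ v4 := Nat.mul_div_le v4 m
  have a2 : v4 < m * (v4 / m) + m := Nat.lt_mul_div_succ v4 (by omega)
  have b1 : m * (v2 / m) ≤ v2 := Nat.mul_div_le v2 m
  have b2 : v2 < m * (v2 / m) + m := Nat.lt_mul_div_succ v2 (by omega)
  rw [h4] at a1 a2
  rw [h2] at b1 b2
  unfold SJ
  rw [mem_filter, mem_disc]
  refine ⟨⟨hz0, ?_⟩, ?_, ?_, ?_⟩
  · rw [hnm]
    push_cast
    refine le_trans ?_ (MM_ge hp)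
    exact mul_le_mul hi1 hi2 (Nat.cast_nonneg _) (by linarith)
  · intro π hπ hd
    have h5 : π ∣ q1 * q2 := hd.trans hz.symm.dvd
    have hw : p.w < p.M4 := hp.wM
    rcases hπ.dvd_or_dvd h5 with h6 | h6
    · exact hw.trans (nm_dvd_GP hπ hq1.1 h6)
    · exact lt_trans (by linarith [M2_ge hp]) (nm_dvd_GP hπ hq2.1 h6)
  · rw [Nat.mul_add]
    omega
  · rw [Nat.mul_add]
    omega

end ETHM

open ETHM in
theorem specETH : SpecETH := by
  classical
  intro p m j i hp hm _ hχ hI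
  have hh : 0 < p.h := by linarith [hp.h]
  have e1 : ∑ z ∈ SJ p m j, (∑ v4 ∈ (I4 p).filter (fun v => v / m = (Nat.unpair j).1),
      ∑ v2 ∈ (I2 p).filter (fun v => v / m = (Nat.unpair j).2), eta p v4 v2 z) * psi i z =
      ∑ z ∈ disc (MM' p), (∑ v4 ∈ (I4 p).filter (fun v => v / m = (Nat.unpair j).1),
      ∑ v2 ∈ (I2 p).filter (fun v => v / m = (Nat.unpair j).2), eta p v4 v2 z) * psi i z := by
    refine Finset.sum_subset (Finset.filter_subset _ _) fun z _ hz => ?_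
    rw [Finset.sum_eq_zero, zero_mul]
    intro v4 hv4
    refine Finset.sum_eq_zero fun v2 hv2 => ?_
    rw [mem_filter] at hv4 hv2
    by_contra h0
    exact hz (supp hp hm hv4.2 hv2.2 h0)
  have e2 : ∑ z ∈ disc (MM' p), (∑ v4 ∈ (I4 p).filter (fun v => v / m = (Nat.unpair j).1),
      ∑ v2 ∈ (I2 p).filter (fun v => v / m = (Nat.unpair j).2), eta p v4 v2 z) * psi i z =
      ∑ v4 ∈ (I4 p).filter (fun v => v / m = (Nat.unpair j).1),
      ∑ v2 ∈ (I2 p).filter (fun v => v / m = (Nat.unpair j).2),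
        ∑ z ∈ disc (MM' p), eta p v4 v2 z * psi i z := by
    simp only [Finset.sum_mul]
    rw [Finset.sum_comm]
    refine Finset.sum_congr rfl fun v4 _ => ?_
    rw [Finset.sum_comm]
  have e3 : ∀ v4 v2 : ℕ, ∑ z ∈ disc (MM' p), eta p v4 v2 z * psi i z =
      (∑ π ∈ cell p.h p.M4 (2 * p.M4) v4, psi i π) *
        (4 * ∑ π ∈ cell p.h p.M2 (2 * p.M2) v2, psi i π) := by
    intro v4 v2
    refine eta_sum p v4 v2 (psi i) (MM' p) (psi_mul hχ) hI ?_
    intro π hπ π' hπ'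
    unfold cell at hπ hπ'
    rw [mem_filter] at hπ hπ'
    obtain ⟨-, -, -, h1⟩ := mem_GP hπ.1
    obtain ⟨-, -, -, h2⟩ := mem_GP hπ'.1
    rw [nm_mul]
    push_cast
    exact (mul_le_mul h1 h2 (Nat.cast_nonneg _) (by linarith [M4_pos hp])).trans (MM_ge hp)
  rw [e1, e2]
  simp only [e3]
  unfold G4 G2
  rw [sum_GG _ _ _ _ hh (M4_pos hp), sum_GG _ _ _ _ hh (M2_pos hp)]
  unfold XP.I4 XP.I2
  rw [mul_assoc, Finset.sum_mul_sum, Finset.mul_sum]
  refine Finset.sum_congr rfl fun v4 _ => ?_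
  rw [Finset.mul_sum]
  refine Finset.sum_congr rfl fun v2 _ => ?_
  ring

end Pool.Agent.Lib.MP391708.XPU
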