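import Pool.Agent.Lib.MP_391708_nt.XP.U.Spec
import Pool.Agent.Lib.MP_391708_nt.X.HM

/-!
# THEOREM X+, part U, module HM2: the mean square over a set of characters modulo `t`
-/

set_option autoImplicit false

namespace Pool.Agent.Lib.MP391708.XPU

open Finset Filter Topology Pool.Agent.Lib.MP391708.MR
open Pool.Agent.Lib.MP391708.X (ChiG hk Dist Fam rgh Ix psi ix1 UOK lc On)
open Pool.Agent.Lib.MP391708.XP (Par par Box RR S4 S2 I4 I2 eta kap Eta Kap Var)
open Pool.Agent.Lib.MP391708.XV (md chs ph hat atyp)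
open Pool.Agent.Lib.MP391708.XU (fn ixq GG Eqv SpecBRG SpecCON SpecNCD)

namespace HM2M

lemma nm_nat (t : ℕ) : (nm ((t : ℕ) : Gi) : ℝ) = (t : ℝ) ^ 2 := by
  rw [nm_castR]
  simp

lemma sum_ind {α : Type} [DecidableEq α] {S G : Finset α} (h : G ⊆ S) (f : α → ℂ) :
    ∑ z ∈ S, (if z ∈ G then (1 : ℂ) else 0) * f z = ∑ z ∈ G, f z := by
  rw [← Finset.sum_subset h (f := fun z => (if z ∈ G then (1 : ℂ) else 0) * f z)]
  · refine Finset.sum_congr rfl fun z hz => ?_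
    rw [if_pos hz, one_mul]
  · intro z _ hz
    rw [if_neg hz, zero_mul]

lemma sum_sq {α : Type} [DecidableEq α] {S G : Finset α} (h : G ⊆ S) :
    ∑ z ∈ S, ‖(if z ∈ G then (1 : ℂ) else 0)‖ ^ 2 = (G.card : ℝ) := by
  rw [← Finset.sum_subset h (f := fun z => ‖(if z ∈ G then (1 : ℂ) else 0)‖ ^ 2)]
  · rw [Finset.sum_congr rfl (g := fun _ => (1 : ℝ))]
    · simp
    · intro z hz
      rw [if_pos hz]
      simp
  · intro z _ hz
    rw [if_neg hz]
    simp

end HM2M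

open HM2M in
theorem specHM2 (hBRG : SpecBRG) : SpecHM2 := by
  classical
  obtain ⟨hB1, -, hB3, -⟩ := hBRG
  obtain ⟨c, hc0, hc1, hev⟩ := Pool.Agent.Lib.MP391708.X.hm_hmt 5 (by norm_num)
  obtain ⟨x₀, hx₀⟩ := eventually_atTop.1 hev
  refine ⟨c / 8, by positivity, ?_⟩
  have e1 : ∀ᶠ N : ℝ in atTop, max x₀ 1 ≤ N ^ (1 / 4 : ℝ) :=
    (tendsto_rpow_atTop (by norm_num)).eventually_ge_atTop _
  filter_upwards [e1, eventually_ge_atTop (1 : ℝ)] with N h1 h3
  intro t M G W ht1 ht2 hM1 hM2 hG hW1 hW2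
  have hN : (0 : ℝ) < N := by linarith
  have hM0 : 1 ≤ M := le_trans (le_trans (le_max_right _ _) h1) hM1
  have hx : x₀ ≤ 2 * M := by
    have := le_trans (le_trans (le_max_left x₀ 1) h1) hM1
    linarith
  have hN4 : N ≤ M ^ 4 := by
    calc N = (N ^ (1 / 4 : ℝ)) ^ 4 := by
          rw [← Real.rpow_natCast, ← Real.rpow_mul hN.le]
          norm_num
      _ ≤ M ^ 4 := by gcongr
  have hcM : N ^ (c / 4) ≤ (2 * M) ^ c := by
    calc N ^ (c / 4) = (N ^ (1 / 4 : ℝ)) ^ c := by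
          rw [← Real.rpow_mul hN.le]
          congr 1
          ring
      _ ≤ (2 * M) ^ c := Real.rpow_le_rpow (by positivity) (by linarith) hc0.le
  have hW3 : (W.card : ℝ) ≤ (2 * M) ^ c := by
    refine hW2.trans (le_trans ?_ hcM)
    exact Real.rpow_le_rpow_of_exponent_le h3 (by linarith)
  have hF : Fam W (fun q => fn t q.1) (fun q => q.2) ((2 * M) ^ c) ((2 * M) ^ (5 : ℝ)) := by
    refine ⟨fun q _ => ⟨(t : Gi), ?_, hB1 t q.1 ht1⟩, fun q hq => ?_,
      fun q _ q' _ hne => hB3 t q q' ht1 hne⟩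
    · rw [nm_nat]
      refine le_trans ?_ hcM
      calc (t : ℝ) ^ 2 ≤ (N ^ (c / 8)) ^ 2 := by gcongr
        _ = N ^ (c / 4) := by
          rw [← Real.rpow_natCast, ← Real.rpow_mul hN.le]
          congr 1
          push_cast
          ring
    · refine (hW1 q hq).trans (hN4.trans ?_)
      rw [show (5 : ℝ) = ((5 : ℕ) : ℝ) by norm_num, Real.rpow_natCast]
      have h5 : (1 : ℝ) ≤ 2 * M := by linarith
      calc M ^ 4 ≤ (2 * M) ^ 4 := by gcongr; linarith
        _ ≤ (2 * M) ^ 5 := pow_le_pow_right₀ h5 (by norm_num)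
  have key := hx₀ (2 * M) hx _ W (fun q => fn t q.1) (fun q => q.2) hF hW3 M (2 * M)
    (fun z => if z ∈ G then 1 else 0) (by linarith) (by linarith) le_rfl
  have hGa : G ⊆ ann M (2 * M) := by
    intro z hz
    have h5 := hG hz
    have h6 := mem_GP.1 h5
    exact mem_ann.2 ⟨GP_ne_zero h5, h6.2.2.2.2.1, h6.2.2.2.2.2⟩
  have e2 : ∀ q ∈ W, ‖∑ z ∈ ann M (2 * M), (if z ∈ G then (1 : ℂ) else 0) * hk (fn t q.1) q.2 z‖ ^ 2 =
      ‖∑ π ∈ G, hk (fn t q.1) q.2 π‖ ^ 2 := by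
    intro q _
    rw [sum_ind hGa]
  rw [Finset.sum_congr rfl e2, sum_sq hGa] at key
  refine key.trans ?_
  have hcard : (G.card : ℝ) ≤ 18 * M := by
    have h5 : (G.card : ℝ) ≤ ((disc (2 * M)).card : ℝ) := by
      exact_mod_cast Finset.card_le_card (hGa.trans (ann_subset_disc _ _))
    have h6 := card_disc_le (x := 2 * M) (by linarith)
    linarith
  have hx1 : (2 * M) ^ (1 - c) ≤ 2 * M := by
    calc (2 * M) ^ (1 - c) ≤ (2 * M) ^ (1 : ℝ) :=
          Real.rpow_le_rpow_of_exponent_le (by linarith) (by linarith)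
      _ = 2 * M := Real.rpow_one _
  have hpi : Real.pi * (2 * M - M) ≤ 4 * M := by
    have := Real.pi_le_four
    nlinarith
  calc (Real.pi * (2 * M - M) + (2 * M) ^ (1 - c)) * (G.card : ℝ)
      ≤ (4 * M + 2 * M) * (18 * M) := by gcongr
    _ ≤ 200 * M ^ 2 := by nlinarith [sq_nonneg M]

end Pool.Agent.Lib.MP391708.XPU
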