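import Pool.Agent.Lib.MP_391708_nt.XP.U.HTA

/-!
# THEOREM X+ (MP_391708), part U, module HTS: the sum of `HJ` against a character different from all of `U`
-/

set_option autoImplicit false

namespace Pool.Agent.Lib.MP391708.XPU

open Finset Filter Topology Pool.Agent.Lib.MP391708.MR
open Pool.Agent.Lib.MP391708.X (ChiG hk Dist rgh Ix psi ix1 UOK lc)
open Pool.Agent.Lib.MP391708.XP (Par par Box RR S4 S2 I4 I2 eta kap Eta Kap cc)
open scoped ComplexConjugate

namespace HTSM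

open HJSM HTAM

open scoped Classical in
theorem core {p : Par} {U : Finset Ix} {i : Ix} (hETH : SpecETH) (S : Siz p) {D Bc : ℝ} (hBc : 0 ≤ Bc) (hD0 : 0 ≤ D)
    (hD : ∀ u ∈ U, ∀ v4 ∈ I4 p, ∀ v2 ∈ I2 p,
      ‖∑ z ∈ (lc p.h (v4 + v2)).filter (rgh p.w), psi i z * conj (psi u z)‖ ≤ D)
    (hcc : ∀ u ∈ U, ∀ v4 ∈ I4 p, ∀ v2 ∈ I2 p, ‖cc p u v4 v2‖ ≤ Bc)
    {m : ℕ} (hm : 1 ≤ m) (j : ℕ) (hi1 : 1 ≤ i.1) (hχ : ChiG (i.1 : Gi) i.2.1) (hI : psi i ⟨0, 1⟩ = 1) :
    ‖∑ z ∈ SJ p m j, HJ p U m j z * psi i z‖ ≤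
      4 * ‖G4 p m i (Nat.unpair j).1‖ * ‖G2 p m i (Nat.unpair j).2‖ +
        (I4 p).card * ((I2 p).card * (U.card * (Bc * D))) := by
  set A := (I4 p).filter (fun v => v / m = (Nat.unpair j).1) with hA
  set B := (I2 p).filter (fun v => v / m = (Nat.unpair j).2) with hB
  have e1 := hETH p m j i S hm hi1 hχ hI
  have e4 : ∑ z ∈ SJ p m j, HJ p U m j z * psi i z =
      4 * G4 p m i (Nat.unpair j).1 * G2 p m i (Nat.unpair j).2 -
        ∑ v4 ∈ A, ∑ v2 ∈ B, ∑ z ∈ SJ p m j, kap p U v4 v2 z * psi i z := by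
    have e6 : ∑ v4 ∈ A, ∑ v2 ∈ B, ∑ z ∈ SJ p m j, kap p U v4 v2 z * psi i z =
        ∑ z ∈ SJ p m j, (∑ v4 ∈ A, ∑ v2 ∈ B, kap p U v4 v2 z) * psi i z := by
      simp only [Finset.sum_mul]
      rw [Finset.sum_comm (s := SJ p m j)]
      refine Finset.sum_congr rfl fun v4 _ => ?_
      rw [Finset.sum_comm]
    rw [e6, ← e1, ← sum_sub_distrib]
    refine sum_congr rfl fun z _ => ?_
    rw [← sub_mul]
    unfold HJ
    simp only [sum_sub_distrib]
    rfl
  have e7 : ‖∑ v4 ∈ A, ∑ v2 ∈ B, ∑ z ∈ SJ p m j, kap p U v4 v2 z * psi i z‖ ≤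
      (I4 p).card * ((I2 p).card * (U.card * (Bc * D))) := by
    have hP : 0 ≤ (U.card : ℝ) * (Bc * D) :=
      mul_nonneg (Nat.cast_nonneg _) (mul_nonneg hBc hD0)
    have h6 : ∀ v4 ∈ A, ∀ v2 ∈ B, ‖∑ z ∈ SJ p m j, kap p U v4 v2 z * psi i z‖ ≤ U.card * (Bc * D) := by
      intro v4 h4 v2 h2
      rw [kap_sum S U hm h4 h2]
      refine (norm_sum_le_of_le (n := fun _ => Bc * D) _ (fun u hu => ?_)).trans ?_
      · rw [norm_mul]
        exact mul_le_mul (hcc u hu v4 (mem_filter.1 h4).1 v2 (mem_filter.1 h2).1)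
          (hD u hu v4 (mem_filter.1 h4).1 v2 (mem_filter.1 h2).1) (norm_nonneg _) hBc
      · rw [sum_const, nsmul_eq_mul]
    have h5 : ∀ v4 ∈ A, ‖∑ v2 ∈ B, ∑ z ∈ SJ p m j, kap p U v4 v2 z * psi i z‖ ≤
        (I2 p).card * (U.card * (Bc * D)) := by
      intro v4 h4
      refine (norm_sum_le_of_le _ (fun v2 h2 => h6 v4 h4 v2 h2)).trans ?_
      rw [sum_const, nsmul_eq_mul]
      apply mul_le_mul_of_nonneg_right _ hP
      exact_mod_cast card_le_card (filter_subset _ _)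
    refine (norm_sum_le_of_le _ h5).trans ?_
    rw [sum_const, nsmul_eq_mul]
    apply mul_le_mul_of_nonneg_right _ (mul_nonneg (Nat.cast_nonneg _) hP)
    exact_mod_cast card_le_card (filter_subset _ _)
  rw [e4]
  refine (norm_sub_le _ _).trans (add_le_add ?_ e7)
  rw [norm_mul, norm_mul]
  simp

end HTSM

open HTAM HTSM HJSM in
/-- **HTS**: the sum of `HJ` against a character different from all of `U`. -/
theorem specHTS (hRGS : SpecRGS) (_ : SpecHJS) (hETH : SpecETH) : SpecHTS := by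
  classical
  intro cw hcw
  obtain ⟨c0, hc0, hc0', hR⟩ := hRGS cw hcw
  obtain ⟨r, _, hr, _, hRR⟩ := XP.CE.ce_rrl
  refine ⟨min (c0 / 2) (1 / 100), lt_min (by positivity) (by norm_num),
    (min_le_right _ _).trans (by norm_num), ?_⟩
  intro ch aQ aU hch hQw haQ δ cP cT cB hδ hδc hcP hcwP hcT hcB
  have hδ1 : δ ≤ 1 / 100 := hδc.trans (min_le_right _ _)
  have hδ2 : δ ≤ c0 / 2 := hδc.trans (min_le_left _ _)
  have hCpos : 0 < 104976 * cw / r := by positivity
  filter_upwards [hRR ch cw hch (by linarith), hR,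
    siz (cB := cB) hch hcw hδ1 hcP hcwP hcT, log_le (b := aQ) hc0,
    fin_small (K := 3 * ch + aU + 1) hCpos hc0,
    Real.tendsto_log_atTop.eventually_ge_atTop 4] with N g1 g2 g4 g5 g6 g7
  intro T P M B hB F U hF hU i m j hm hi1 hia hχ hik hI hdist
  have S := g4 T P M B hB
  have hN100 : (100 : ℝ) ≤ N := S.N
  have hN0 : (0 : ℝ) < N := by linarith
  have hN1 : (1 : ℝ) ≤ N := by linarith
  set L : ℝ := Real.log N with hLd
  have hL0 : 0 < L := by linarith
  have hL1 : 1 ≤ L := by linarith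
  have hh : 1 ≤ L ^ ch := S.h
  have hw2 : 2 ≤ L ^ cw := S.w
  have hlw : 0 < Real.log (L ^ cw) := Real.log_pos (by linarith)
  have hP2 : 2 ≤ P := S.P
  have hM4 := M4_ge S
  have hM2 := M2_ge' S
  have hN3 : N ^ (1 / 3 : ℝ) ≤ (par N T P M ch cw).M4 :=
    (Real.rpow_le_rpow_of_exponent_le hN1 (by norm_num)).trans hB.M1
  have hE : ∀ v4 ∈ I4 (par N T P M ch cw), ∀ v2 ∈ I2 (par N T P M ch cw),
      N ^ (1 / 3 : ℝ) ≤ Real.exp (((v4 + v2 : ℕ) : ℝ) / L ^ ch) := by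
    intro v4 h4 v2 h2
    have h5 := exp_ge S h4 h2
    refine hN3.trans (le_trans ?_ h5)
    nlinarith
  have hRRl : ∀ v4 ∈ I4 (par N T P M ch cw), ∀ v2 ∈ I2 (par N T P M ch cw),
      r / (L ^ ch * Real.log (L ^ cw)) * Real.exp (((v4 + v2 : ℕ) : ℝ) / L ^ ch) ≤
        RR (par N T P M ch cw) (v4 + v2) := by
    intro v4 h4 v2 h2
    have h5 := (g1 T P M (v4 + v2) (hE v4 h4 v2 h2)).1
    calc r / (L ^ ch * Real.log (L ^ cw)) * Real.exp (((v4 + v2 : ℕ) : ℝ) / L ^ ch) =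
        r * (Real.exp (((v4 + v2 : ℕ) : ℝ) / L ^ ch) / (L ^ ch * Real.log (L ^ cw))) := by ring
      _ ≤ RR (par N T P M ch cw) (v4 + v2) := h5
  have hcpos : 0 < r / (L ^ ch * Real.log (L ^ cw)) := by positivity
  have hT0 : 0 < T := by
    have h1 : 64 * P ≤ T := S.T
    linarith
  have hMMle : MM' (par N T P M ch cw) ≤ N ^ (1 + c0) := by
    have h5 : T ≤ N ^ c0 :=
      hB.T2.trans (Real.rpow_le_rpow_of_exponent_le hN1 (by linarith))
    have h6 : MM' (par N T P M ch cw) = 2 * N * T / P := rfl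
    rw [h6, div_le_iff₀ (by linarith), Real.rpow_add hN0, Real.rpow_one]
    calc 2 * N * T = N * T * 2 := by ring
      _ ≤ N * N ^ c0 * P := by
          apply mul_le_mul (mul_le_mul_of_nonneg_left h5 hN0.le) hP2 (by norm_num)
          positivity
  have hix : ∀ u ∈ U, 1 ≤ u.1 ∧ (u.1 : ℝ) ≤ N ^ c0 ∧ ChiG (u.1 : Gi) u.2.1 ∧
      |(u.2.2 : ℝ)| ≤ N ^ 2 := by
    intro u hu
    obtain ⟨h5, h6, h7⟩ := hU.ch u hu
    exact ⟨h5, h6.trans g5, h7, (hU.frq u hu).trans hF⟩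
  have hii : 1 ≤ i.1 ∧ (i.1 : ℝ) ≤ N ^ c0 ∧ ChiG (i.1 : Gi) i.2.1 ∧ |(i.2.2 : ℝ)| ≤ N ^ 2 := by
    refine ⟨hi1, hia.trans (Real.rpow_le_rpow_of_exponent_le hN1 ?_), hχ, hik⟩
    have : min (c0 / 2) (1 / 100) ≤ c0 / 2 := min_le_left _ _
    linarith
  have h0 := core (p := par N T P M ch cw) (U := U) (i := i)
    (D := N ^ (1 - c0)) (Bc := 11664 / (r / (L ^ ch * Real.log (L ^ cw)))) (m := m)
    hETH S (by positivity) (by positivity) ?_ ?_ hm j hi1 hχ hI
  · refine h0.trans (add_le_add (le_refl _) ?_)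
    have k4 : ((I4 (par N T P M ch cw)).card : ℝ) ≤ 3 * L ^ ch :=
      XP.CE.CELM.card_VV hh (by linarith)
    have k2 : ((I2 (par N T P M ch cw)).card : ℝ) ≤ 3 * L ^ ch :=
      XP.CE.CELM.card_VV hh (by linarith)
    have kU := hU.card
    have hlw2 : Real.log (L ^ cw) ≤ cw * L := by
      rw [Real.log_rpow hL0]
      have h8 := Real.log_le_sub_one_of_pos hL0
      nlinarith
    have kB : 11664 / (r / (L ^ ch * Real.log (L ^ cw))) ≤ 11664 * cw / r * (L ^ ch * L) := by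
      have h8 : 11664 / (r / (L ^ ch * Real.log (L ^ cw))) =
          11664 / r * (L ^ ch * Real.log (L ^ cw)) := by
        field_simp
      rw [h8]
      calc 11664 / r * (L ^ ch * Real.log (L ^ cw)) ≤ 11664 / r * (L ^ ch * (cw * L)) := by
            apply mul_le_mul_of_nonneg_left _ (by positivity)
            apply mul_le_mul_of_nonneg_left hlw2 (by positivity)
        _ = 11664 * cw / r * (L ^ ch * L) := by ring
    have hD0 : 0 ≤ N ^ (1 - c0) := by positivity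
    have hB0 : 0 ≤ 11664 / (r / (L ^ ch * Real.log (L ^ cw))) := by positivity
    calc ((I4 (par N T P M ch cw)).card : ℝ) * ((I2 (par N T P M ch cw)).card *
          (U.card * (11664 / (r / (L ^ ch * Real.log (L ^ cw))) * N ^ (1 - c0)))) ≤
        (3 * L ^ ch) * ((3 * L ^ ch) * (L ^ aU * (11664 * cw / r * (L ^ ch * L) *
          N ^ (1 - c0)))) := by
          apply mul_le_mul k4 _ (by positivity) (by positivity)
          apply mul_le_mul k2 _ (by positivity) (by positivity)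
          apply mul_le_mul kU _ (by positivity) (by positivity)
          exact mul_le_mul_of_nonneg_right kB hD0
      _ = 104976 * cw / r * (L ^ ch * L ^ ch * L ^ ch * L ^ aU * L) * N ^ (1 - c0) := by ring
      _ = 104976 * cw / r * L ^ (3 * ch + aU + 1) * N ^ (1 - c0) := by
          have h9 : L ^ ch * L ^ ch * L ^ ch * L ^ aU * L = L ^ (3 * ch + aU + 1) := by
            rw [Real.rpow_add hL0, Real.rpow_one, Real.rpow_add hL0]
            congr 2
            rw [← Real.rpow_add hL0, ← Real.rpow_add hL0]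
            congr 1
            ring
          rw [h9]
      _ ≤ N ^ (1 - c0 / 2) := g6
      _ ≤ N ^ (1 - min (c0 / 2) (1 / 100)) := by
          apply Real.rpow_le_rpow_of_exponent_le hN1
          have : min (c0 / 2) (1 / 100) ≤ c0 / 2 := min_le_left _ _
          linarith
  · intro u hu v4 h4 v2 h2
    exact g2 i u (L ^ ch) (v4 + v2) _ hh ((exp_le S h4 h2).trans hMMle) hii (hix u hu)
      (hdist u hu) (fun z => by rw [mem_filter]; rfl)
  · intro u hu v4 h4 v2 h2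
    exact norm_cc S (hU.ch u hu).2.2 h4 h2 hcpos (hRRl v4 h4 v2 h2)

end Pool.Agent.Lib.MP391708.XPU
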