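import Pool.Agent.Lib.MP_391708_nt.XP.U.Spec
import Pool.Agent.Lib.MP_391708_nt.XP.CEL

/-!
# THEOREM X+ (MP_391708), part U, module SUP: the pointwise bound (no hypotheses)
-/

set_option autoImplicit false

namespace Pool.Agent.Lib.MP391708.XPU

open Finset Filter Topology Pool.Agent.Lib.MP391708.MR
open Pool.Agent.Lib.MP391708.X (ChiG hk Dist Fam rgh Ix psi ix1 UOK lc On)
open Pool.Agent.Lib.MP391708.XP (Par par Box RR S4 S2 I4 I2 eta kap Eta Kap Var)
open scoped ComplexConjugate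

namespace SUPM

/-- the sizes of `M4` and `M2` in a box -/
lemma box_M {δ cP cT cB N T P M B ch cw : ℝ} (hN : 1 ≤ N) (hL : 33 ≤ Real.log N) (hcT : 1 ≤ cT)
    (h : Box δ cP cT cB N T P M B) :
    N ^ (1 / 3 : ℝ) ≤ M ∧ 2 * (par N T P M ch cw).M4 < (par N T P M ch cw).M2 ∧
      N ^ (1 / 3 : ℝ) ≤ (par N T P M ch cw).M2 := by
  have hN0 : 0 < N := by linarith
  have hL0 : 0 < Real.log N := by linarith
  have hP : 0 < P := (Real.rpow_pos_of_pos hL0 _).trans_le h.P1
  have h1 : N ^ (1 / 3 : ℝ) ≤ M :=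
    (Real.rpow_le_rpow_of_exponent_le hN (by norm_num)).trans h.M1
  have hM0 : 0 < M := (Real.rpow_pos_of_pos hN0 _).trans_le h1
  have h2 : M ^ 2 ≤ N := by
    have h3 : M ≤ N ^ (1 / 2 : ℝ) :=
      h.M2.trans (Real.rpow_le_rpow_of_exponent_le hN (by norm_num))
    calc M ^ 2 ≤ (N ^ (1 / 2 : ℝ)) ^ 2 := pow_le_pow_left₀ hM0.le h3 2
      _ = N := by
        rw [← Real.rpow_natCast, ← Real.rpow_mul hN0.le]; norm_num
  have h4 : 33 * P ≤ T := by
    refine le_trans ?_ h.T1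
    rw [mul_comm]
    refine mul_le_mul_of_nonneg_left ?_ hP.le
    calc (33 : ℝ) ≤ Real.log N := hL
      _ = Real.log N ^ (1 : ℝ) := (Real.rpow_one _).symm
      _ ≤ Real.log N ^ cT := Real.rpow_le_rpow_of_exponent_le (by linarith) hcT
  have h5 : 2 * (par N T P M ch cw).M4 < (par N T P M ch cw).M2 := by
    show 2 * M < N * T / (16 * P * M)
    rw [lt_div_iff₀ (by positivity)]
    calc 2 * M * (16 * P * M) = 32 * P * M ^ 2 := by ring
      _ ≤ 32 * P * N := mul_le_mul_of_nonneg_left h2 (by positivity)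
      _ < 33 * P * N := by nlinarith [mul_pos hP hN0]
      _ ≤ T * N := mul_le_mul_of_nonneg_right h4 hN0.le
      _ = N * T := by ring
  refine ⟨h1, h5, ?_⟩
  have h6 : (par N T P M ch cw).M4 = M := rfl
  rw [h6] at h5
  linarith

end SUPM

open SUPM in
/-- **SUP** -/
theorem specSUP : SpecSUP := by
  intro ch cw aQ aU hch haQ hcw haQ1 δ cP cT cB hδ hδ1 hcP hcP' hcT hcB
  filter_upwards [XP.CE.ce_sup ch cw aQ aU hch (by linarith), Real.tendsto_log_atTop.eventually_ge_atTop 33,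
    eventually_ge_atTop (1 : ℝ)] with N hN hL hN1
  intro T P M B hB F U hF hU z
  obtain ⟨h1, h2, h3⟩ := box_M (ch := ch) (cw := cw) hN1 hL hcT hB
  have h := hN T P M h1 h3 h2 F U hF hU z
  linarith

end Pool.Agent.Lib.MP391708.XPU
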