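import Pool.Agent.Lib.MP_391708_nt.XP.U.Spec
import Pool.Agent.Lib.MP_391708_nt.X.U.USET

/-!
# Theorem X+, part U, module USET: the set `U`
-/

set_option autoImplicit false

namespace Pool.Agent.Lib.MP391708.XPU

open Finset Filter Topology Pool.Agent.Lib.MP391708.MR
open Pool.Agent.Lib.MP391708.X (ChiG hk Dist Fam rgh Ix psi ix1 UOK lc On)
open Pool.Agent.Lib.MP391708.XP (Par par Box RR S4 S2 I4 I2 eta kap Eta Kap Var)
open Pool.Agent.Lib.MP391708.XV (md chs ph hat atyp)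
open Pool.Agent.Lib.MP391708.XU (fn ixq GG Eqv SpecBRG SpecCON SpecNCD)
open Pool.Agent.Lib.MP391708.XU.USETM
open scoped ComplexConjugate

namespace USETM

theorem G4_eqP {p : Par} {m : ℕ} {i w v : Ix} (a : ℕ) (hi : ChiG (i.1 : Gi) i.2.1)
    (hw : ChiG (w.1 : Gi) w.2.1) (hi0 : 1 ≤ i.1) (hw0 : 1 ≤ w.1) (hi2 : (i.1 : ℝ) ^ 2 ≤ p.M4)
    (hw2 : (w.1 : ℝ) ^ 2 ≤ p.M4) (hc : Con w v) (h : ¬ Dist i.2.1 v.2.1 i.2.2 v.2.2) :
    G4 p m i a = G4 p m w a := by
  unfold G4
  refine sum_congr rfl fun π hπ => ?_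
  have hπ' : π ∈ GP p.M4 (2 * p.M4) := (mem_filter.1 hπ).1
  have h1 : i.2.1 π ≠ 0 := (hi.supp π).2 (coprime_of_GP hπ' hi0 hi2)
  have h2 : w.2.1 π ≠ 0 := (hw.supp π).2 (coprime_of_GP hπ' hw0 hw2)
  have h3 : v.2.1 π = w.2.1 π := hc.eq π h2
  have h4 := not_dist h
  have h5 := h4.2 π h1 (by rw [h3]; exact h2)
  unfold psi hk
  rw [h5, h3, h4.1, hc.frq]

end USETM

open USETM in
/-- **USET** -/
theorem specUSET (hB : SpecBRG) (hC : SpecCON) (hL : SpecLVX) : SpecUSET := by
  classical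
  obtain ⟨c1, hc1, hL⟩ := hL
  refine ⟨min c1 (1 / 10), by positivity, ?_⟩
  intro ch0 A₁ aQ hch0 hA₁ haQ cw ch hch δ cP cT cB
  obtain ⟨u, hu⟩ := con_choice hC
  filter_upwards [hL A₁ (by linarith),
    Real.tendsto_log_atTop.eventually_ge_atTop 2000, eventually_ge_atTop 1] with N h1 h3 h4
  intro T P M B hBox T₁ Km hT1' hT2 hKm
  have hT1 : (T₁ : ℝ) ≤ N ^ c1 :=
    hT1'.trans (Real.rpow_le_rpow_of_exponent_le h4 (min_le_left _ _))
  have hT10 : (T₁ : ℝ) ≤ N ^ (1 / 10 : ℝ) :=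
    hT1'.trans (Real.rpow_le_rpow_of_exponent_le h4 (min_le_right _ _))
  have hN0 : 0 < N := by linarith
  have hMN : M ≤ N := hBox.M2.trans (by
    calc N ^ (45 / 100 : ℝ) ≤ N ^ (1 : ℝ) := Real.rpow_le_rpow_of_exponent_le h4 (by norm_num)
      _ = N := Real.rpow_one N)
  have hM3 : N ^ (1 / 3 : ℝ) ≤ M :=
    (Real.rpow_le_rpow_of_exponent_le h4 (by norm_num)).trans hBox.M1
  have hM1 : 1 ≤ M := (Real.one_le_rpow h4 (by norm_num)).trans hM3
  have hl : 0 < Real.log N := by linarith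
  have hl1 : 1 ≤ Real.log N := by linarith
  have hsq : ∀ t : ℕ, t ≤ T₁ → (t : ℝ) ^ 2 ≤ M := by
    intro t ht
    have h5 : (t : ℝ) ≤ N ^ (1 / 10 : ℝ) := le_trans (by exact_mod_cast ht) hT10
    calc (t : ℝ) ^ 2 ≤ (N ^ (1 / 10 : ℝ)) ^ 2 := pow_le_pow_left₀ (Nat.cast_nonneg _) h5 2
      _ = N ^ (1 / 5 : ℝ) := by
          rw [← Real.rpow_natCast, ← Real.rpow_mul hN0.le]
          congr 1
          norm_num
      _ ≤ N ^ (35 / 100 : ℝ) := Real.rpow_le_rpow_of_exponent_le h4 (by norm_num)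
      _ ≤ M := hBox.M1
  have hm1 : Real.log N ≤ Real.log N ^ ch / Real.log N ^ ch0 := by
    rw [← Real.rpow_sub hl]
    calc Real.log N = Real.log N ^ (1 : ℝ) := (Real.rpow_one _).symm
      _ ≤ Real.log N ^ (ch - ch0) := Real.rpow_le_rpow_of_exponent_le hl1 (by linarith)
  have hx : ∃ m : ℕ, m = ⌊Real.log N ^ ch / Real.log N ^ ch0⌋₊ := ⟨_, rfl⟩
  obtain ⟨m, hm⟩ := hx
  rw [← hm]
  have hmpos : 1 ≤ m := by
    rw [hm]
    exact Nat.le_floor (by push_cast; linarith)
  have hm2 : Real.log N ^ ch / Real.log N ^ ch0 ≤ 2 * m := by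
    have h5 := Nat.lt_floor_add_one (Real.log N ^ ch / Real.log N ^ ch0)
    rw [← hm] at h5
    have : (1 : ℝ) ≤ m := by exact_mod_cast hmpos
    linarith
  -- the large characters
  set C : Finset Ix := (Icc 1 T₁).biUnion (fun t => ((chs t ×ˢ IK Km).image (ixq t)).filter
    (fun i => psi i ⟨0, 1⟩ = 1 ∧ Lrg (par N T P M ch cw) m A₁ i)) with hCdef
  obtain ⟨W, hWC, hW2, hW3⟩ := exists_reps C
  have hmem : ∀ w ∈ W, 1 ≤ w.1 ∧ w.1 ≤ T₁ ∧ ChiG (w.1 : Gi) w.2.1 ∧ psi w ⟨0, 1⟩ = 1 ∧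
      w.2.2 ∈ IK Km ∧ Lrg (par N T P M ch cw) m A₁ w := by
    intro w hw
    have h5 := hWC hw
    rw [hCdef, mem_biUnion] at h5
    obtain ⟨t, ht, h6⟩ := h5
    rw [mem_filter, mem_image] at h6
    obtain ⟨⟨q, hq, rfl⟩, h7, h8⟩ := h6
    rw [mem_Icc] at ht
    rw [mem_product] at hq
    exact ⟨ht.1, ht.2, hB.1 t q.1 ht.1, h7, hq.2, h8⟩
  have hLt : ∀ (t : ℕ) (q : MulChar (Cls.RR (md t)) ℂ × ℤ), 1 ≤ t → t ≤ T₁ → ∀ w ∈ W,
      ¬ Dist (fn t q.1) (u w).2.1 q.2 (u w).2.2 → Lrg (par N T P M ch cw) m A₁ (ixq t q) := by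
    intro t q ht1 ht2 w hw h5
    obtain ⟨h6, h7, h8, h9, h10, h11⟩ := hmem w hw
    have hc := hu w h6 h8
    rcases h11 with h12 | ⟨a, ha, h12⟩
    · left
      have h13 := not_dist h12
      have h14 := hc.uni 1 (fun _ => 1) le_rfl chiG_one (fun z _ hz => (h13.2 z hz one_ne_zero).symm)
      have h15 := not_dist h5
      rintro (h16 | ⟨z, h16, h17, h18⟩)
      · apply h16
        show q.2 = 0
        rw [h15.1, hc.frq]
        exact h13.1
      · apply h18
        have h19 : (u w).2.1 z = 1 := h14.2 z one_ne_zero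
        have h20 := h15.2 z h16 (by rw [h19]; exact one_ne_zero)
        show fn t q.1 z = 1
        rw [h20, h19]
    · right
      refine ⟨a, ha, ?_⟩
      have : G4 (par N T P M ch cw) m (ixq t q) a = G4 (par N T P M ch cw) m w a :=
        G4_eqP (i := ixq t q) (w := w) (v := u w) a (hB.1 t q.1 ht1) h8 ht1 h6 (hsq t ht2) (hsq w.1 h7) hc h5
      rw [this]
      exact h12
  obtain ⟨U, hU, E, hE, hfin⟩ := main hB hT2 (Q := Real.log N ^ aQ)
    (Real.one_le_rpow hl1 (by linarith)) u (Lrg (par N T P M ch cw) m A₁) W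
    (fun w hw => hu w (hmem w hw).1 (hmem w hw).2.2.1)
    (fun w hw => ⟨(hmem w hw).2.2.2.1, (hmem w hw).2.2.2.2.1⟩) hW2
    (by
      intro t q ht1 ht2 hq1 hq2 hq3 hLq
      have h5 : ixq t q ∈ C := by
        rw [hCdef, mem_biUnion]
        exact ⟨t, mem_Icc.2 ⟨ht1, ht2⟩, mem_filter.2 ⟨mem_image_of_mem _
          (mem_product.2 ⟨hq1, hq2⟩), hq3, hLq⟩⟩
      exact hW3 _ h5)
    (by
      have h5 : ix1 ∈ C := by
        rw [hCdef, mem_biUnion]
        refine ⟨1, mem_Icc.2 ⟨le_rfl, hT2⟩, mem_filter.2 ⟨mem_image.2 ⟨(1, 0), mem_product.2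
          ⟨mem_chs le_rfl _, ?_⟩, ?_⟩, ?_, ?_⟩⟩
        · unfold IK
          rw [mem_Icc]
          constructor
          · simp
          · positivity
        · have h6 : fn 1 (1 : MulChar (Cls.RR (md 1)) ℂ) = fun _ => 1 := by
            funext z
            unfold fn
            rw [MulChar.one_apply]
            have : Subsingleton (Cls.RR (md 1)) := by
              have h7 : Ideal.span {md 1} = ⊤ := by
                rw [Ideal.span_singleton_eq_top]
                have : md 1 = 1 := by simp [md]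
                rw [this]
                exact isUnit_one
              rw [Ideal.Quotient.subsingleton_iff]
              exact h7
            exact isUnit_of_subsingleton _
          unfold ixq ix1
          rw [h6]
        · unfold psi hk ix1
          simp [xi]
        · left
          rintro (h6 | ⟨z, _, _, h6⟩) <;> exact h6 rfl
      exact hW3 _ h5)
    hLt
  -- the size of `W`
  have hWcard : (W.card : ℝ) ≤ Real.log N ^ (2 * A₁ + ch0 + 1) := by
    have h5 : W ⊆ W.filter (fun w => Eqv w ix1) ∪ ((I4 (par N T P M ch cw)).image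
        (fun v => v / m)).biUnion (fun a => W.filter (fun w => M * Real.log N ^ (-A₁) <
          ‖∑ π ∈ GG (par N T P M ch cw).h (par N T P M ch cw).M4 m a, psi w π‖)) := by
      intro w hw
      rw [mem_union, mem_biUnion]
      rcases (hmem w hw).2.2.2.2.2 with h6 | ⟨a, ha, h6⟩
      · exact Or.inl (mem_filter.2 ⟨hw, h6⟩)
      · exact Or.inr ⟨a, ha, mem_filter.2 ⟨hw, h6⟩⟩
    have h6 : (W.filter (fun w => Eqv w ix1)).card ≤ 1 := by
      rw [card_le_one]
      intro w hw w' hw'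
      rw [mem_filter] at hw hw'
      by_contra hne
      have h7 := not_dist hw.2
      have h8 := not_dist hw'.2
      rcases hW2 w hw.1 w' hw'.1 hne with h9 | ⟨z, h9, h10, h11⟩
      · exact h9 (h7.1.trans h8.1.symm)
      · exact h11 ((h7.2 z h9 one_ne_zero).trans (h8.2 z h10 one_ne_zero).symm)
    have h7 : ∀ a : ℕ, ((W.filter (fun w => M * Real.log N ^ (-A₁) <
          ‖∑ π ∈ GG (par N T P M ch cw).h (par N T P M ch cw).M4 m a, psi w π‖)).card : ℝ) ≤
        300 * Real.log N ^ (2 * A₁) := by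
      intro a
      refine h1 M _ (GG (par N T P M ch cw).h (par N T P M ch cw).M4 m a) hM3 hMN ?_ ?_ ?_ ?_
      · exact filter_subset _ _
      · intro i hi
        rw [mem_filter] at hi
        obtain ⟨h8, h9, h10, h11, h12, h13⟩ := hmem i hi.1
        refine ⟨h8, le_trans (by exact_mod_cast h9) hT1, h10, ?_⟩
        unfold IK at h12
        rw [mem_Icc] at h12
        have h14 : |i.2.2| ≤ (Km : ℤ) := abs_le.2 h12
        have h15 : |(i.2.2 : ℝ)| ≤ Km := by exact_mod_cast h14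
        nlinarith
      · intro i hi j hj hij
        exact hW2 i (mem_filter.1 hi).1 j (mem_filter.1 hj).1 hij
      · intro i hi
        exact (mem_filter.1 hi).2
    have h8 : (((I4 (par N T P M ch cw)).image (fun v => v / m)).card : ℝ) ≤
        6 * Real.log N ^ ch0 := by
      have hh : 1 ≤ Real.log N ^ ch := Real.one_le_rpow hl1 (by linarith)
      have h9 := card_J hh hM1 hmpos
      have h10 : (Real.log N ^ ch + 1) / m ≤ 4 * Real.log N ^ ch0 := by
        have hm0 : (0 : ℝ) < m := by exact_mod_cast hmpos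
        rw [div_le_iff₀ hm0]
        rw [div_le_iff₀ (Real.rpow_pos_of_pos hl _)] at hm2
        linarith
      have h11 : 1 ≤ Real.log N ^ ch0 := Real.one_le_rpow hl1 (by linarith)
      refine h9.trans ?_
      linarith
    have h9 : (W.card : ℝ) ≤ 1 + (6 * Real.log N ^ ch0) * (300 * Real.log N ^ (2 * A₁)) := by
      have h10 : W.card ≤ 1 + ∑ a ∈ (I4 (par N T P M ch cw)).image (fun v => v / m),
          (W.filter (fun w => M * Real.log N ^ (-A₁) <
          ‖∑ π ∈ GG (par N T P M ch cw).h (par N T P M ch cw).M4 m a, psi w π‖)).card :=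
        (card_le_card h5).trans ((card_union_le _ _).trans (add_le_add h6 card_biUnion_le))
      have h11 : (W.card : ℝ) ≤ 1 + ∑ a ∈ (I4 (par N T P M ch cw)).image (fun v => v / m),
          ((W.filter (fun w => M * Real.log N ^ (-A₁) <
          ‖∑ π ∈ GG (par N T P M ch cw).h (par N T P M ch cw).M4 m a, psi w π‖)).card : ℝ) := by
        exact_mod_cast h10
      refine h11.trans (add_le_add le_rfl ((sum_le_sum fun a _ => h7 a).trans ?_))
      rw [sum_const, nsmul_eq_mul]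
      exact mul_le_mul_of_nonneg_right h8 (by positivity)
    have h10 : Real.log N ^ (2 * A₁ + ch0 + 1) =
        Real.log N ^ ch0 * Real.log N ^ (2 * A₁) * Real.log N := by
      rw [show 2 * A₁ + ch0 + 1 = ch0 + 2 * A₁ + 1 by ring, Real.rpow_add hl, Real.rpow_add hl,
        Real.rpow_one]
    have h11 : 1 ≤ Real.log N ^ ch0 * Real.log N ^ (2 * A₁) := by
      rw [← Real.rpow_add hl]
      exact Real.one_le_rpow hl1 (by linarith)
    rw [h10]
    nlinarith
  refine ⟨U, uok_mono hU (hWcard.trans (Real.rpow_le_rpow_of_exponent_le hl1 (by linarith))), E,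
    hE.trans ?_, ?_⟩
  · have h5 : 1 + Real.log T₁ ≤ Real.log N ^ (2 : ℝ) := by
      have hT0 : (0 : ℝ) < T₁ := by exact_mod_cast hT2
      have h6 : Real.log T₁ ≤ 1 / 10 * Real.log N := by
        rw [← Real.log_rpow hN0]
        exact Real.log_le_log hT0 hT10
      have h9 : Real.log N ^ (2 : ℝ) = Real.log N * Real.log N := by
        rw [show (2 : ℝ) = 1 + 1 by norm_num, Real.rpow_add hl, Real.rpow_one]
      rw [h9]
      nlinarith
    have h6 : Real.log N ^ (2 * A₁ + ch0 + 3 - aQ) =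
        Real.log N ^ (2 * A₁ + ch0 + 1) * (Real.log N ^ (2 : ℝ) / Real.log N ^ aQ) := by
      rw [← Real.rpow_sub hl, ← Real.rpow_add hl]
      congr 1
      ring
    rw [h6]
    have h7 : 0 ≤ Real.log (T₁ : ℝ) := Real.log_nonneg (by exact_mod_cast hT2)
    refine mul_le_mul hWcard (div_le_div_of_nonneg_right h5 (by positivity)) ?_ (by positivity)
    exact div_nonneg (by linarith) (by positivity)
  · intro t ht1 ht2 q hq1 hq2 hq3
    rcases hfin t ht1 ht2 q hq1 hq2 hq3 with h5 | h5 | ⟨h5, h6⟩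
    · exact Or.inl h5
    · exact Or.inr (Or.inl h5)
    · refine Or.inr (Or.inr ⟨h5, fun a ha => ?_⟩)
      by_contra h7
      exact h6 (Or.inr ⟨a, ha, not_le.1 h7⟩)

end Pool.Agent.Lib.MP391708.XPU
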