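import Pool.Agent.Lib.MP_391708_nt.XP.U.Spec
import Pool.Agent.Lib.MP_391708_nt.XP.U.HJS
import Pool.Agent.Lib.MP_391708_nt.XP.U.ETH
import Pool.Agent.Lib.MP_391708_nt.X.PSI

/-!
# THEOREM X+ (MP_391708), part U, module HTA: the sum of `HJ` against a character of `U` (core)
-/

set_option autoImplicit false

namespace Pool.Agent.Lib.MP391708.XPU

open Finset Filter Topology Pool.Agent.Lib.MP391708.MR
open Pool.Agent.Lib.MP391708.X (ChiG hk Dist rgh Ix psi ix1 UOK lc)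
open Pool.Agent.Lib.MP391708.XP (Par par Box RR S4 S2 I4 I2 eta kap Eta Kap cc)
open Pool.Agent.Lib.MP391708.XU (GG SpecNCD)
open scoped ComplexConjugate

namespace HTAM

open HJSM

/-! ### Sizes -/

theorem VV_ge {h M : ℝ} {v : ℕ} (hv : v ∈ VV h M (2 * M)) : h * Real.log M - 1 ≤ v := by
  unfold VV at hv
  have h1 := (mem_Icc.1 hv).1
  have h2 := Nat.lt_floor_add_one (h * Real.log M)
  have h3 : ((⌊h * Real.log M⌋₊ : ℕ) : ℝ) ≤ v := Nat.cast_le.2 h1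
  linarith

theorem exp_le {p : Par} (S : Siz p) {v4 v2 : ℕ} (h4 : v4 ∈ I4 p) (h2 : v2 ∈ I2 p) :
    Real.exp ((((v4 + v2 : ℕ) : ℝ) + 1) / p.h) ≤ MM' p := by
  have hM4 := M4_ge S
  have hM2 := M2_ge' S
  have hh := S.h
  have e4 := le_of_VV hh (by linarith) h4
  have e2 := le_of_VV hh (by linarith) h2
  have e3 : ((((v4 + v2 : ℕ) : ℝ) + 1) / p.h) ≤ Real.log (4 * (p.M4 * p.M2)) + 1 := by
    rw [div_le_iff₀ (by linarith)]
    have e5 : Real.log (4 * (p.M4 * p.M2)) = Real.log (2 * p.M4) + Real.log (2 * p.M2) := by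
      rw [← Real.log_mul (by positivity) (by positivity)]
      congr 1
      ring
    rw [e5]
    push_cast
    nlinarith
  rw [MM_eq S]
  calc Real.exp ((((v4 + v2 : ℕ) : ℝ) + 1) / p.h)
      ≤ Real.exp (Real.log (4 * (p.M4 * p.M2)) + 1) := Real.exp_le_exp.2 e3
    _ = 4 * (p.M4 * p.M2) * Real.exp 1 := by
        rw [Real.exp_add, Real.exp_log (by positivity)]
    _ ≤ 4 * (p.M4 * p.M2) * 3 := by
        apply mul_le_mul_of_nonneg_left _ (by positivity)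
        linarith [Real.exp_one_lt_d9]
    _ ≤ 32 * (p.M4 * p.M2) := by
        nlinarith [mul_pos (by linarith : 0 < p.M4) (by linarith : 0 < p.M2)]

theorem exp_ge {p : Par} (S : Siz p) {v4 v2 : ℕ} (h4 : v4 ∈ I4 p) (h2 : v2 ∈ I2 p) :
    p.M4 * p.M2 / 9 ≤ Real.exp (((v4 + v2 : ℕ) : ℝ) / p.h) := by
  have hM4 := M4_ge S
  have hM2 := M2_ge' S
  have hh := S.h
  have e4 := VV_ge h4
  have e2 := VV_ge h2
  have hpos : 0 < p.M4 * p.M2 := mul_pos (by linarith) (by linarith)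
  have e3 : Real.log (p.M4 * p.M2) - 2 ≤ ((v4 + v2 : ℕ) : ℝ) / p.h := by
    rw [le_div_iff₀ (by linarith), Real.log_mul (by positivity) (by positivity)]
    push_cast
    nlinarith
  have e5 : Real.exp 2 ≤ 9 := by
    have h3 : Real.exp 2 = Real.exp 1 * Real.exp 1 := by
      rw [← Real.exp_add]
      norm_num
    have h6 := Real.exp_one_lt_d9
    have h7 := Real.exp_pos 1
    rw [h3]
    nlinarith
  calc p.M4 * p.M2 / 9 ≤ p.M4 * p.M2 / Real.exp 2 :=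
        div_le_div_of_nonneg_left hpos.le (Real.exp_pos 2) e5
    _ = Real.exp (Real.log (p.M4 * p.M2) - 2) := by
        rw [Real.exp_sub, Real.exp_log hpos]
    _ ≤ Real.exp (((v4 + v2 : ℕ) : ℝ) / p.h) := Real.exp_le_exp.2 e3

theorem norm_S4 {p : Par} (S : Siz p) {i : Ix} {m : Gi} (h : ChiG m i.2.1) (v : ℕ) :
    ‖S4 p i v‖ ≤ 18 * p.M4 := by
  have hM4 := M4_ge S
  unfold XP.S4
  have h1 : ‖∑ π ∈ cell p.h p.M4 (2 * p.M4) v, psi i π‖ ≤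
      ((cell p.h p.M4 (2 * p.M4) v).card : ℝ) := by
    refine (norm_sum_le_of_le _ (fun z _ => X.PSIM.norm_psi_le h z)).trans ?_
    simp
  have h2 : ((cell p.h p.M4 (2 * p.M4) v).card : ℝ) ≤ ((disc (2 * p.M4)).card : ℝ) := by
    apply Nat.cast_le.2
    apply card_le_card
    exact (filter_subset _ _).trans (filter_subset _ _)
  have h3 := card_disc_le (show 0 ≤ 2 * p.M4 by linarith)
  linarith

theorem norm_S2 {p : Par} (S : Siz p) {i : Ix} {m : Gi} (h : ChiG m i.2.1) (v : ℕ) :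
    ‖S2 p i v‖ ≤ 72 * p.M2 := by
  have hM2 := M2_ge' S
  unfold XP.S2
  rw [norm_mul]
  have h1 : ‖∑ π ∈ cell p.h p.M2 (2 * p.M2) v, psi i π‖ ≤
      ((cell p.h p.M2 (2 * p.M2) v).card : ℝ) := by
    refine (norm_sum_le_of_le _ (fun z _ => X.PSIM.norm_psi_le h z)).trans ?_
    simp
  have h2 : ((cell p.h p.M2 (2 * p.M2) v).card : ℝ) ≤ ((disc (2 * p.M2)).card : ℝ) := by
    apply Nat.cast_le.2
    apply card_le_card
    exact (filter_subset _ _).trans (filter_subset _ _)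
  have h3 := card_disc_le (show 0 ≤ 2 * p.M2 by linarith)
  have h4 : ‖(4 : ℂ)‖ = 4 := by simp
  rw [h4]
  linarith

/-- the coefficients of the model are at most a power of `log N` -/
theorem norm_cc {p : Par} (S : Siz p) {i : Ix} {m : Gi} (h : ChiG m i.2.1) {v4 v2 : ℕ}
    (h4 : v4 ∈ I4 p) (h2 : v2 ∈ I2 p) {c : ℝ} (hc : 0 < c)
    (hR : c * Real.exp (((v4 + v2 : ℕ) : ℝ) / p.h) ≤ RR p (v4 + v2)) :
    ‖cc p i v4 v2‖ ≤ 11664 / c := by
  have hM4 := M4_ge S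
  have hM2 := M2_ge' S
  have hE := exp_ge S h4 h2
  have hpos : 0 < p.M4 * p.M2 := mul_pos (by linarith) (by linarith)
  have hR1 : c * (p.M4 * p.M2 / 9) ≤ RR p (v4 + v2) :=
    (mul_le_mul_of_nonneg_left hE hc.le).trans hR
  have hR0 : 0 < RR p (v4 + v2) := lt_of_lt_of_le (by positivity) hR1
  unfold XP.cc
  rw [norm_div, norm_mul, Complex.norm_real, Real.norm_of_nonneg hR0.le,
    div_le_div_iff₀ hR0 hc]
  have e1 : ‖S4 p i v4‖ * ‖S2 p i v2‖ ≤ 18 * p.M4 * (72 * p.M2) :=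
    mul_le_mul (norm_S4 S h v4) (norm_S2 S h v2) (norm_nonneg _) (by linarith)
  calc ‖S4 p i v4‖ * ‖S2 p i v2‖ * c ≤ 18 * p.M4 * (72 * p.M2) * c :=
        mul_le_mul_of_nonneg_right e1 hc.le
    _ = 11664 * (c * (p.M4 * p.M2 / 9)) := by ring
    _ ≤ 11664 * RR p (v4 + v2) := mul_le_mul_of_nonneg_left hR1 (by norm_num)

theorem card_VV {h M : ℝ} (hh : 1 ≤ h) (hM : 1 ≤ M) :
    ((VV h M (2 * M)).card : ℝ) ≤ 2 * h * (1 + Real.log (2 * M)) := by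
  have hl : 0 ≤ Real.log (2 * M) := Real.log_nonneg (by linarith)
  have h1 : (VV h M (2 * M)).card ≤ ⌊h * Real.log (2 * M)⌋₊ + 1 := by
    unfold VV
    rw [Nat.card_Icc]
    omega
  have h2 : ((⌊h * Real.log (2 * M)⌋₊ : ℕ) : ℝ) ≤ h * Real.log (2 * M) :=
    Nat.floor_le (mul_nonneg (by linarith) hl)
  have h3 : ((VV h M (2 * M)).card : ℝ) ≤ ((⌊h * Real.log (2 * M)⌋₊ : ℕ) : ℝ) + 1 := by
    exact_mod_cast h1
  nlinarith [mul_nonneg (by linarith : 0 ≤ h) hl]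

/-! ### The sum of `kap` over the cell of a pair -/

theorem sub_SJ {p : Par} (S : Siz p) {m : ℕ} (hm : 1 ≤ m) {j v4 v2 : ℕ}
    (h4 : v4 ∈ (I4 p).filter (fun v => v / m = (Nat.unpair j).1))
    (h2 : v2 ∈ (I2 p).filter (fun v => v / m = (Nat.unpair j).2)) {z : Gi}
    (hz : z ∈ lc p.h (v4 + v2)) (hr : rgh p.w z) : z ∈ SJ p m j := by
  classical
  rw [mem_filter] at h4 h2
  have b4 := div_bounds hm h4.2
  have b2 := div_bounds hm h2.2
  unfold X.lc at hz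
  rw [mem_filter, mem_disc] at hz
  obtain ⟨⟨hz0, hz1⟩, hz2⟩ := hz
  have e : m * ((Nat.unpair j).1 + (Nat.unpair j).2) =
    m * (Nat.unpair j).1 + m * (Nat.unpair j).2 := Nat.mul_add _ _ _
  unfold SJ
  rw [mem_filter, mem_disc]
  refine ⟨⟨hz0, hz1.trans (exp_le S h4.1 h2.1)⟩, hr, ?_, ?_⟩
  · rw [e]
    omega
  · rw [e]
    omega

open scoped Classical in
theorem kap_sum {p : Par} (S : Siz p) (U : Finset Ix) {m : ℕ} (hm : 1 ≤ m) {j v4 v2 : ℕ}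
    (h4 : v4 ∈ (I4 p).filter (fun v => v / m = (Nat.unpair j).1))
    (h2 : v2 ∈ (I2 p).filter (fun v => v / m = (Nat.unpair j).2)) (f : Gi → ℂ) :
    ∑ z ∈ SJ p m j, kap p U v4 v2 z * f z = ∑ i ∈ U, cc p i v4 v2 *
      ∑ z ∈ (lc p.h (v4 + v2)).filter (rgh p.w), f z * conj (psi i z) := by
  have h1 : (lc p.h (v4 + v2)).filter (rgh p.w) ⊆ SJ p m j := by
    intro z hz
    rw [mem_filter] at hz
    exact sub_SJ S hm h4 h2 hz.1 hz.2
  rw [← sum_subset h1]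
  · simp only [mul_sum]
    rw [sum_comm]
    refine sum_congr rfl fun z hz => ?_
    rw [mem_filter] at hz
    unfold XP.kap
    rw [if_pos hz, sum_mul]
    refine sum_congr rfl fun i _ => ?_
    ring
  · intro z _ hz
    rw [mem_filter] at hz
    unfold XP.kap
    rw [if_neg hz, zero_mul]

/-! ### Characters -/

theorem coprime_GP {M : ℝ} {t : ℕ} (ht : 1 ≤ t) (hM : (t : ℝ) ^ 2 ≤ M) {π : Gi}
    (hπ : π ∈ GP M (2 * M)) : IsCoprime π (t : Gi) := by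
  rw [Prime.coprime_iff_not_dvd (GP_prime hπ)]
  intro hd
  have h2 : nm π ∣ nm ((t : ℕ) : Gi) := nm_dvd hd
  rw [X.PSIM.nm_cast_nat] at h2
  have h3 : nm π ≤ t ^ 2 := Nat.le_of_dvd (by positivity) h2
  have h4 : (nm π : ℝ) ≤ (t : ℝ) ^ 2 := by exact_mod_cast h3
  have h5 := (mem_GP.1 hπ).2.2.2.2.1
  linarith

theorem cop_I (m : Gi) : IsCoprime (⟨0, 1⟩ : Gi) m :=
  ⟨⟨0, -1⟩, 0, by
    rw [zero_mul, add_zero]
    apply Zsqrtd.ext <;> simp⟩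

section Core

variable {p : Par} {U : Finset Ix} {Q F W : ℝ} {i u : Ix}

theorem psi_eq (hk : i.2.2 = u.2.2) (hz : ∀ z, i.2.1 z ≠ 0 → u.2.1 z = i.2.1 z)
    (hχ : ChiG (i.1 : Gi) i.2.1) {z : Gi} (hc : IsCoprime z (i.1 : Gi)) : psi i z = psi u z := by
  unfold X.psi X.hk
  rw [hz z ((hχ.supp z).2 hc), hk]

theorem psi_zero (hχ : ChiG (i.1 : Gi) i.2.1) {z : Gi} (hc : ¬ IsCoprime z (i.1 : Gi)) :
    psi i z = 0 := by
  have h1 : i.2.1 z = 0 := by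
    by_contra h
    exact hc ((hχ.supp z).1 h)
  unfold X.psi X.hk
  rw [h1, zero_mul]

theorem G_eq (hk : i.2.2 = u.2.2) (hz : ∀ z, i.2.1 z ≠ 0 → u.2.1 z = i.2.1 z) (hi1 : 1 ≤ i.1)
    (hχ : ChiG (i.1 : Gi) i.2.1) {h M : ℝ} {m a : ℕ} (hM : (i.1 : ℝ) ^ 2 ≤ M) :
    ∑ π ∈ GG h M m a, psi i π = ∑ π ∈ GG h M m a, psi u π := by
  refine sum_congr rfl fun π hπ => ?_
  unfold GG at hπ
  rw [mem_filter] at hπ
  exact psi_eq hk hz hχ (coprime_GP hi1 hM hπ.1)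

theorem main_eq (S : Siz p) (m j : ℕ) (u : Ix) :
    4 * G4 p m u (Nat.unpair j).1 * G2 p m u (Nat.unpair j).2 =
      ∑ v4 ∈ (I4 p).filter (fun v => v / m = (Nat.unpair j).1),
        ∑ v2 ∈ (I2 p).filter (fun v => v / m = (Nat.unpair j).2), S4 p u v4 * S2 p u v2 := by
  have hh : 0 < p.h := by linarith [S.h]
  unfold G4 G2
  rw [XU.ETHM.sum_GG _ _ _ _ hh (ETHM.M4_pos S), XU.ETHM.sum_GG _ _ _ _ hh (ETHM.M2_pos S)]
  unfold XP.I4 XP.I2 XP.S4 XP.S2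
  rw [mul_assoc, Finset.sum_mul_sum, Finset.mul_sum]
  refine Finset.sum_congr rfl fun v4 _ => ?_
  rw [Finset.mul_sum]
  refine Finset.sum_congr rfl fun v2 _ => ?_
  ring

open scoped Classical in
/-- one pair of fine cells -/
theorem pair_le (S : Siz p) (hU : UOK Q F W U) (hQ : Q ≤ p.w) (hQ2 : Q ^ 2 ≤ p.w) {D Bc : ℝ}
    (hBc : 0 ≤ Bc) (hD0 : 0 ≤ D)
    (hD : ∀ u ∈ U, ∀ u' ∈ U, u ≠ u' → ∀ v4 ∈ I4 p, ∀ v2 ∈ I2 p,
      ‖∑ z ∈ (lc p.h (v4 + v2)).filter (rgh p.w), psi u z * conj (psi u' z)‖ ≤ D)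
    (hRR : ∀ v4 ∈ I4 p, ∀ v2 ∈ I2 p, RR p (v4 + v2) ≠ 0)
    (hcc : ∀ u ∈ U, ∀ v4 ∈ I4 p, ∀ v2 ∈ I2 p, ‖cc p u v4 v2‖ ≤ Bc)
    {m : ℕ} (hm : 1 ≤ m) {j v4 v2 : ℕ}
    (h4 : v4 ∈ (I4 p).filter (fun v => v / m = (Nat.unpair j).1))
    (h2 : v2 ∈ (I2 p).filter (fun v => v / m = (Nat.unpair j).2)) (hu : u ∈ U) :
    ‖∑ z ∈ SJ p m j, kap p U v4 v2 z * psi u z - S4 p u v4 * S2 p u v2‖ ≤
      U.card * (Bc * D) := by
  have k4 := (mem_filter.1 h4).1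
  have k2 := (mem_filter.1 h2).1
  rw [kap_sum S U hm h4 h2, ← add_sum_erase U _ hu]
  have e1 : ∑ z ∈ (lc p.h (v4 + v2)).filter (rgh p.w), psi u z * conj (psi u z) =
      (RR p (v4 + v2) : ℂ) := by
    have e2 : ∀ z ∈ (lc p.h (v4 + v2)).filter (rgh p.w), psi u z * conj (psi u z) = 1 := by
      intro z hz
      rw [mem_filter] at hz
      have hz0 : z ≠ 0 := by
        have h5 := hz.1
        unfold X.lc at h5
        rw [mem_filter, mem_disc] at h5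
        exact h5.1.1
      have h6 := (X.specPSI Q F W U hU u hu).2.2.2.2.2.2 p.w z hQ hQ2 hz0 hz.2
      rw [Complex.mul_conj, Complex.normSq_eq_norm_sq, h6]
      simp
    rw [sum_congr rfl e2, sum_const, nsmul_eq_mul, mul_one]
    unfold XP.RR
    rw [Complex.ofReal_natCast]
  have e3 : cc p u v4 v2 * (RR p (v4 + v2) : ℂ) = S4 p u v4 * S2 p u v2 := by
    unfold XP.cc
    rw [div_mul_cancel₀]
    exact_mod_cast hRR v4 k4 v2 k2
  rw [e1, e3, add_sub_cancel_left]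
  refine (norm_sum_le_of_le (n := fun _ => Bc * D) _ (fun u' hu' => ?_)).trans ?_
  · rw [norm_mul]
    rw [mem_erase] at hu'
    exact mul_le_mul (hcc u' hu'.2 v4 k4 v2 k2) (hD u hu u' hu'.2 (Ne.symm hu'.1) v4 k4 v2 k2)
      (norm_nonneg _) hBc
  · rw [sum_const, nsmul_eq_mul]
    apply mul_le_mul_of_nonneg_right _ (mul_nonneg hBc hD0)
    exact_mod_cast card_le_card (erase_subset u U)

open scoped Classical in
theorem core (hETH : SpecETH) (hNCD : SpecNCD) (S : Siz p) (hU : UOK Q F W U) (hQ : Q ≤ p.w)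
    (hQ2 : Q ^ 2 ≤ p.w) {D Bc L : ℝ} (hBc : 0 ≤ Bc) (hD0 : 0 ≤ D) (hL0 : 0 ≤ L)
    (hD : ∀ u ∈ U, ∀ u' ∈ U, u ≠ u' → ∀ v4 ∈ I4 p, ∀ v2 ∈ I2 p,
      ‖∑ z ∈ (lc p.h (v4 + v2)).filter (rgh p.w), psi u z * conj (psi u' z)‖ ≤ D)
    (hRR : ∀ v4 ∈ I4 p, ∀ v2 ∈ I2 p, RR p (v4 + v2) ≠ 0)
    (hcc : ∀ u ∈ U, ∀ v4 ∈ I4 p, ∀ v2 ∈ I2 p, ‖cc p u v4 v2‖ ≤ Bc)
    (hL : ∀ z, ∑ v4 ∈ I4 p, ∑ v2 ∈ I2 p, (‖eta p v4 v2 z‖ + ‖kap p U v4 v2 z‖) ≤ L)
    {m : ℕ} (hm : 1 ≤ m) (j : ℕ) (hi1 : 1 ≤ i.1) (hχ : ChiG (i.1 : Gi) i.2.1)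
    (hsz : (i.1 : ℝ) ^ 2 ≤ p.M4) (hu : u ∈ U) (hk : i.2.2 = u.2.2)
    (hz : ∀ z, i.2.1 z ≠ 0 → u.2.1 z = i.2.1 z) :
    ‖∑ z ∈ SJ p m j, HJ p U m j z * psi i z‖ ≤
      40 * (1 + Real.log i.1) * L * MM' p / p.w +
        (I4 p).card * ((I2 p).card * (U.card * (Bc * D))) := by
  have hM4 := M4_ge S
  have hM2 := M2_ge' S
  have hw1 : 1 ≤ p.w := by linarith [S.w]
  have hMM : 0 ≤ MM' p := by
    rw [MM_eq S]
    positivity
  set A := (I4 p).filter (fun v => v / m = (Nat.unpair j).1) with hA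
  set B := (I2 p).filter (fun v => v / m = (Nat.unpair j).2) with hB
  -- the index u
  obtain ⟨hu1, huQ, huχ⟩ := hU.ch u hu
  have huI := hU.adm u hu
  have hiI : psi i ⟨0, 1⟩ = 1 := by
    rw [psi_eq hk hz hχ (cop_I _)]
    exact huI
  have hM2' : (i.1 : ℝ) ^ 2 ≤ p.M2 := by
    have h1 := M2_ge S
    have h2 : p.M4 = p.M := rfl
    rw [← h2] at h1
    linarith
  -- the eta part
  have e1 := hETH p m j i S hm hi1 hχ hiI
  have e2 : G4 p m i (Nat.unpair j).1 = G4 p m u (Nat.unpair j).1 := G_eq hk hz hi1 hχ hsz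
  have e3 : G2 p m i (Nat.unpair j).2 = G2 p m u (Nat.unpair j).2 := G_eq hk hz hi1 hχ hM2'
  rw [e2, e3, main_eq S] at e1
  -- the kap part
  set K : Gi → ℂ := fun z => ∑ v4 ∈ A, ∑ v2 ∈ B, kap p U v4 v2 z with hK
  have e4 : ∑ z ∈ SJ p m j, HJ p U m j z * psi i z =
      ∑ v4 ∈ A, ∑ v2 ∈ B, S4 p u v4 * S2 p u v2 - ∑ z ∈ SJ p m j, K z * psi i z := by
    rw [← e1, ← sum_sub_distrib]
    refine sum_congr rfl fun z _ => ?_
    rw [← sub_mul]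
    unfold HJ
    simp only [sum_sub_distrib]
    rfl
  have e5 : ∑ z ∈ SJ p m j, K z * psi i z = ∑ z ∈ SJ p m j, K z * psi u z -
      ∑ z ∈ (SJ p m j).filter (fun z => ¬ IsCoprime z (i.1 : Gi)), K z * psi u z := by
    rw [sum_filter, ← sum_sub_distrib]
    refine sum_congr rfl fun z _ => ?_
    by_cases hc : IsCoprime z (i.1 : Gi)
    · rw [if_neg (not_not.2 hc), sub_zero, psi_eq hk hz hχ hc]
    · rw [if_pos hc, sub_self, psi_zero hχ hc, mul_zero]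
  have e6 : ∑ z ∈ SJ p m j, K z * psi u z =
      ∑ v4 ∈ A, ∑ v2 ∈ B, ∑ z ∈ SJ p m j, kap p U v4 v2 z * psi u z := by
    simp only [hK, Finset.sum_mul]
    rw [Finset.sum_comm]
    refine Finset.sum_congr rfl fun v4 _ => ?_
    rw [Finset.sum_comm]
  have e7 : ‖∑ v4 ∈ A, ∑ v2 ∈ B, (∑ z ∈ SJ p m j, kap p U v4 v2 z * psi u z -
      S4 p u v4 * S2 p u v2)‖ ≤ (I4 p).card * ((I2 p).card * (U.card * (Bc * D))) := by
    have hP : 0 ≤ (U.card : ℝ) * (Bc * D) :=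
      mul_nonneg (Nat.cast_nonneg _) (mul_nonneg hBc hD0)
    have h5 : ∀ v4 ∈ A, ‖∑ v2 ∈ B, (∑ z ∈ SJ p m j, kap p U v4 v2 z * psi u z -
        S4 p u v4 * S2 p u v2)‖ ≤ (I2 p).card * (U.card * (Bc * D)) := by
      intro v4 h4
      refine (norm_sum_le_of_le _ (fun v2 h2 => pair_le S hU hQ hQ2 hBc hD0 hD hRR hcc hm h4 h2
        hu)).trans ?_
      rw [sum_const, nsmul_eq_mul]
      apply mul_le_mul_of_nonneg_right _ hP
      exact_mod_cast card_le_card (filter_subset _ _)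
    refine (norm_sum_le_of_le _ h5).trans ?_
    rw [sum_const, nsmul_eq_mul]
    apply mul_le_mul_of_nonneg_right _ (mul_nonneg (Nat.cast_nonneg _) hP)
    exact_mod_cast card_le_card (filter_subset _ _)
  -- the elements which are not coprime to the modulus
  have hKL : ∀ z, ‖K z‖ ≤ L := by
    intro z
    refine le_trans ?_ (hL z)
    have h5 : ‖K z‖ ≤ ∑ v4 ∈ A, ∑ v2 ∈ B, ‖kap p U v4 v2 z‖ :=
      (norm_sum_le _ _).trans (sum_le_sum fun v4 _ => norm_sum_le _ _)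
    have h6 : ∑ v4 ∈ A, ∑ v2 ∈ B, ‖kap p U v4 v2 z‖ ≤
        ∑ v4 ∈ I4 p, ∑ v2 ∈ I2 p, ‖kap p U v4 v2 z‖ := by
      refine (sum_le_sum fun v4 _ => sum_le_sum_of_subset_of_nonneg (filter_subset _ _)
        fun v2 _ _ => norm_nonneg _).trans ?_
      exact sum_le_sum_of_subset_of_nonneg (filter_subset _ _)
        fun v4 _ _ => sum_nonneg fun v2 _ => norm_nonneg _
    have h7 : ∑ v4 ∈ I4 p, ∑ v2 ∈ I2 p, ‖kap p U v4 v2 z‖ ≤
        ∑ v4 ∈ I4 p, ∑ v2 ∈ I2 p, (‖eta p v4 v2 z‖ + ‖kap p U v4 v2 z‖) :=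
      sum_le_sum fun v4 _ => sum_le_sum fun v2 _ => le_add_of_nonneg_left (norm_nonneg _)
    exact h5.trans (h6.trans h7)
  have e8 : ‖∑ z ∈ (SJ p m j).filter (fun z => ¬ IsCoprime z (i.1 : Gi)), K z * psi u z‖ ≤
      40 * (1 + Real.log i.1) * L * MM' p / p.w := by
    have h5 : (((SJ p m j).filter (fun z => ¬ IsCoprime z (i.1 : Gi))).card : ℝ) ≤
        40 * (1 + Real.log i.1) * MM' p / p.w := by
      refine hNCD i.1 (MM' p) p.w _ hi1 hMM hw1 fun z hz' => ?_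
      rw [mem_filter] at hz'
      have h6 := hz'.1
      unfold SJ at h6
      rw [mem_filter] at h6
      exact ⟨h6.1, h6.2.1, hz'.2⟩
    refine (norm_sum_le_of_le (n := fun _ => L) _ (fun z _ => ?_)).trans ?_
    · rw [norm_mul]
      calc ‖K z‖ * ‖psi u z‖ ≤ L * 1 :=
            mul_le_mul (hKL z) (X.PSIM.norm_psi_le huχ z) (norm_nonneg _) hL0
        _ = L := mul_one L
    · rw [sum_const, nsmul_eq_mul]
      calc (((SJ p m j).filter (fun z => ¬ IsCoprime z (i.1 : Gi))).card : ℝ) * L ≤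
            40 * (1 + Real.log i.1) * MM' p / p.w * L := mul_le_mul_of_nonneg_right h5 hL0
        _ = 40 * (1 + Real.log i.1) * L * MM' p / p.w := by ring
  -- conclusion
  have e9 : ∑ z ∈ SJ p m j, HJ p U m j z * psi i z =
      ∑ z ∈ (SJ p m j).filter (fun z => ¬ IsCoprime z (i.1 : Gi)), K z * psi u z -
        ∑ v4 ∈ A, ∑ v2 ∈ B, (∑ z ∈ SJ p m j, kap p U v4 v2 z * psi u z -
          S4 p u v4 * S2 p u v2) := by
    rw [e4, e5, e6]
    simp only [sum_sub_distrib]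
    ring
  rw [e9]
  exact (norm_sub_le _ _).trans (add_le_add e8 e7)

end Core

end HTAM

end Pool.Agent.Lib.MP391708.XPU
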